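import Mathlib
import Pool.Agent.R38.NC.Stm

/-!
# Nets of conics: a form of the Nullstellensatz for common divisors of integer values
-/

set_option autoImplicit false

namespace Pool.Agent.K1H88.NC

open MvPolynomial
open Pool.Agent.R38.NC (Prim)

theorem denom {σ : Type} (f : MvPolynomial σ ℚ) : ∃ D : ℕ, 1 ≤ D ∧
    ∀ p : σ → ℤ, ∃ n : ℤ, (D : ℚ) * aeval (fun i => (p i : ℚ)) f = n := by
  induction f using MvPolynomial.induction_on' with
  | monomial u a =>
    refine ⟨a.den, a.pos, fun p => ⟨a.num * u.prod fun i k => p i ^ k, ?_⟩⟩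
    rw [aeval_monomial, ← mul_assoc]
    simp only [Finsupp.prod]
    push_cast
    congr 1
    rw [mul_comm]
    exact Rat.mul_den_eq_num a
  | add f₁ f₂ h1 h2 =>
    obtain ⟨D1, hD1, h1⟩ := h1
    obtain ⟨D2, hD2, h2⟩ := h2
    refine ⟨D1 * D2, Nat.mul_pos hD1 hD2, fun p => ?_⟩
    obtain ⟨n1, e1⟩ := h1 p
    obtain ⟨n2, e2⟩ := h2 p
    refine ⟨D2 * n1 + D1 * n2, ?_⟩
    rw [map_add]
    push_cast
    rw [← e1, ← e2]
    ring

theorem aeval_int {σ : Type} (f : MvPolynomial σ ℤ) (x : σ → ℤ) :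
    aeval (fun i => ((x i : ℤ) : ℚ)) (map (Int.castRingHom ℚ) f) = ((eval x f : ℤ) : ℚ) := by
  rw [aeval_map_algebraMap_int f x]
where
  aeval_map_algebraMap_int (f : MvPolynomial σ ℤ) (x : σ → ℤ) :
      aeval (fun i => ((x i : ℤ) : ℚ)) (map (Int.castRingHom ℚ) f) = ((eval x f : ℤ) : ℚ) := by
    induction f using MvPolynomial.induction_on with
    | C a => simp
    | add p q hp hq => rw [map_add, map_add, hp, hq, map_add]; push_cast; rfl
    | mul_X p n hp => rw [map_mul, map_mul, hp, map_X, aeval_X, map_mul, eval_X]; push_cast; rfl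

theorem aeval_cpx {σ : Type} (f : MvPolynomial σ ℤ) (x : σ → ℂ) :
    aeval x (map (Int.castRingHom ℚ) f) = aeval x f := by
  induction f using MvPolynomial.induction_on with
  | C a => simp
  | add p q hp hq => rw [map_add, map_add, hp, hq, map_add]
  | mul_X p n hp => rw [map_mul, map_mul, hp, map_X, aeval_X, map_mul, aeval_X]

theorem nst {σ ι : Type} [Finite σ] [Fintype ι] (f : ι → MvPolynomial σ ℤ)
    (g : MvPolynomial σ ℤ)
    (h : ∀ x : σ → ℂ, (∀ i, aeval x (f i) = 0) → aeval x g = 0) :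
    ∃ K N : ℕ, 1 ≤ K ∧ ∀ (x : σ → ℤ) (d : ℤ), (∀ i, d ∣ eval x (f i)) →
      d ∣ (K : ℤ) * (eval x g) ^ N := by
  set F : ι → MvPolynomial σ ℚ := fun i => map (Int.castRingHom ℚ) (f i) with hF
  set I : Ideal (MvPolynomial σ ℚ) := Ideal.span (Set.range F) with hI
  have h1 : map (Int.castRingHom ℚ) g ∈ I.radical := by
    rw [← vanishingIdeal_zeroLocus_eq_radical (K := ℂ) I, mem_vanishingIdeal_iff]
    intro x hx
    rw [hI, zeroLocus_span] at hx
    rw [aeval_cpx]
    apply h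
    intro i
    rw [← aeval_cpx]
    exact hx (F i) ⟨i, rfl⟩
  obtain ⟨N, hN⟩ := Ideal.mem_radical_iff.1 h1
  rw [hI, Ideal.mem_span_range_iff_exists_fun] at hN
  obtain ⟨c, hc⟩ := hN
  choose D hD hDn using fun t => denom (c t)
  refine ⟨∏ t, D t, N, Nat.one_le_iff_ne_zero.2 (Finset.prod_pos fun t _ => hD t).ne',
    fun x g' hg => ?_⟩
  choose n hn using fun t => hDn t x
  have h3 : ∀ t, ∃ e : ℕ, ∏ t, D t = D t * e := fun t =>
    Finset.dvd_prod_of_mem D (Finset.mem_univ t)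
  choose e he using h3
  have h4 : ((∏ t, D t : ℕ) : ℤ) * (eval x g) ^ N = ∑ t, (e t * n t) * eval x (f t) := by
    have h5 := congrArg (aeval (fun i => ((x i : ℤ) : ℚ))) hc
    rw [map_sum, map_pow, aeval_int] at h5
    have h6 : (((∏ t, D t : ℕ) : ℤ) : ℚ) * ((eval x g : ℤ) : ℚ) ^ N =
        ∑ t, ((e t : ℚ) * n t) * ((eval x (f t) : ℤ) : ℚ) := by
      rw [← h5, Finset.mul_sum]
      refine Finset.sum_congr rfl fun t _ => ?_
      rw [map_mul, ← hn t, he t, hF]
      simp only []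
      rw [aeval_int]
      push_cast
      ring
    have h8 : ((((∏ t, D t : ℕ) : ℤ) * (eval x g) ^ N : ℤ) : ℚ) =
      ((∑ t, (e t * n t) * eval x (f t) : ℤ) : ℚ) := by
      rw [Int.cast_mul, Int.cast_pow, h6, Int.cast_sum]
      refine Finset.sum_congr rfl fun t _ => ?_
      rw [Int.cast_mul, Int.cast_mul, Int.cast_natCast]
    exact_mod_cast h8
  rw [h4]
  exact Finset.dvd_sum fun t _ => Dvd.dvd.mul_left (hg _) _

/-- a primitive family generates the unit ideal -/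
theorem bezout {ι : Type} [Fintype ι] (w : ι → ℤ) (hw : ∀ d : ℤ, (∀ i, d ∣ w i) → IsUnit d) :
    ∃ u : ι → ℤ, ∑ i, u i * w i = 1 := by
  have h1 : Ideal.span (Set.range w) = ⊤ := by
    obtain ⟨g, hg⟩ := IsPrincipalIdealRing.principal (Ideal.span (Set.range w))
    have h2 : IsUnit g := by
      apply hw
      intro i
      have h3 : w i ∈ Ideal.span (Set.range w) := Ideal.subset_span ⟨i, rfl⟩
      rw [hg] at h3
      exact Ideal.mem_span_singleton.1 h3
    rw [hg]
    exact Ideal.span_singleton_eq_top.2 h2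
  have h4 : (1 : ℤ) ∈ Ideal.span (Set.range w) := by rw [h1]; trivial
  rw [Ideal.mem_span_range_iff_exists_fun] at h4
  exact h4

/-- powers of a primitive family -/
theorem dvd_of_pow {ι : Type} [Fintype ι] (w : ι → ℤ) (hw : ∀ d : ℤ, (∀ i, d ∣ w i) → IsUnit d)
    (K d : ℤ) (N : ι → ℕ) (h : ∀ i, d ∣ K * w i ^ N i) : d ∣ K := by
  set J : Ideal ℤ := Submodule.comap (LinearMap.mulLeft ℤ K) (Ideal.span {d}) with hJ
  have hmem : ∀ x : ℤ, x ∈ J ↔ d ∣ K * x := by
    intro x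
    rw [hJ, Submodule.mem_comap, LinearMap.mulLeft_apply, Ideal.mem_span_singleton]
  have h1 : ∀ i, w i ∈ J.radical := fun i =>
    Ideal.mem_radical_iff.2 ⟨N i, by rw [hmem]; exact h i⟩
  obtain ⟨u, hu⟩ := bezout w hw
  have h2 : (1 : ℤ) ∈ J.radical := by
    rw [← hu]
    exact Ideal.sum_mem _ fun i _ => Ideal.mul_mem_left _ _ (h1 i)
  obtain ⟨n, hn⟩ := Ideal.mem_radical_iff.1 h2
  rw [one_pow, hmem, mul_one] at hn
  exact hn

end Pool.Agent.K1H88.NC
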