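import Mathlib
import Pool.Agent.R38.QP.Stm
import Pool.Agent.K1H88.NC.Nst

/-!
# Nets of conics: points on conics, with the greatest common divisor of the minors
-/

set_option autoImplicit false

namespace Pool.Agent.K1H88.NC

open Matrix
open Pool.Agent.R38.NC (qf Prim)
open Pool.Agent.R38.QP (S_CON2)

/-- a symmetric matrix all of whose `2 × 2` minors are in a prime ideal -/
theorem rk1 {R : Type*} [CommRing R] (P : Ideal R) [hP : P.IsPrime]
    (X : Matrix (Fin 3) (Fin 3) R) (hX : X.IsSymm) (h : ∀ i j, X.adjugate i j ∈ P)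
    (h0 : ∃ i j, X i j ∉ P) :
    ∃ j, X j j ∉ P ∧ ∀ k l, X j j * X k l - X j k * X j l ∈ P := by
  have s1 : X 1 0 = X 0 1 := hX.apply 0 1
  have s2 : X 2 0 = X 0 2 := hX.apply 0 2
  have s3 : X 2 1 = X 1 2 := hX.apply 1 2
  have e : ∀ x y : R, x ∈ P → y = x → y ∈ P := fun x y hx hy => hy ▸ hx
  have key : ∀ j k l, X j j * X k l - X j k * X j l ∈ P := by
    have h00 := h 0 0
    have h01 := h 0 1
    have h02 := h 0 2
    have h11 := h 1 1
    have h12 := h 1 2
    have h22 := h 2 2
    rw [adjugate_fin_three] at h00 h01 h02 h11 h12 h22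
    simp [s1, s2, s3] at h00 h01 h02 h11 h12 h22
    intro j k l
    fin_cases j <;> fin_cases k <;> fin_cases l <;> simp only [Fin.mk_one, Fin.zero_eta,
      Fin.reduceFinMk, s1, s2, s3] <;>
    first
      | exact e 0 _ P.zero_mem (by ring1)
      | exact e _ _ h00 (by ring1)
      | exact e _ _ h01 (by ring1)
      | exact e _ _ h02 (by ring1)
      | exact e _ _ h11 (by ring1)
      | exact e _ _ h12 (by ring1)
      | exact e _ _ h22 (by ring1)
      | exact e _ _ (P.neg_mem h00) (by ring1)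
      | exact e _ _ (P.neg_mem h01) (by ring1)
      | exact e _ _ (P.neg_mem h02) (by ring1)
      | exact e _ _ (P.neg_mem h11) (by ring1)
      | exact e _ _ (P.neg_mem h12) (by ring1)
  by_contra hcon
  push Not at hcon
  have hd : ∀ j, X j j ∈ P := by
    intro j
    by_contra hj
    obtain ⟨k, l, hkl⟩ := hcon j hj
    exact hkl (key j k l)
  obtain ⟨k, l, hkl⟩ := h0
  apply hkl
  have h1 := key k l l
  have h2 : X k l * X k l ∈ P := by
    have h3 : X k l * X k l = X k k * X l l - (X k k * X l l - X k l * X k l) := by ring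
    rw [h3]
    exact P.sub_mem (P.mul_mem_right _ (hd k)) h1
  rcases hP.mem_or_mem h2 with h3 | h3 <;> exact h3

/-- the greatest common divisor of the `2 × 2` minors -/
def G2 (M : Matrix (Fin 3) (Fin 3) ℤ) : ℕ :=
  Finset.univ.gcd fun p : Fin 3 × Fin 3 => (M.adjugate p.1 p.2).natAbs

theorem G2_dvd (M : Matrix (Fin 3) (Fin 3) ℤ) (i j : Fin 3) : (G2 M : ℤ) ∣ M.adjugate i j := by
  rw [Int.natCast_dvd]
  unfold G2
  exact Finset.gcd_dvd (s := Finset.univ) (b := (i, j))
    (f := fun p : Fin 3 × Fin 3 => (M.adjugate p.1 p.2).natAbs) (Finset.mem_univ (i, j))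

theorem dvd_G2 {M : Matrix (Fin 3) (Fin 3) ℤ} {d : ℕ} (h : ∀ i j, (d : ℤ) ∣ M.adjugate i j) :
    d ∣ G2 M :=
  Finset.dvd_gcd fun p _ => Int.natCast_dvd.1 (h p.1 p.2)

theorem G2_pos {M : Matrix (Fin 3) (Fin 3) ℤ} (h : M.det ≠ 0) : 1 ≤ G2 M := by
  rw [Nat.one_le_iff_ne_zero]
  intro h0
  have h1 : M.adjugate = 0 := by
    ext i j
    have := G2_dvd M i j
    rw [h0] at this
    simpa using this
  have h2 := det_adjugate M
  rw [h1] at h2
  simp at h2
  exact h (pow_eq_zero_iff two_ne_zero |>.1 h2.symm)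

theorem smul_inj {p : ℤ} (hp : p ≠ 0) {A B : Matrix (Fin 3) (Fin 3) ℤ} (h : p • A = p • B) :
    A = B := by
  ext i j
  have := congrFun (congrFun h i) j
  simp only [Matrix.smul_apply, smul_eq_mul] at this
  exact mul_left_cancel₀ hp this

/-- the reduction at a prime number that divides all minors but not all entries -/
theorem stepB (p : ℕ) (hp : p.Prime) (M : Matrix (Fin 3) (Fin 3) ℤ) (hM : M.IsSymm)
    (hadj : ∀ i j, (p : ℤ) ∣ M.adjugate i j) (hne : ∃ i j, ¬ (p : ℤ) ∣ M i j) :
    ∃ M' U : Matrix (Fin 3) (Fin 3) ℤ, M'.IsSymm ∧ U.det = p ∧ Uᵀ * M * U = (p : ℤ) • M' ∧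
      ∀ x, qf M x = 0 → ∃ y, x = U.mulVec y := by
  have hpZ : Prime (p : ℤ) := Nat.prime_iff_prime_int.1 hp
  have : (Ideal.span {(p : ℤ)}).IsPrime := (Ideal.span_singleton_prime hpZ.ne_zero).2 hpZ
  obtain ⟨j, hj, hk⟩ := rk1 (Ideal.span {(p : ℤ)}) M hM
    (fun i j => Ideal.mem_span_singleton.2 (hadj i j)) (by
      obtain ⟨i, j, h⟩ := hne
      exact ⟨i, j, fun h' => h (Ideal.mem_span_singleton.1 h')⟩)
  rw [Ideal.mem_span_singleton] at hj
  simp only [Ideal.mem_span_singleton] at hk
  have hco : IsCoprime (p : ℤ) (M j j) := (Prime.coprime_iff_not_dvd hpZ).2 hj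
  obtain ⟨a, μ, haμ⟩ := hco
  set U : Matrix (Fin 3) (Fin 3) ℤ := fun k l =>
    if k = j then (if l = j then (p : ℤ) else -(μ * M j l)) else (if k = l then 1 else 0) with hU
  have hUdet : U.det = p := by
    rw [det_fin_three]
    fin_cases j <;> simp [hU]
  have hLU : ∀ b, (p : ℤ) ∣ ∑ k, M j k * U k b := by
    intro b
    by_cases hb : b = j
    · refine Dvd.intro (M j j) (Eq.symm ?_)
      rw [hb, Finset.sum_eq_single j]
      · simp only [hU, if_true]
        ring
      · intro k _ hk'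
        simp only [hU, if_neg hk', mul_zero]
      · intro h
        exact absurd (Finset.mem_univ _) h
    · refine Dvd.intro (a * M j b) (Eq.symm ?_)
      have h1 : ∑ k, M j k * U k b = M j b * 1 + M j j * (-(μ * M j b)) := by
        rw [← Finset.add_sum_erase _ _ (Finset.mem_univ b), ← Finset.add_sum_erase (a := j)
          (Finset.univ.erase b) _ (Finset.mem_erase.2 ⟨fun h => hb h.symm, Finset.mem_univ j⟩),
          Finset.sum_eq_zero]
        · simp only [hU, if_neg hb, if_true]
          ring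
        · intro k hk'
          rw [Finset.mem_erase, Finset.mem_erase] at hk'
          simp only [hU, if_neg hk'.1, if_neg hk'.2.1, mul_zero]
      rw [h1]
      linear_combination (-(M j b)) * haμ
  have hdiv : ∀ i k, (p : ℤ) ∣ (Uᵀ * M * U) i k := by
    intro i k
    have h1 : (p : ℤ) ∣ M j j * (Uᵀ * M * U) i k := by
      have h2 : M j j * (Uᵀ * M * U) i k =
          ∑ r, ∑ s, U r i * (M j j * M r s - M j r * M j s) * U s k +
          (∑ r, M j r * U r i) * (∑ s, M j s * U s k) := by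
        simp only [Matrix.mul_apply, Matrix.transpose_apply, Fin.sum_univ_three]
        ring
      rw [h2]
      have h3 : (p : ℤ) ∣ ∑ r, ∑ s, U r i * (M j j * M r s - M j r * M j s) * U s k := by
        apply Finset.dvd_sum
        intro r _
        apply Finset.dvd_sum
        intro s _
        exact Dvd.dvd.mul_right (Dvd.dvd.mul_left (hk r s) _) _
      exact dvd_add h3 (Dvd.dvd.mul_right (hLU i) _)
    rcases hpZ.dvd_or_dvd h1 with h3 | h3
    · exact absurd h3 hj
    · exact h3
  choose M' hM' using hdiv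
  have hM'eq : Uᵀ * M * U = (p : ℤ) • (Matrix.of M') := by
    ext i k
    rw [hM' i k]
    rfl
  have hsym : (Matrix.of M').IsSymm := by
    have h1 : ((p : ℤ) • (Matrix.of M'))ᵀ = (p : ℤ) • (Matrix.of M') := by
      rw [← hM'eq]
      rw [Matrix.transpose_mul, Matrix.transpose_mul, Matrix.transpose_transpose, hM.eq,
        Matrix.mul_assoc]
    rw [Matrix.transpose_smul] at h1
    exact smul_inj hpZ.ne_zero h1
  have hpar : ∀ x, qf M x = 0 → ∃ y, x = U.mulVec y := by
    intro x hx
    have h1 : (p : ℤ) ∣ ∑ k, M j k * x k := by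
      have h2 : (p : ℤ) ∣ (∑ k, M j k * x k) * (∑ k, M j k * x k) := by
        have h3 : (∑ k, M j k * x k) * (∑ k, M j k * x k) = M j j * qf M x -
            ∑ r, ∑ s, x r * (M j j * M r s - M j r * M j s) * x s := by
          simp only [qf, dotProduct, mulVec, Fin.sum_univ_three]
          ring
        rw [h3, hx, mul_zero, zero_sub, dvd_neg]
        apply Finset.dvd_sum
        intro r _
        apply Finset.dvd_sum
        intro s _
        exact Dvd.dvd.mul_right (Dvd.dvd.mul_left (hk r s) _) _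
      rcases hpZ.dvd_or_dvd h2 with h3 | h3 <;> exact h3
    obtain ⟨w, hw⟩ := h1
    rw [Fin.sum_univ_three] at hw
    have hmain : x = U.mulVec (fun k => if k = j then a * x j + μ * w else x k) := by
      funext k
      by_cases hk' : k = j
      · rw [hk', mulVec, dotProduct, Fin.sum_univ_three]
        fin_cases j <;> simp [hU] at haμ hw ⊢
        · linear_combination (-(x 0)) * haμ + μ * hw
        · linear_combination (-(x 1)) * haμ + μ * hw
        · linear_combination (-(x 2)) * haμ + μ * hw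
      · rw [mulVec, dotProduct, Finset.sum_eq_single k]
        · simp only [hU, if_neg hk', if_true, one_mul]
        · intro l _ hl
          simp only [hU, if_neg hk', if_neg (Ne.symm hl), zero_mul]
        · intro h
          exact absurd (Finset.mem_univ _) h
    exact Exists.intro _ hmain
  clear_value U
  exact Exists.intro (Matrix.of M') (Exists.intro U ⟨hsym, hUdet, hM'eq, hpar⟩)

theorem valA (V : ℝ) (hV : 0 ≤ V) (p g' g δ' δ : ℕ) (hp : 1 ≤ p) (hδ' : 1 ≤ δ')
    (hg : p ^ 2 * g' ≤ g) (hδ : δ = p ^ 3 * δ') :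
    V * (g' : ℝ) ^ ((3 : ℝ) / 2) / δ' ≤ V * (g : ℝ) ^ ((3 : ℝ) / 2) / δ := by
  have hp1 : (1 : ℝ) ≤ p := by exact_mod_cast hp
  have hd1 : (1 : ℝ) ≤ δ' := by exact_mod_cast hδ'
  have h1 : ((p : ℝ) ^ 2 * g') ^ ((3 : ℝ) / 2) ≤ (g : ℝ) ^ ((3 : ℝ) / 2) :=
    Real.rpow_le_rpow (by positivity) (by exact_mod_cast hg) (by norm_num)
  rw [Real.mul_rpow (by positivity) (by positivity), ← Real.rpow_natCast (p : ℝ) 2,
    ← Real.rpow_mul (by positivity)] at h1
  have h2 : (((2 : ℕ) : ℝ) * ((3 : ℝ) / 2)) = ((3 : ℕ) : ℝ) := by norm_num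
  rw [h2, Real.rpow_natCast] at h1
  rw [hδ]
  push_cast
  rw [div_le_div_iff₀ (by positivity) (by positivity)]
  calc V * (g' : ℝ) ^ ((3 : ℝ) / 2) * ((p : ℝ) ^ 3 * δ') =
        V * δ' * ((p : ℝ) ^ 3 * (g' : ℝ) ^ ((3 : ℝ) / 2)) := by ring
    _ ≤ V * δ' * (g : ℝ) ^ ((3 : ℝ) / 2) := mul_le_mul_of_nonneg_left h1 (by positivity)
    _ = _ := by ring

theorem valB (V : ℝ) (hV : 0 ≤ V) (p g' g δ' δ : ℕ) (hp : 1 ≤ p) (hδ' : 1 ≤ δ')
    (hg : g' ≤ g) (hδ : δ = p * δ') :
    V / p * (g' : ℝ) ^ ((3 : ℝ) / 2) / δ' ≤ V * (g : ℝ) ^ ((3 : ℝ) / 2) / δ := by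
  have hp1 : (1 : ℝ) ≤ p := by exact_mod_cast hp
  have hd1 : (1 : ℝ) ≤ δ' := by exact_mod_cast hδ'
  have h1 : (g' : ℝ) ^ ((3 : ℝ) / 2) ≤ (g : ℝ) ^ ((3 : ℝ) / 2) :=
    Real.rpow_le_rpow (by positivity) (by exact_mod_cast hg) (by norm_num)
  rw [hδ]
  push_cast
  have h3 : V / p * (g' : ℝ) ^ ((3 : ℝ) / 2) / δ' = V * (g' : ℝ) ^ ((3 : ℝ) / 2) / (p * δ') := by
    field_simp
  rw [h3]
  gcongr

theorem card_div_mono {a b : ℕ} (h : a ∣ b) (hb : b ≠ 0) :
    ((Nat.divisors a).card : ℝ) ≤ ((Nat.divisors b).card : ℝ) := by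
  exact_mod_cast Finset.card_le_card (Nat.divisors_subset_of_dvd hb h)

theorem qf_congr (M U : Matrix (Fin 3) (Fin 3) ℤ) (y : Fin 3 → ℤ) :
    qf (Uᵀ * M * U) y = qf M (U.mulVec y) := by
  simp only [qf, dotProduct, mulVec, Fin.sum_univ_three, Matrix.mul_apply, Matrix.transpose_apply]
  ring

theorem qf_smul (p : ℤ) (M : Matrix (Fin 3) (Fin 3) ℤ) (y : Fin 3 → ℤ) :
    qf (p • M) y = p * qf M y := by
  simp only [qf, dotProduct, mulVec, Fin.sum_univ_three, Matrix.smul_apply, smul_eq_mul]
  ring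

theorem det_triple (U : Matrix (Fin 3) (Fin 3) ℤ) (x y z : Fin 3 → ℤ) :
    (Matrix.of ![U.mulVec x, U.mulVec y, U.mulVec z]).det =
      (Matrix.of ![x, y, z]).det * U.det := by
  have h : Matrix.of ![U.mulVec x, U.mulVec y, U.mulVec z] = Matrix.of ![x, y, z] * Uᵀ := by
    ext i j
    fin_cases i <;> simp [Matrix.mul_apply, mulVec, dotProduct, mul_comm]
  rw [h, det_mul, det_transpose]

/-- zeros of a ternary quadratic form; the dependence on the common divisor of the minors -/
theorem con3 (hC : S_CON2) (n : ℕ) : ∀ M : Matrix (Fin 3) (Fin 3) ℤ, M.det.natAbs ≤ n →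
    M.IsSymm → M.det ≠ 0 → ∀ (V : ℝ) (S : Finset (Fin 3 → ℤ)), 0 ≤ V →
    (∀ x ∈ S, Prim x ∧ qf M x = 0) → (∀ x ∈ S, ∀ y ∈ S, y ≠ -x) →
    (∀ x ∈ S, ∀ y ∈ S, ∀ z ∈ S, ((|(Matrix.of ![x, y, z]).det| : ℤ) : ℝ) ≤ 6 * V) →
    (S.card : ℝ) ≤ 1 + ((Nat.divisors (2 * M.det.natAbs)).card : ℝ) ^ 2 *
      (10 + 40 * (V * (G2 M : ℝ) ^ ((3 : ℝ) / 2) / (M.det.natAbs : ℝ)) ^ ((1 : ℝ) / 3)) := by
  induction n with
  | zero =>
    intro M h0 _ hdet
    exact absurd (Int.natAbs_eq_zero.1 (Nat.le_zero.1 h0)) hdet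
  | succ n ih =>
    intro M hn hM hdet V S hV hS hneg hvol
    have hdet1 : 1 ≤ M.det.natAbs := Nat.one_le_iff_ne_zero.2 (Int.natAbs_ne_zero.2 hdet)
    by_cases hG : G2 M = 1
    · have h1 := hC 1 M le_rfl hM hdet (fun d hd => by
        have h2 : d.natAbs ∣ G2 M := dvd_G2 fun i j => Int.natAbs_dvd.2 (hd i j)
        rw [hG] at h2
        exact Int.natAbs_dvd.1 (by exact_mod_cast h2)) V S hV hS hneg hvol
      rw [hG]
      simpa using h1
    obtain ⟨p, hp, hpG⟩ := Nat.exists_prime_and_dvd hG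
    have hp0 : (p : ℤ) ≠ 0 := by exact_mod_cast hp.ne_zero
    have hadj : ∀ i j, (p : ℤ) ∣ M.adjugate i j := fun i j =>
      (Int.natCast_dvd_natCast.2 hpG).trans (G2_dvd M i j)
    by_cases hall : ∀ i j, (p : ℤ) ∣ M i j
    · choose M' hM' using hall
      have hMe : M = (p : ℤ) • (Matrix.of M') := by
        ext i j
        rw [hM' i j]
        rfl
      have hsym : (Matrix.of M').IsSymm := by
        have h1 : ((p : ℤ) • (Matrix.of M'))ᵀ = (p : ℤ) • (Matrix.of M') := by
          rw [← hMe]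
          exact hM
        rw [Matrix.transpose_smul] at h1
        exact smul_inj hp0 h1
      have hde : M.det = (p : ℤ) ^ 3 * (Matrix.of M').det := by
        rw [hMe, det_smul]
        rfl
      have hd' : (Matrix.of M').det ≠ 0 := by
        intro h
        apply hdet
        rw [hde, h, mul_zero]
      have hde' : M.det.natAbs = p ^ 3 * (Matrix.of M').det.natAbs := by
        rw [hde, Int.natAbs_mul, Int.natAbs_pow, Int.natAbs_natCast]
      have hd1 : 1 ≤ (Matrix.of M').det.natAbs :=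
        Nat.one_le_iff_ne_zero.2 (Int.natAbs_ne_zero.2 hd')
      have hp2 := hp.two_le
      have hlt : (Matrix.of M').det.natAbs ≤ n := by
        have h8 : 8 ≤ p ^ 3 := by
          calc 8 = 2 ^ 3 := by norm_num
            _ ≤ p ^ 3 := Nat.pow_le_pow_left hp2 3
        nlinarith
      have hGG : p ^ 2 * G2 (Matrix.of M') ≤ G2 M := by
        apply Nat.le_of_dvd (G2_pos hdet)
        apply dvd_G2
        intro i j
        rw [hMe, adjugate_smul, Matrix.smul_apply, smul_eq_mul]
        push_cast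
        exact mul_dvd_mul (by simp) (G2_dvd _ i j)
      have h1 := ih (Matrix.of M') hlt hsym hd' V S hV (fun x hx => by
        refine ⟨(hS x hx).1, ?_⟩
        have h2 := (hS x hx).2
        rw [hMe, qf_smul] at h2
        exact (mul_eq_zero.1 h2).resolve_left hp0) hneg hvol
      refine h1.trans ?_
      have h3 := valA V hV p _ _ _ _ hp.one_le hd1 hGG hde'
      have h4 := card_div_mono (a := 2 * (Matrix.of M').det.natAbs) (b := 2 * M.det.natAbs)
        (Nat.mul_dvd_mul_left 2 ⟨p ^ 3, by rw [hde']; ring⟩) (by omega)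
      have h5 : (V * (G2 (Matrix.of M') : ℝ) ^ ((3 : ℝ) / 2) /
          ((Matrix.of M').det.natAbs : ℝ)) ^ ((1 : ℝ) / 3) ≤
          (V * (G2 M : ℝ) ^ ((3 : ℝ) / 2) / (M.det.natAbs : ℝ)) ^ ((1 : ℝ) / 3) :=
        Real.rpow_le_rpow (by positivity) h3 (by norm_num)
      gcongr
    · push Not at hall
      obtain ⟨M', U, hsym, hUdet, hMU, hpar⟩ := stepB p hp M hM hadj hall
      have hde : M.det = (p : ℤ) * M'.det := by
        have h1 := congrArg Matrix.det hMU
        rw [det_mul, det_mul, det_transpose, hUdet, det_smul] at h1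
        have h2 : (p : ℤ) ^ 2 * M.det = (p : ℤ) ^ 2 * ((p : ℤ) * M'.det) := by
          rw [Fintype.card_fin] at h1
          linear_combination h1
        exact mul_left_cancel₀ (pow_ne_zero 2 hp0) h2
      have hd' : M'.det ≠ 0 := by
        intro h
        apply hdet
        rw [hde, h, mul_zero]
      have hde' : M.det.natAbs = p * M'.det.natAbs := by
        rw [hde, Int.natAbs_mul, Int.natAbs_natCast]
      have hd1 : 1 ≤ M'.det.natAbs := Nat.one_le_iff_ne_zero.2 (Int.natAbs_ne_zero.2 hd')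
      have hp2 := hp.two_le
      have hlt : M'.det.natAbs ≤ n := by nlinarith
      have hadjM : M.adjugate = U * M'.adjugate * Uᵀ := by
        have h1 : (p : ℤ) ^ 2 • M'.adjugate = U.adjugate * (M.adjugate * Uᵀ.adjugate) := by
          have h2 := congrArg Matrix.adjugate hMU
          rw [adjugate_mul_distrib, adjugate_mul_distrib, adjugate_smul] at h2
          exact h2.symm
        have h3 : (p : ℤ) ^ 2 • (U * M'.adjugate * Uᵀ) = (p : ℤ) ^ 2 • M.adjugate := by
          calc (p : ℤ) ^ 2 • (U * M'.adjugate * Uᵀ) = U * ((p : ℤ) ^ 2 • M'.adjugate) * Uᵀ := by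
                rw [Matrix.mul_smul, Matrix.smul_mul]
            _ = (U * U.adjugate) * M.adjugate * (Uᵀ.adjugate * Uᵀ) := by
                rw [h1]
                simp only [Matrix.mul_assoc]
            _ = (p : ℤ) ^ 2 • M.adjugate := by
                rw [mul_adjugate, adjugate_mul, det_transpose, hUdet]
                simp only [Matrix.smul_mul, Matrix.mul_smul, Matrix.one_mul, Matrix.mul_one]
                rw [smul_smul, sq]
        exact (smul_inj (pow_ne_zero 2 hp0) h3).symm
      have hGG : G2 M' ≤ G2 M := by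
        apply Nat.le_of_dvd (G2_pos hdet)
        apply dvd_G2
        intro i j
        rw [hadjM]
        simp only [Matrix.mul_apply]
        apply Finset.dvd_sum
        intro k _
        apply Dvd.dvd.mul_right
        apply Finset.dvd_sum
        intro l _
        exact Dvd.dvd.mul_left (G2_dvd M' _ _) _
      classical
      set f : (Fin 3 → ℤ) → (Fin 3 → ℤ) := fun x =>
        if h : qf M x = 0 then Classical.choose (hpar x h) else 0 with hf
      have hfU : ∀ x ∈ S, U.mulVec (f x) = x := by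
        intro x hx
        have h1 := (hS x hx).2
        simp only [hf, dif_pos h1]
        exact (Classical.choose_spec (hpar x h1)).symm
      clear_value f
      have hcard : (S.image f).card = S.card := by
        apply Finset.card_image_of_injOn
        intro x hx y hy h
        rw [← hfU x hx, ← hfU y hy, h]
      have h1 := ih M' hlt hsym hd' (V / p) (S.image f) (by positivity) (by
        intro y hy
        obtain ⟨x, hx, rfl⟩ := Finset.mem_image.1 hy
        constructor
        · intro d hd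
          apply (hS x hx).1
          intro i
          rw [← hfU x hx, mulVec, dotProduct]
          exact Finset.dvd_sum fun k _ => Dvd.dvd.mul_left (hd k) _
        · have h2 := (hS x hx).2
          rw [← hfU x hx, ← qf_congr, hMU, qf_smul] at h2
          exact (mul_eq_zero.1 h2).resolve_left hp0) (by
        intro y hy z hz h
        obtain ⟨x, hx, rfl⟩ := Finset.mem_image.1 hy
        obtain ⟨x', hx', rfl⟩ := Finset.mem_image.1 hz
        apply hneg x hx x' hx'
        rw [← hfU x hx, ← hfU x' hx', h, Matrix.mulVec_neg]) (by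
        intro y hy z hz w hw
        obtain ⟨x, hx, rfl⟩ := Finset.mem_image.1 hy
        obtain ⟨x', hx', rfl⟩ := Finset.mem_image.1 hz
        obtain ⟨x'', hx'', rfl⟩ := Finset.mem_image.1 hw
        have h2 := hvol x hx x' hx' x'' hx''
        rw [← hfU x hx, ← hfU x' hx', ← hfU x'' hx'', det_triple, abs_mul, hUdet] at h2
        have hpr : (0 : ℝ) < p := by exact_mod_cast hp.pos
        rw [mul_div_assoc', le_div_iff₀ hpr]
        push_cast at h2
        rw [abs_of_pos hpr] at h2
        push_cast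
        exact h2)
      rw [hcard] at h1
      refine h1.trans ?_
      have h3 := valB V hV p _ _ _ _ hp.one_le hd1 hGG hde'
      have h4 := card_div_mono (a := 2 * M'.det.natAbs) (b := 2 * M.det.natAbs)
        (Nat.mul_dvd_mul_left 2 ⟨p, by rw [hde']; ring⟩) (by omega)
      have h5 : (V / p * (G2 M' : ℝ) ^ ((3 : ℝ) / 2) /
          (M'.det.natAbs : ℝ)) ^ ((1 : ℝ) / 3) ≤
          (V * (G2 M : ℝ) ^ ((3 : ℝ) / 2) / (M.det.natAbs : ℝ)) ^ ((1 : ℝ) / 3) :=
        Real.rpow_le_rpow (by positivity) h3 (by norm_num)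
      gcongr

end Pool.Agent.K1H88.NC
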