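import Mathlib
import Pool.Agent.K1H88.NC.Con3

/-!
# Nets of conics: algebra of symmetric matrices over the complex numbers
-/

set_option autoImplicit false

namespace Pool.Agent.K1H88.NC

open Matrix
open Pool.Agent.R38.NC (gm qf cq Smooth)

variable {R : Type*} [CommRing R]

/-- the cross product -/
def cr (t s : Fin 3 → R) : Fin 3 → R :=
  ![t 1 * s 2 - t 2 * s 1, t 2 * s 0 - t 0 * s 2, t 0 * s 1 - t 1 * s 0]

/-- the mixed term of the adjugate -/
def bm (X Y : Matrix (Fin 3) (Fin 3) R) : Matrix (Fin 3) (Fin 3) R :=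
  (X + Y).adjugate - X.adjugate - Y.adjugate

theorem adj_comb (X Y : Matrix (Fin 3) (Fin 3) R) (a c : R) :
    (a • X + c • Y).adjugate = a ^ 2 • X.adjugate + (a * c) • bm X Y + c ^ 2 • Y.adjugate := by
  unfold bm
  ext i j
  fin_cases i <;> fin_cases j <;>
    simp [adjugate_fin_three, Matrix.add_apply, Matrix.smul_apply] <;> ring

theorem bm_smul (X Y : Matrix (Fin 3) (Fin 3) R) (a b : R) :
    bm (a • X) (b • Y) = (a * b) • bm X Y := by
  unfold bm
  ext i j
  fin_cases i <;> fin_cases j <;>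
    simp [adjugate_fin_three, Matrix.add_apply, Matrix.smul_apply] <;> ring

theorem bm_comm (X Y : Matrix (Fin 3) (Fin 3) R) : bm X Y = bm Y X := by
  unfold bm
  rw [add_comm X Y]
  abel

theorem adj_comb3 (X Y Z : Matrix (Fin 3) (Fin 3) R) (a b c : R) (hX : X.adjugate = 0)
    (hY : Y.adjugate = 0) (hZ : Z.adjugate = 0) :
    (a • X + b • Y + c • Z).adjugate =
      (a * b) • bm X Y + (a * c) • bm X Z + (b * c) • bm Y Z := by
  unfold bm
  rw [hX, hY, hZ]
  have h1 := congrFun₂ hX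
  have h2 := congrFun₂ hY
  have h3 := congrFun₂ hZ
  ext i j
  have e1 := h1 i j
  have e2 := h2 i j
  have e3 := h3 i j
  fin_cases i <;> fin_cases j <;>
    simp [adjugate_fin_three, Matrix.add_apply, Matrix.smul_apply] at e1 e2 e3 ⊢ <;>
    linear_combination (a ^ 2 - a * b - a * c) * e1 + (b ^ 2 - a * b - b * c) * e2 +
      (c ^ 2 - a * c - b * c) * e3
where
  congrFun₂ {A B : Matrix (Fin 3) (Fin 3) R} (h : A = B) : ∀ i j, A i j = B i j :=
    fun i j => by rw [h]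

theorem mixid (X Y : Matrix (Fin 3) (Fin 3) R) (hX : X.IsSymm) (hY : Y.IsSymm)
    (x : Fin 3 → R) (j : Fin 3) :
    qf (bm X Y) (cr x (Pi.single j 1)) =
      qf X x * Y j j + qf Y x * X j j - 2 * (X.mulVec x j) * (Y.mulVec x j) := by
  have s1 : X 1 0 = X 0 1 := hX.apply 0 1
  have s2 : X 2 0 = X 0 2 := hX.apply 0 2
  have s3 : X 2 1 = X 1 2 := hX.apply 1 2
  have s4 : Y 1 0 = Y 0 1 := hY.apply 0 1
  have s5 : Y 2 0 = Y 0 2 := hY.apply 0 2
  have s6 : Y 2 1 = Y 1 2 := hY.apply 1 2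
  unfold bm
  fin_cases j <;>
    simp [qf, cr, dotProduct, mulVec, Fin.sum_univ_three, adjugate_fin_three, Matrix.add_apply,
      s1, s2, s3, s4, s5, s6] <;> ring

theorem bm_vec (r s y : Fin 3 → R) :
    qf (bm (vecMulVec r r) (vecMulVec s s)) y = (y ⬝ᵥ cr r s) ^ 2 := by
  unfold bm
  simp [qf, cr, dotProduct, mulVec, Fin.sum_univ_three, adjugate_fin_three, Matrix.add_apply,
    vecMulVec_apply]
  ring

theorem qf_lin (Y : Matrix (Fin 3) (Fin 3) R) (v w : Fin 3 → R) (a b : R) :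
    qf Y (a • v + b • w) = a ^ 2 * qf Y v + a * b * (v ⬝ᵥ Y.mulVec w + w ⬝ᵥ Y.mulVec v) +
      b ^ 2 * qf Y w := by
  simp [qf, dotProduct, mulVec, Fin.sum_univ_three]
  ring

/-- binary quadratic forms have zeros -/
theorem bin (v w : Fin 3 → ℂ) (Y : Matrix (Fin 3) (Fin 3) ℂ) :
    ∃ a b : ℂ, (a ≠ 0 ∨ b ≠ 0) ∧ qf Y (a • v + b • w) = 0 := by
  by_cases hα : qf Y v = 0
  · exact ⟨1, 0, Or.inl one_ne_zero, by rw [qf_lin, hα]; ring⟩
  · obtain ⟨s, hs⟩ := IsAlgClosed.exists_pow_nat_eq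
      ((v ⬝ᵥ Y.mulVec w + w ⬝ᵥ Y.mulVec v) ^ 2 - 4 * qf Y v * qf Y w) (n := 2) (by norm_num)
    refine ⟨(-(v ⬝ᵥ Y.mulVec w + w ⬝ᵥ Y.mulVec v) + s) / (2 * qf Y v), 1, Or.inr one_ne_zero, ?_⟩
    rw [qf_lin]
    field_simp
    linear_combination hs

theorem lq (r : Fin 3 → ℂ) (Y : Matrix (Fin 3) (Fin 3) ℂ) :
    ∃ x : Fin 3 → ℂ, x ≠ 0 ∧ r ⬝ᵥ x = 0 ∧ qf Y x = 0 := by
  have h : ∃ v w : Fin 3 → ℂ, r ⬝ᵥ v = 0 ∧ r ⬝ᵥ w = 0 ∧
      ∀ a b : ℂ, a • v + b • w = 0 → a = 0 ∧ b = 0 := by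
    by_cases h0 : r 0 = 0
    · by_cases h1 : r 1 = 0
      · refine ⟨![1, 0, 0], ![0, 1, 0], ?_, ?_, ?_⟩
        · simp [dotProduct, Fin.sum_univ_three, h0]
        · simp [dotProduct, Fin.sum_univ_three, h1]
        · intro a b hab
          have e0 := congrFun hab 0
          have e1 := congrFun hab 1
          simp at e0 e1
          exact ⟨e0, e1⟩
      · refine ⟨![1, 0, 0], ![0, -r 2, r 1], ?_, ?_, ?_⟩
        · simp [dotProduct, Fin.sum_univ_three, h0]
        · simp [dotProduct, Fin.sum_univ_three]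
          ring
        · intro a b hab
          have e0 := congrFun hab 0
          have e1 := congrFun hab 2
          simp at e0 e1
          exact ⟨e0, e1.resolve_right h1⟩
    · refine ⟨![-r 1, r 0, 0], ![-r 2, 0, r 0], ?_, ?_, ?_⟩
      · simp [dotProduct, Fin.sum_univ_three]
        ring
      · simp [dotProduct, Fin.sum_univ_three]
        ring
      · intro a b hab
        have e0 := congrFun hab 1
        have e1 := congrFun hab 2
        simp at e0 e1
        exact ⟨e0.resolve_right h0, e1.resolve_right h0⟩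
  obtain ⟨v, w, hv, hw, hi⟩ := h
  obtain ⟨a, b, hab, hq⟩ := bin v w Y
  refine ⟨a • v + b • w, ?_, ?_, hq⟩
  · intro h0
    obtain ⟨ha, hb⟩ := hi a b h0
    rcases hab with h | h
    · exact h ha
    · exact h hb
  · rw [dotProduct_add, dotProduct_smul, dotProduct_smul, hv, hw]
    simp

/-- two conics have a common point -/
theorem bz (X Y : Matrix (Fin 3) (Fin 3) ℂ) (hX : X.IsSymm) (hY : Y.IsSymm) :
    ∃ x : Fin 3 → ℂ, x ≠ 0 ∧ qf X x = 0 ∧ qf Y x = 0 := by
  have h : ∃ a c : ℂ, (a ≠ 0 ∨ c ≠ 0) ∧ (a • X + c • Y).det = 0 := by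
    by_cases hd : Y.det = 0
    · exact ⟨0, 1, Or.inr one_ne_zero, by simpa using hd⟩
    · obtain ⟨μ, hμ⟩ := IsAlgClosed.exists_root (Matrix.charpoly (-(Y⁻¹ * X))) (by
        rw [Matrix.charpoly_degree_eq_dim]
        simp)
      refine ⟨1, μ, Or.inl one_ne_zero, ?_⟩
      rw [Polynomial.IsRoot, Matrix.eval_charpoly] at hμ
      have h1 : (1 : ℂ) • X + μ • Y = Y * (Matrix.scalar (Fin 3) μ - -(Y⁻¹ * X)) := by
        rw [sub_neg_eq_add, Matrix.mul_add, ← Matrix.mul_assoc,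
          Matrix.mul_nonsing_inv _ (isUnit_iff_ne_zero.2 hd), Matrix.one_mul, one_smul, add_comm]
        congr 1
        ext i j
        simp [Matrix.scalar_apply, mul_comm]
      rw [h1, det_mul, hμ, mul_zero]
  obtain ⟨a, c, hac, hdet⟩ := h
  set Z := a • X + c • Y with hZ
  have hZs : Z.IsSymm := by
    rw [hZ, IsSymm, transpose_add, transpose_smul, transpose_smul, hX.eq, hY.eq]
  obtain ⟨v, hv0, hv⟩ := (Matrix.exists_mulVec_eq_zero_iff).2 hdet
  obtain ⟨k, hk⟩ := Function.ne_iff.1 hv0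
  obtain ⟨w, hw0, hrw, hqw⟩ := lq (Pi.single k 1) Z
  have hwk : w k = 0 := by simpa using hrw
  have hiso : ∀ α β : ℂ, qf Z (α • v + β • w) = 0 := by
    intro α β
    rw [qf_lin, hqw]
    have h1 : qf Z v = 0 := by simp [qf, hv]
    have h2 : w ⬝ᵥ Z.mulVec v = 0 := by simp [hv]
    have h3 : v ⬝ᵥ Z.mulVec w = 0 := by
      rw [Matrix.dotProduct_mulVec, ← Matrix.mulVec_transpose, hZs.eq, hv]
      simp
    rw [h1, h2, h3]
    ring
  have hind : ∀ α β : ℂ, (α ≠ 0 ∨ β ≠ 0) → α • v + β • w ≠ 0 := by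
    intro α β hαβ h0
    have e := congrFun h0 k
    simp [hwk] at e
    have hα : α = 0 := e.resolve_right hk
    rcases hαβ with h | h
    · exact h hα
    · rw [hα, zero_smul, zero_add] at h0
      exact hw0 ((smul_eq_zero.1 h0).resolve_left h)
  have hsum : ∀ x, qf Z x = a * qf X x + c * qf Y x := by
    intro x
    simp [hZ, qf, dotProduct, mulVec, Fin.sum_univ_three]
    ring
  by_cases hc : c = 0
  · have ha : a ≠ 0 := hac.resolve_right (fun h => h hc)
    obtain ⟨α, β, hαβ, hq⟩ := bin v w Y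
    refine ⟨α • v + β • w, hind α β hαβ, ?_, hq⟩
    have h1 := hsum (α • v + β • w)
    rw [hiso, hq, mul_zero, add_zero] at h1
    exact (mul_eq_zero.1 h1.symm).resolve_left ha
  · obtain ⟨α, β, hαβ, hq⟩ := bin v w X
    refine ⟨α • v + β • w, hind α β hαβ, hq, ?_⟩
    have h1 := hsum (α • v + β • w)
    rw [hiso, hq, mul_zero, zero_add] at h1
    exact (mul_eq_zero.1 h1.symm).resolve_left hc

end Pool.Agent.K1H88.NC
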