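import Mathlib
import Pool.Agent.R38.NC.Sum

/-!
# Nets of conics: sums over lines with gaps
-/

set_option autoImplicit false

namespace Pool.Agent.K1H88.NC

open Finset

theorem roots3 (f : Polynomial ℤ) (hd : f.natDegree = 3) : ∃ a b c : ℂ, ∀ n : ℤ,
    ‖(n : ℂ) - a‖ * ‖(n : ℂ) - b‖ * ‖(n : ℂ) - c‖ ≤ ((f.eval n).natAbs : ℝ) := by
  set g := f.map (Int.castRingHom ℂ) with hg
  have hgd : g.natDegree = 3 := by
    rw [hg, Polynomial.natDegree_map_eq_of_injective (RingHom.injective_int _)]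
    exact hd
  have hs : g.Splits := IsAlgClosed.splits g
  have hcard : g.roots.card = 3 := by rw [← hs.natDegree_eq_card_roots, hgd]
  obtain ⟨a, b, c, habc⟩ := Multiset.card_eq_three.1 hcard
  have hprod := hs.eq_prod_roots
  rw [habc] at hprod
  have hlead : 1 ≤ ‖g.leadingCoeff‖ := by
    have h1 : g.leadingCoeff = ((f.leadingCoeff : ℤ) : ℂ) := by
      rw [hg, Polynomial.leadingCoeff_map_of_injective (RingHom.injective_int _)]
      rfl
    rw [h1, Complex.norm_intCast]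
    have h2 : f.leadingCoeff ≠ 0 := by
      rw [Polynomial.leadingCoeff_ne_zero]
      rintro rfl
      simp at hd
    have h3 : 1 ≤ |f.leadingCoeff| := Int.one_le_abs h2
    exact_mod_cast h3
  refine ⟨a, b, c, fun n => ?_⟩
  have h1 : ((f.eval n : ℤ) : ℂ) =
      g.leadingCoeff * (((n : ℂ) - a) * ((n : ℂ) - b) * ((n : ℂ) - c)) := by
    have h2 : ((f.eval n : ℤ) : ℂ) = g.eval (n : ℂ) := by
      rw [hg, Polynomial.eval_intCast_map]
      rfl
    have h3 : g.eval (n : ℂ) = (Polynomial.C g.leadingCoeff * (Multiset.map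
        (fun x => Polynomial.X - Polynomial.C x) {a, b, c}).prod).eval (n : ℂ) := by
      rw [← hprod]
    rw [h2, h3, Polynomial.eval_mul, Polynomial.eval_C]
    congr 1
    simp [Polynomial.eval_mul]
    ring
  have h3 : ((f.eval n).natAbs : ℝ) = ‖((f.eval n : ℤ) : ℂ)‖ := by
    rw [Complex.norm_intCast, Nat.cast_natAbs, Int.cast_abs]
  rw [h3, h1, norm_mul, norm_mul, norm_mul]
  have h4 : 0 ≤ ‖(n : ℂ) - a‖ * ‖(n : ℂ) - b‖ * ‖(n : ℂ) - c‖ := by positivity
  nlinarith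

theorem cube3' {F a b c G0 : ℝ} (hG0 : 0 < G0) (hF : G0 ^ 3 ≤ F) (h : a * b * c ≤ F) :
    1 / F ^ ((1 : ℝ) / 3) ≤ 1 / max G0 a + 1 / max G0 b + 1 / max G0 c := by
  have hF0 : 0 < F := lt_of_lt_of_le (by positivity) hF
  set G := F ^ ((1 : ℝ) / 3) with hG
  have hG3 : G ^ 3 = F := by
    rw [hG, ← Real.rpow_natCast, ← Real.rpow_mul hF0.le]
    norm_num
  have hGp : 0 < G := Real.rpow_pos_of_pos hF0 _
  have hG1 : G0 ≤ G := by
    by_contra hcon
    push Not at hcon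
    have : G ^ 3 < G0 ^ 3 := pow_lt_pow_left₀ hcon hGp.le (by norm_num)
    linarith
  have hex : a ≤ G ∨ b ≤ G ∨ c ≤ G := by
    by_contra hcon
    push Not at hcon
    obtain ⟨h1, h2, h3⟩ := hcon
    have h4 : G * G < a * b := mul_lt_mul'' h1 h2 (by linarith) (by linarith)
    have h5 : G * G * G < a * b * c := mul_lt_mul'' h4 h3 (by positivity) (by linarith)
    have h6 : G ^ 3 = G * G * G := by ring
    linarith
  have key : ∀ x, x ≤ G → 1 / G ≤ 1 / max G0 x := fun x hx =>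
    one_div_le_one_div_of_le (lt_of_lt_of_le hG0 (le_max_left _ _)) (max_le hG1 hx)
  have pos : ∀ x : ℝ, 0 ≤ 1 / max G0 x := fun x =>
    one_div_nonneg.2 (hG0.le.trans (le_max_left _ _))
  have pa := pos a
  have pb := pos b
  have pc := pos c
  rcases hex with h | h | h
  · have := key a h
    linarith
  · have := key b h
    linarith
  · have := key c h
    linarith

/-- the contribution of one root -/
theorem root1 (T w : ℕ) (hw : 1 ≤ w) (S : Finset ℤ) (hT : ∀ n ∈ S, |n| ≤ (T : ℤ))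
    (hS : ∀ n ∈ S, ∀ n' ∈ S, (w : ℤ) ∣ n - n') (G0 : ℝ) (hG0 : 0 < G0) (ρ : ℂ) :
    ∑ n ∈ S, 1 / max G0 ‖(n : ℂ) - ρ‖ ≤
      2 / G0 + 6 / w * (1 + Real.log ((2 * (2 * T) + 1 : ℕ) : ℝ)) := by
  classical
  have hwr : (1 : ℝ) ≤ w := by exact_mod_cast hw
  have hw0 : (w : ℤ) ≠ 0 := by positivity
  have hlog0 : 0 ≤ Real.log ((2 * (2 * T) + 1 : ℕ) : ℝ) := Real.log_natCast_nonneg _
  rcases S.eq_empty_or_nonempty with h0 | ⟨n0, hn0⟩
  · rw [h0, Finset.sum_empty]
    positivity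
  set φ : ℤ → ℤ := fun n => (n - n0) / w with hφ
  have hφe : ∀ n ∈ S, n = n0 + w * φ n := by
    intro n hn
    have := Int.mul_ediv_cancel' (hS n hn n0 hn0)
    simp only [hφ]
    linarith
  have hinj : Set.InjOn φ (S : Set ℤ) := by
    intro n hn n' hn' h
    rw [hφe n hn, hφe n' hn', h]
  set ρ' : ℂ := (ρ - n0) / w with hρ'
  have hwc : (w : ℂ) ≠ 0 := by exact_mod_cast (by omega : w ≠ 0)
  have hdist : ∀ n ∈ S, ‖(n : ℂ) - ρ‖ = w * ‖((φ n : ℤ) : ℂ) - ρ'‖ := by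
    intro n hn
    have h1 : (n : ℂ) - ρ = (w : ℂ) * (((φ n : ℤ) : ℂ) - ρ') := by
      have h2 : (n : ℂ) = n0 + w * (φ n : ℤ) := by
        have := hφe n hn
        exact_mod_cast this
      rw [hρ', mul_sub, mul_div_cancel₀ _ hwc, h2]
      ring
    rw [h1, norm_mul, Complex.norm_natCast]
  have hφT : ∀ n ∈ S, |φ n| ≤ ((2 * T : ℕ) : ℤ) := by
    intro n hn
    have h1 := hT n hn
    have h2 := hT n0 hn0
    have h3 : |(w : ℤ) * φ n| ≤ 2 * T := by
      have h4 : (w : ℤ) * φ n = n - n0 := by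
        have := hφe n hn
        linarith
      rw [h4]
      have := abs_sub n n0
      linarith
    rw [abs_mul, Nat.abs_cast] at h3
    have h5 : |φ n| ≤ (w : ℤ) * |φ n| := le_mul_of_one_le_left (abs_nonneg _) (by exact_mod_cast hw)
    push_cast
    linarith
  have hterm : ∀ n ∈ S, 1 / max G0 ‖(n : ℂ) - ρ‖ ≤
      1 / w * (1 / max 1 ‖((φ n : ℤ) : ℂ) - ρ'‖) +
        (if ‖((φ n : ℤ) : ℂ) - ρ'‖ < 1 then 1 / G0 else 0) := by
    intro n hn
    rw [hdist n hn]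
    set x := ‖((φ n : ℤ) : ℂ) - ρ'‖ with hx
    have hx0 : 0 ≤ x := norm_nonneg _
    by_cases h1 : x < 1
    · rw [if_pos h1]
      have h2 : 1 / max G0 (w * x) ≤ 1 / G0 := one_div_le_one_div_of_le hG0 (le_max_left _ _)
      have h3 : 0 ≤ 1 / (w : ℝ) * (1 / max 1 x) := by positivity
      linarith
    · rw [if_neg h1, add_zero]
      push Not at h1
      rw [max_eq_right h1, one_div_mul_one_div]
      exact one_div_le_one_div_of_le (by positivity) (le_max_right _ _)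
  have hfew : ((S.filter fun n => ‖((φ n : ℤ) : ℂ) - ρ'‖ < 1).card : ℝ) ≤ 2 := by
    have h1 : (S.filter fun n => ‖((φ n : ℤ) : ℂ) - ρ'‖ < 1).card ≤
        ({⌊ρ'.re⌋, ⌊ρ'.re⌋ + 1} : Finset ℤ).card := by
      apply Finset.card_le_card_of_injOn φ
      · intro n hn
        rw [Finset.mem_coe, Finset.mem_filter] at hn
        have h2 : |((φ n : ℤ) : ℝ) - ρ'.re| < 1 := by
          have h3 := Complex.abs_re_le_norm (((φ n : ℤ) : ℂ) - ρ')
          simp at h3
          exact lt_of_le_of_lt h3 hn.2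
        rw [abs_lt] at h2
        have h4 := Int.floor_le ρ'.re
        have h5 := Int.lt_floor_add_one ρ'.re
        have h6 : ⌊ρ'.re⌋ - 1 < φ n := by
          have : ((⌊ρ'.re⌋ - 1 : ℤ) : ℝ) < (φ n : ℤ) := by
            push_cast
            linarith
          exact_mod_cast this
        have h7 : φ n < ⌊ρ'.re⌋ + 2 := by
          have : ((φ n : ℤ) : ℝ) < ((⌊ρ'.re⌋ + 2 : ℤ) : ℝ) := by
            push_cast
            linarith
          exact_mod_cast this
        rw [Finset.coe_insert, Finset.coe_singleton, Set.mem_insert_iff, Set.mem_singleton_iff]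
        omega
      · exact hinj.mono (by
          intro n hn
          exact (Finset.mem_filter.1 hn).1)
    exact_mod_cast h1.trans Finset.card_le_two
  calc ∑ n ∈ S, 1 / max G0 ‖(n : ℂ) - ρ‖
      ≤ ∑ n ∈ S, (1 / w * (1 / max 1 ‖((φ n : ℤ) : ℂ) - ρ'‖) +
        (if ‖((φ n : ℤ) : ℂ) - ρ'‖ < 1 then 1 / G0 else 0)) := Finset.sum_le_sum hterm
    _ = 1 / w * (∑ n ∈ S, (1 / max 1 ‖((φ n : ℤ) : ℂ) - ρ'‖)) +
        ((S.filter fun n => ‖((φ n : ℤ) : ℂ) - ρ'‖ < 1).card : ℝ) * (1 / G0) := by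
        rw [Finset.sum_add_distrib, ← Finset.mul_sum, ← Finset.sum_filter, Finset.sum_const,
          nsmul_eq_mul]
    _ ≤ 1 / w * (6 * (1 + Real.log ((2 * (2 * T) + 1 : ℕ) : ℝ))) + 2 * (1 / G0) := by
        have h1 : ∑ n ∈ S, (1 / max 1 ‖((φ n : ℤ) : ℂ) - ρ'‖) ≤
            6 * (1 + Real.log ((2 * (2 * T) + 1 : ℕ) : ℝ)) := by
          have h2 : ∑ n ∈ S, (1 / max 1 ‖((φ n : ℤ) : ℂ) - ρ'‖) =
              ∑ m ∈ S.image φ, (1 / max 1 ‖((m : ℤ) : ℂ) - ρ'‖) := by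
            rw [Finset.sum_image hinj]
          rw [h2]
          refine le_trans ?_ (Pool.Agent.R38.NC.SumAux.line1 (2 * T) ρ')
          apply Finset.sum_le_sum_of_subset_of_nonneg
          · intro m hm
            obtain ⟨n, hn, rfl⟩ := Finset.mem_image.1 hm
            rw [Finset.mem_Icc, ← abs_le]
            exact hφT n hn
          · intro m _ _
            positivity
        have h3 : 0 ≤ 1 / G0 := by positivity
        gcongr
    _ = _ := by ring

/-- sums over a line with gaps -/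
theorem line' (f : Polynomial ℤ) (hd : f.natDegree = 3) (T w : ℕ) (hw : 1 ≤ w)
    (S : Finset ℤ) (hT : ∀ n ∈ S, |n| ≤ (T : ℤ))
    (hS : ∀ n ∈ S, ∀ n' ∈ S, (w : ℤ) ∣ n - n') (G0 : ℝ) (hG0 : 0 < G0)
    (hG : ∀ n ∈ S, G0 ^ 3 ≤ ((f.eval n).natAbs : ℝ)) :
    ∑ n ∈ S, 1 / (((f.eval n).natAbs : ℝ) ^ ((1 : ℝ) / 3)) ≤
      3 * (2 / G0 + 6 / w * (1 + Real.log ((2 * (2 * T) + 1 : ℕ) : ℝ))) := by
  obtain ⟨a, b, c, habc⟩ := roots3 f hd
  calc ∑ n ∈ S, 1 / (((f.eval n).natAbs : ℝ) ^ ((1 : ℝ) / 3))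
      ≤ ∑ n ∈ S, (1 / max G0 ‖(n : ℂ) - a‖ + 1 / max G0 ‖(n : ℂ) - b‖ +
          1 / max G0 ‖(n : ℂ) - c‖) :=
        Finset.sum_le_sum fun n hn => cube3' hG0 (hG n hn) (habc n)
    _ ≤ _ := by
        rw [Finset.sum_add_distrib, Finset.sum_add_distrib]
        have h1 := root1 T w hw S hT hS G0 hG0 a
        have h2 := root1 T w hw S hT hS G0 hG0 b
        have h3 := root1 T w hw S hT hS G0 hG0 c
        linarith

end Pool.Agent.K1H88.NC
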