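import Mathlib
import Pool.Agent.K1H88.NC.Alg

/-!
# Nets of conics: geometric consequences of smoothness
-/

set_option autoImplicit false

namespace Pool.Agent.K1H88.NC

open Matrix
open Pool.Agent.R38.NC (gm qf cq Smooth)

variable {R : Type*} [CommRing R]

/-- the three conics have no common zero -/
def Bpf (M : Fin 3 → Matrix (Fin 3) (Fin 3) ℤ) : Prop :=
  ∀ x : Fin 3 → ℂ, x ≠ 0 → ∃ i, cq M x i ≠ 0

theorem gm_add (M : Fin 3 → Matrix (Fin 3) (Fin 3) ℤ) (t s : Fin 3 → R) :
    gm M (t + s) = gm M t + gm M s := by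
  ext i j
  simp [gm, add_mul, Finset.sum_add_distrib]

theorem gm_smul (M : Fin 3 → Matrix (Fin 3) (Fin 3) ℤ) (a : R) (t : Fin 3 → R) :
    gm M (a • t) = a • gm M t := by
  ext i j
  simp [gm, Finset.mul_sum, mul_assoc]

theorem gm_zero (M : Fin 3 → Matrix (Fin 3) (Fin 3) ℤ) : gm M (0 : Fin 3 → R) = 0 := by
  ext i j
  simp [gm]

theorem gm_symm {M : Fin 3 → Matrix (Fin 3) (Fin 3) ℤ} (hM : ∀ i, (M i).IsSymm)
    (t : Fin 3 → R) : (gm M t).IsSymm := by
  ext i j
  simp only [gm, Matrix.transpose_apply]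
  refine Finset.sum_congr rfl fun k _ => ?_
  rw [(hM k).apply]

theorem qf_gm (M : Fin 3 → Matrix (Fin 3) (Fin 3) ℤ) (t x : Fin 3 → R) :
    qf (gm M t) x = t ⬝ᵥ cq M x := by
  simp [qf, cq, gm, dotProduct, mulVec, Fin.sum_univ_three]
  ring

theorem bpf_of_smooth {M : Fin 3 → Matrix (Fin 3) (Fin 3) ℤ} (hS : Smooth M) : Bpf M := by
  intro x hx
  by_contra hcon
  push Not at hcon
  set N : Matrix (Fin 3) (Fin 3) ℂ :=
    fun i j => ((M i).map (Int.castRingHom ℂ)).mulVec x j with hN
  have h1 : N.mulVec x = 0 := by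
    funext i
    have := hcon i
    simp only [cq, qf] at this
    rw [mulVec, dotProduct_comm]
    exact this
  have h2 : N.det = 0 := (Matrix.exists_mulVec_eq_zero_iff).1 ⟨x, hx, h1⟩
  obtain ⟨t, ht0, ht⟩ := (Matrix.exists_vecMul_eq_zero_iff).2 h2
  have h3 : (gm M t).mulVec x = 0 := by
    rw [← ht]
    funext j
    simp [gm, hN, mulVec, vecMul, dotProduct, Fin.sum_univ_three]
    ring
  rcases hS t x ht0 hx (by rw [qf_gm, show cq M x = 0 from funext hcon, dotProduct_zero]) with
    h | h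
  · obtain ⟨i, hi⟩ := h
    exact hi (hcon i)
  · obtain ⟨j, hj⟩ := h
    exact hj (by rw [h3]; rfl)

theorem cq_zero_of_three (M : Fin 3 → Matrix (Fin 3) (Fin 3) ℤ) (t s r x : Fin 3 → ℂ)
    (hd : (Matrix.of ![t, s, r]).det ≠ 0) (h1 : qf (gm M t) x = 0) (h2 : qf (gm M s) x = 0)
    (h3 : qf (gm M r) x = 0) : ∀ i, cq M x i = 0 := by
  have h : (Matrix.of ![t, s, r]).mulVec (cq M x) = 0 := by
    funext i
    rw [qf_gm] at h1 h2 h3
    fin_cases i
    · exact h1
    · exact h2
    · exact h3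
  have h4 := Matrix.eq_zero_of_mulVec_eq_zero hd h
  intro i
  rw [h4]
  rfl

theorem exists_third (t s : Fin 3 → ℂ) (h : cr t s ≠ 0) :
    ∃ r : Fin 3 → ℂ, (Matrix.of ![t, s, r]).det ≠ 0 := by
  obtain ⟨k, hk⟩ := Function.ne_iff.1 h
  refine ⟨Pi.single k 1, ?_⟩
  have h1 : (Matrix.of ![t, s, Pi.single k 1]).det = cr t s k := by
    fin_cases k <;> simp [det_fin_three, cr] <;> ring
  rw [h1]
  exact hk

/-- the form of a symmetric matrix of rank one -/
theorem rk_form (X : Matrix (Fin 3) (Fin 3) ℂ) (hX : X.IsSymm) (h : X.adjugate = 0)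
    (h0 : X ≠ 0) : ∃ j, X j j ≠ 0 ∧ (X j j) • X = vecMulVec (X j) (X j) := by
  obtain ⟨j, hj, hk⟩ := rk1 (⊥ : Ideal ℂ) X hX (by rw [h]; intro i j; simp) (by
    by_contra hcon
    push Not at hcon
    apply h0
    ext i j
    simpa using hcon i j)
  refine ⟨j, by simpa using hj, ?_⟩
  ext k l
  have := hk k l
  rw [Ideal.mem_bot] at this
  simp only [Matrix.smul_apply, vecMulVec_apply, smul_eq_mul]
  linear_combination this

theorem rk_qf {X : Matrix (Fin 3) (Fin 3) ℂ} {j : Fin 3} (hj : X j j ≠ 0)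
    (h : (X j j) • X = vecMulVec (X j) (X j)) (x : Fin 3 → ℂ) (hx : X j ⬝ᵥ x = 0) :
    qf X x = 0 := by
  have h1 : X j j * qf X x = (X j ⬝ᵥ x) ^ 2 := by
    have h2 : X j j * qf X x = qf (X j j • X) x := by
      simp only [qf, dotProduct, mulVec, Fin.sum_univ_three, Matrix.smul_apply, smul_eq_mul]
      ring
    rw [h2, h]
    simp only [qf, dotProduct, mulVec, Fin.sum_univ_three, vecMulVec_apply]
    ring
  rw [hx] at h1
  have h3 : X j j * qf X x = 0 := by rw [h1]; ring
  exact (mul_eq_zero.1 h3).resolve_left hj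

theorem qf_smul' (a : ℂ) (X : Matrix (Fin 3) (Fin 3) ℂ) (x : Fin 3 → ℂ) :
    qf (a • X) x = a * qf X x := by
  simp only [qf, dotProduct, mulVec, Fin.sum_univ_three, Matrix.smul_apply, smul_eq_mul]
  ring

/-- the rank one locus is reduced -/
theorem r1_ {M : Fin 3 → Matrix (Fin 3) (Fin 3) ℤ} (hM : ∀ i, (M i).IsSymm) (hb : Bpf M)
    (t s : Fin 3 → ℂ) (h1 : (gm M t).adjugate = 0) (h2 : bm (gm M t) (gm M s) = 0) :
    cr t s = 0 := by
  by_contra hcr
  obtain ⟨r, hr⟩ := exists_third t s hcr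
  have fin : ∀ x : Fin 3 → ℂ, x ≠ 0 → qf (gm M t) x = 0 → qf (gm M s) x = 0 →
      qf (gm M r) x = 0 → False := by
    intro x hx e1 e2 e3
    obtain ⟨i, hi⟩ := hb x hx
    exact hi (cq_zero_of_three M t s r x hr e1 e2 e3 i)
  by_cases hX : gm M t = 0
  · obtain ⟨x, hx, e2, e3⟩ := bz (gm M s) (gm M r) (gm_symm hM s) (gm_symm hM r)
    refine fin x hx ?_ e2 e3
    rw [hX]
    simp [qf]
  · obtain ⟨j, hj, hf⟩ := rk_form _ (gm_symm hM t) h1 hX
    obtain ⟨x, hx, e1, e3⟩ := lq (gm M t j) (gm M r)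
    have e0 := rk_qf hj hf x e1
    refine fin x hx e0 ?_ e3
    have e4 := mixid (gm M t) (gm M s) (gm_symm hM t) (gm_symm hM s) x j
    rw [h2, e0] at e4
    have e5 : (gm M t).mulVec x j = 0 := e1
    rw [e5] at e4
    have e6 : qf (0 : Matrix (Fin 3) (Fin 3) ℂ) (cr x (Pi.single j 1)) = 0 := by simp [qf]
    rw [e6] at e4
    have e7 : qf (gm M s) x * gm M t j j = 0 := by linear_combination -e4
    exact (mul_eq_zero.1 e7).resolve_right hj

theorem cr_smul_left (a : R) (t s : Fin 3 → R) : cr (a • t) s = a • cr t s := by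
  funext i
  fin_cases i <;> simp [cr] <;> ring

theorem cr_self (t : Fin 3 → R) : cr t t = 0 := by
  funext i
  fin_cases i <;> simp [cr] <;> ring

theorem cr_comm (t s : Fin 3 → R) : cr t s = - cr s t := by
  funext i
  fin_cases i <;> simp [cr] <;> ring

theorem cr_zero (t : Fin 3 → R) : cr t 0 = 0 := by
  funext i
  fin_cases i <;> simp [cr]

theorem rel2 (t s : Fin 3 → ℂ) (a b : ℂ) (h : a • t + b • s = 0) (hcr : cr t s ≠ 0) :
    a = 0 ∧ b = 0 := by
  have h1 : a • t = (-b) • s := by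
    rw [neg_smul]
    exact eq_neg_of_add_eq_zero_left h
  have ha : a = 0 := by
    by_contra ha
    apply hcr
    have h2 : a • cr t s = 0 := by
      rw [← cr_smul_left, h1, cr_smul_left, cr_self, smul_zero]
    exact (smul_eq_zero.1 h2).resolve_left ha
  refine ⟨ha, ?_⟩
  rw [ha, zero_smul, zero_add] at h
  rcases smul_eq_zero.1 h with h | h
  · exact h
  · exact absurd (by rw [h, cr_zero]) hcr

/-- at most three points of the rank one locus -/
theorem r2_ {M : Fin 3 → Matrix (Fin 3) (Fin 3) ℤ} (hM : ∀ i, (M i).IsSymm) (hb : Bpf M)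
    (t : Fin 4 → Fin 3 → ℂ) (h : ∀ a, (gm M (t a)).adjugate = 0) :
    ∃ a b, a < b ∧ cr (t a) (t b) = 0 := by
  by_contra hcon
  push Not at hcon
  have hbm : ∀ a b, a < b → bm (gm M (t a)) (gm M (t b)) ≠ 0 := fun a b hab h0 =>
    hcon a b hab (r1_ hM hb _ _ (h a) h0)
  have hne : ∀ a b, a < b → ∀ x y : ℂ, x • t a + y • t b = 0 → x = 0 ∧ y = 0 :=
    fun a b hab x y hxy => rel2 _ _ x y hxy (hcon a b hab)
  by_cases hdet : (Matrix.of ![t 0, t 1, t 2]).det = 0
  · obtain ⟨c, hc0, hc⟩ := (Matrix.exists_vecMul_eq_zero_iff).2 hdet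
    have hc' : c 0 • t 0 + c 1 • t 1 + c 2 • t 2 = 0 := by
      rw [← hc]
      funext j
      simp [vecMul, dotProduct, Fin.sum_univ_three]
    have h1 : (c 1 * c 2) • bm (gm M (t 1)) (gm M (t 2)) = 0 := by
      have h2 : (c 1 • gm M (t 1) + c 2 • gm M (t 2)).adjugate = 0 := by
        have h3 : c 1 • gm M (t 1) + c 2 • gm M (t 2) = (-c 0) • gm M (t 0) := by
          rw [← gm_smul, ← gm_smul, ← gm_add, ← gm_smul]
          congr 1
          rw [neg_smul, eq_neg_iff_add_eq_zero, ← hc']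
          abel
        rw [h3, adjugate_smul, h 0, smul_zero]
      rw [adj_comb, h 1, h 2, smul_zero, smul_zero, zero_add, add_zero] at h2
      exact h2
    rcases smul_eq_zero.1 h1 with h2 | h2
    · rcases mul_eq_zero.1 h2 with h3 | h3
      · rw [h3, zero_smul, add_zero] at hc'
        obtain ⟨e0, e2⟩ := hne 0 2 (by decide) _ _ hc'
        apply hc0
        funext i
        fin_cases i
        · exact e0
        · exact h3
        · exact e2
      · rw [h3, zero_smul, add_zero] at hc'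
        obtain ⟨e0, e2⟩ := hne 0 1 (by decide) _ _ hc'
        apply hc0
        funext i
        fin_cases i
        · exact e0
        · exact e2
        · exact h3
    · exact hbm 1 2 (by decide) h2
  · -- the fourth point in terms of the first three
    set W := Matrix.of ![t 0, t 1, t 2] with hW
    set u := (t 3) ᵥ* W⁻¹ with hu
    have ht3 : t 3 = u 0 • t 0 + u 1 • t 1 + u 2 • t 2 := by
      have h1 : u ᵥ* W = t 3 := by
        rw [hu, Matrix.vecMul_vecMul, Matrix.nonsing_inv_mul _ (isUnit_iff_ne_zero.2 hdet),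
          Matrix.vecMul_one]
      rw [← h1]
      funext j
      simp [vecMul, dotProduct, Fin.sum_univ_three, hW]
    clear_value u
    have hrel : (u 0 * u 1) • bm (gm M (t 0)) (gm M (t 1)) +
        (u 0 * u 2) • bm (gm M (t 0)) (gm M (t 2)) +
        (u 1 * u 2) • bm (gm M (t 1)) (gm M (t 2)) = 0 := by
      rw [← adj_comb3 _ _ _ _ _ _ (h 0) (h 1) (h 2), ← gm_smul, ← gm_smul, ← gm_smul, ← gm_add,
        ← gm_add, ← ht3]
      exact h 3
    have hu0 : u 0 ≠ 0 := by
      intro h0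
      rw [h0, zero_mul, zero_mul, zero_smul, zero_smul, zero_add, zero_add] at hrel
      rcases smul_eq_zero.1 hrel with h1 | h1
      · rcases mul_eq_zero.1 h1 with h2 | h2
        · have h3 : u 2 • t 2 + (-1 : ℂ) • t 3 = 0 := by
            rw [ht3, h0, h2]
            simp
          have := (hne 2 3 (by decide) _ _ h3).2
          norm_num at this
        · have h3 : u 1 • t 1 + (-1 : ℂ) • t 3 = 0 := by
            rw [ht3, h0, h2]
            simp
          have := (hne 1 3 (by decide) _ _ h3).2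
          norm_num at this
      · exact hbm 1 2 (by decide) h1
    have hu1 : u 1 ≠ 0 := by
      intro h0
      rw [h0, mul_zero, zero_mul, zero_smul, zero_smul, zero_add, add_zero] at hrel
      rcases smul_eq_zero.1 hrel with h1 | h1
      · rcases mul_eq_zero.1 h1 with h2 | h2
        · exact hu0 h2
        · have h3 : u 0 • t 0 + (-1 : ℂ) • t 3 = 0 := by
            rw [ht3, h0, h2]
            simp
          have := (hne 0 3 (by decide) _ _ h3).2
          norm_num at this
      · exact hbm 0 2 (by decide) h1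
    have hu2 : u 2 ≠ 0 := by
      intro h0
      rw [h0, mul_zero, mul_zero, zero_smul, zero_smul, add_zero, add_zero] at hrel
      rcases smul_eq_zero.1 hrel with h1 | h1
      · exact (mul_ne_zero hu0 hu1) h1
      · exact hbm 0 1 (by decide) h1
    have hX : ∀ a b, a < b → gm M (t a) ≠ 0 ∧ gm M (t b) ≠ 0 := by
      intro a b hab
      constructor
      · intro h0
        apply hbm a b hab
        unfold bm
        rw [h0, zero_add]
        simp
      · intro h0
        apply hbm a b hab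
        unfold bm
        rw [h0, add_zero]
        simp
    obtain ⟨j0, hj0, hf0⟩ := rk_form _ (gm_symm hM (t 0)) (h 0) (hX 0 1 (by decide)).1
    obtain ⟨j1, hj1, hf1⟩ := rk_form _ (gm_symm hM (t 1)) (h 1) (hX 0 1 (by decide)).2
    obtain ⟨j2, hj2, hf2⟩ := rk_form _ (gm_symm hM (t 2)) (h 2) (hX 0 2 (by decide)).2
    set r0 := gm M (t 0) j0 with hr0
    set r1 := gm M (t 1) j1 with hr1
    set r2 := gm M (t 2) j2 with hr2
    by_cases hR : (Matrix.of ![r0, r1, r2]).det = 0
    · obtain ⟨x, hx0, hx⟩ := (Matrix.exists_mulVec_eq_zero_iff).2 hR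
      have e0 := rk_qf hj0 hf0 x (congrFun hx 0)
      have e1 := rk_qf hj1 hf1 x (congrFun hx 1)
      have e2 := rk_qf hj2 hf2 x (congrFun hx 2)
      obtain ⟨i, hi⟩ := hb x hx0
      exact hi (cq_zero_of_three M _ _ _ x hdet e0 e1 e2 i)
    · have key : ∀ a b : Fin 4, ∀ ja jb : Fin 3,
          (gm M (t a) ja ja) • gm M (t a) = vecMulVec (gm M (t a) ja) (gm M (t a) ja) →
          (gm M (t b) jb jb) • gm M (t b) = vecMulVec (gm M (t b) jb) (gm M (t b) jb) →
          ∀ y, (gm M (t a) ja ja * gm M (t b) jb jb) * qf (bm (gm M (t a)) (gm M (t b))) y =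
            (y ⬝ᵥ cr (gm M (t a) ja) (gm M (t b) jb)) ^ 2 := by
        intro a b ja jb ha hb' y
        rw [← bm_vec, ← ha, ← hb', bm_smul, qf_smul']
      have hrel2 : u 0 * u 1 * qf (bm (gm M (t 0)) (gm M (t 1))) r0 +
          u 0 * u 2 * qf (bm (gm M (t 0)) (gm M (t 2))) r0 +
          u 1 * u 2 * qf (bm (gm M (t 1)) (gm M (t 2))) r0 = 0 := by
        have h1 := congrArg (fun Z => qf Z r0) hrel
        have h2 : ∀ A B : Matrix (Fin 3) (Fin 3) ℂ, ∀ x, qf (A + B) x = qf A x + qf B x := by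
          intro A B x
          simp only [qf, dotProduct, mulVec, Fin.sum_univ_three, Matrix.add_apply]
          ring
        simp only [h2, qf_smul'] at h1
        rw [h1]
        simp [qf]
      have k01 := key 0 1 j0 j1 hf0 hf1 r0
      have k02 := key 0 2 j0 j2 hf0 hf2 r0
      have k12 := key 1 2 j1 j2 hf1 hf2 r0
      rw [← hr0, ← hr1] at k01
      rw [← hr0, ← hr2] at k02
      rw [← hr1, ← hr2] at k12
      have z : ∀ s : Fin 3 → ℂ, r0 ⬝ᵥ cr r0 s = 0 := by
        intro s
        simp [cr, dotProduct, Fin.sum_univ_three]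
        ring
      rw [z, zero_pow two_ne_zero] at k01 k02
      have z01 := (mul_eq_zero.1 k01).resolve_left (mul_ne_zero hj0 hj1)
      have z02 := (mul_eq_zero.1 k02).resolve_left (mul_ne_zero hj0 hj2)
      rw [z01, z02, mul_zero, mul_zero, zero_add, zero_add] at hrel2
      have z12 := (mul_eq_zero.1 hrel2).resolve_left (mul_ne_zero hu1 hu2)
      rw [z12, mul_zero] at k12
      have hdz : r0 ⬝ᵥ cr r1 r2 = 0 := (pow_eq_zero_iff two_ne_zero).1 k12.symm
      apply hR
      rw [← hdz]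
      simp [det_fin_three, cr, dotProduct, Fin.sum_univ_three]
      ring

end Pool.Agent.K1H88.NC
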