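import Mathlib
import Pool.Agent.K1H88.NC.Geo

/-!
# Nets of conics: common divisors
-/

set_option autoImplicit false

namespace Pool.Agent.K1H88.NC

open Matrix
open Pool.Agent.R38.NC (gm qf cq Smooth Prim)

variable {R S : Type*} [CommRing R] [CommRing S]

theorem map_gm (φ : R →+* S) (M : Fin 3 → Matrix (Fin 3) (Fin 3) ℤ) (v : Fin 3 → R) :
    φ.mapMatrix (gm M v) = gm M (fun i => φ (v i)) := by
  ext i j
  simp [gm, RingHom.mapMatrix_apply]

theorem map_adj (φ : R →+* S) (M : Fin 3 → Matrix (Fin 3) (Fin 3) ℤ) (v : Fin 3 → R)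
    (i j : Fin 3) :
    φ ((gm M v).adjugate i j) = (gm M (fun i => φ (v i))).adjugate i j := by
  rw [← map_gm, ← RingHom.map_adjugate]
  rfl

theorem map_dt (φ : R →+* S) (M : Fin 3 → Matrix (Fin 3) (Fin 3) ℤ) (v : Fin 3 → R) :
    φ ((gm M v).det) = (gm M (fun i => φ (v i))).det := by
  rw [← map_gm, ← RingHom.map_det]

theorem map_bm (φ : R →+* S) (M : Fin 3 → Matrix (Fin 3) (Fin 3) ℤ) (v w : Fin 3 → R)
    (i j : Fin 3) :
    φ (bm (gm M v) (gm M w) i j) =
      bm (gm M (fun i => φ (v i))) (gm M (fun i => φ (w i))) i j := by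
  have h : (fun i => φ ((v + w) i)) = (fun i => φ (v i)) + (fun i => φ (w i)) := by
    funext k
    simp
  unfold bm
  simp only [Matrix.sub_apply, map_sub]
  rw [← gm_add, map_adj, map_adj, map_adj, h, gm_add]

theorem map_cr (φ : R →+* S) (v w : Fin 3 → R) (k : Fin 3) :
    φ (cr v w k) = cr (fun i => φ (v i)) (fun i => φ (w i)) k := by
  fin_cases k <;> simp [cr]

theorem map_cq (φ : R →+* S) (M : Fin 3 → Matrix (Fin 3) (Fin 3) ℤ) (v : Fin 3 → R)
    (i : Fin 3) : φ (cq M v i) = cq M (fun i => φ (v i)) i := by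
  simp [cq, qf, dotProduct, mulVec, Fin.sum_univ_three]

/-- the discriminant is not identically zero -/
theorem ex_det {M : Fin 3 → Matrix (Fin 3) (Fin 3) ℤ} (hM : ∀ i, (M i).IsSymm) (hb : Bpf M) :
    ∃ t : Fin 3 → ℤ, (gm M t).det ≠ 0 := by
  by_contra hcon
  push Not at hcon
  have hP : (gm M (fun i => (MvPolynomial.X i : MvPolynomial (Fin 3) ℤ))).det = 0 := by
    apply MvPolynomial.funext
    intro x
    rw [map_dt, map_zero]
    simpa using hcon x
  have hC : ∀ t : Fin 3 → ℂ, (gm M t).det = 0 := by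
    intro t
    have h1 := congrArg (MvPolynomial.aeval t : MvPolynomial (Fin 3) ℤ →ₐ[ℤ] ℂ).toRingHom hP
    rw [map_dt, map_zero] at h1
    simpa using h1
  have hexp : ∀ X Y : Matrix (Fin 3) (Fin 3) ℂ, (X + Y).det + (X - Y).det - 2 * X.det =
      2 * ∑ a, ∑ b, Y.adjugate a b * X b a := by
    intro X Y
    simp only [Fin.sum_univ_three]
    rw [adjugate_fin_three]
    simp [det_fin_three]
    ring
  have hadj : ∀ t s : Fin 3 → ℂ, ∑ a, ∑ b, (gm M t).adjugate a b * (gm M s) b a = 0 := by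
    intro t s
    have h1 := hexp (gm M s) (gm M t)
    have h2 : gm M s - gm M t = gm M (s + (-1 : ℂ) • t) := by
      rw [gm_add, gm_smul, neg_one_smul, sub_eq_add_neg]
    rw [← gm_add, h2, hC, hC, hC] at h1
    have h3 : (2 : ℂ) * ∑ a, ∑ b, (gm M t).adjugate a b * (gm M s) b a = 0 := by
      rw [← h1]
      ring
    exact (mul_eq_zero.1 h3).resolve_left two_ne_zero
  by_cases hall : ∀ t : Fin 3 → ℂ, (gm M t).adjugate = 0
  · have h1 : bm (gm M (Pi.single 0 1 : Fin 3 → ℂ)) (gm M (Pi.single 1 1 : Fin 3 → ℂ)) = 0 := by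
      unfold bm
      rw [← gm_add, hall, hall, hall]
      simp
    have h2 := congrFun (r1_ hM hb _ _ (hall _) h1) 2
    simp [cr] at h2
  · push Not at hall
    obtain ⟨t, ht⟩ := hall
    have hs : (gm M t).adjugate.IsSymm := (gm_symm hM t).adjugate
    have h2 : (gm M t).adjugate.adjugate = 0 := by
      rw [adjugate_adjugate _ (by simp), hC]
      simp
    obtain ⟨j, hj, hf⟩ := rk_form _ hs h2 ht
    set A := (gm M t).adjugate with hA
    have hne : A j ≠ 0 := fun h => hj (by rw [h]; rfl)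
    obtain ⟨i, hi⟩ := hb (A j) hne
    apply hi
    have h3 := hadj t (Pi.single i 1)
    have h4 : gm M (Pi.single i 1 : Fin 3 → ℂ) = (M i).map (Int.castRingHom ℂ) := by
      ext a b
      simp [gm, Pi.single_apply, Matrix.map_apply]
    rw [h4, ← hA] at h3
    have h5 : cq M (A j) i = A j j * ∑ a, ∑ b, A a b * ((M i).map (Int.castRingHom ℂ)) b a := by
      have h6 : ∀ a b, A j j * A a b = A j a * A j b := by
        intro a b
        have := congrFun (congrFun hf a) b
        simpa [vecMulVec_apply] using this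
      simp only [cq, qf, dotProduct, mulVec, Finset.mul_sum]
      refine Finset.sum_congr rfl fun a _ => Finset.sum_congr rfl fun b _ => ?_
      rw [← mul_assoc (A j j), h6 a b]
      simp only [Matrix.map_apply]
      rw [(hM i).apply]
      ring
    rw [h5, h3, mul_zero]

/-- the open set is not empty -/
theorem ex_point {M : Fin 3 → Matrix (Fin 3) (Fin 3) ℤ} (hM : ∀ i, (M i).IsSymm) (hb : Bpf M) :
    ∃ t x : Fin 3 → ℂ, t ≠ 0 ∧ x ≠ 0 ∧ qf (gm M t) x = 0 ∧ (gm M t).det ≠ 0 := by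
  obtain ⟨t, ht⟩ := ex_det hM hb
  have h1 : (gm M (fun i => ((t i : ℤ) : ℂ))).det ≠ 0 := by
    have h2 := map_dt (Int.castRingHom ℂ) M t
    simp only [eq_intCast] at h2
    rw [← h2]
    exact_mod_cast ht
  obtain ⟨x, hx, -, hq⟩ := lq 0 (gm M (fun i => ((t i : ℤ) : ℂ)))
  refine ⟨_, x, ?_, hx, hq, h1⟩
  intro h0
  apply h1
  rw [h0, gm_zero]
  simp

/-- common divisors of the values of the three quadratic forms -/
theorem nstC {M : Fin 3 → Matrix (Fin 3) (Fin 3) ℤ} (hb : Bpf M) :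
    ∃ K : ℕ, 1 ≤ K ∧ ∀ x : Fin 3 → ℤ, Prim x → ∀ d : ℤ, (∀ i, d ∣ cq M x i) → d ∣ (K : ℤ) := by
  have h : ∀ k : Fin 3, ∃ K N : ℕ, 1 ≤ K ∧ ∀ (x : Fin 3 → ℤ) (d : ℤ),
      (∀ i, d ∣ cq M x i) → d ∣ (K : ℤ) * x k ^ N := by
    intro k
    obtain ⟨K, N, hK, hn⟩ := nst (fun i => cq M (fun i => MvPolynomial.X i) i)
      (MvPolynomial.X k : MvPolynomial (Fin 3) ℤ) (by
        intro x hx
        rw [MvPolynomial.aeval_X]
        by_contra hk
        have hx0 : x ≠ 0 := fun h => hk (by rw [h]; rfl)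
        obtain ⟨i, hi⟩ := hb x hx0
        apply hi
        have h1 := hx i
        have h2 := map_cq (MvPolynomial.aeval x : MvPolynomial (Fin 3) ℤ →ₐ[ℤ] ℂ).toRingHom M
          (fun i => MvPolynomial.X i) i
        simp at h2
        rw [← h2]
        exact h1)
    refine ⟨K, N, hK, fun x d hd => ?_⟩
    have h3 := hn x d (fun i => by
      have h2 := map_cq (MvPolynomial.eval x) M (fun i => MvPolynomial.X i) i
      rw [h2]
      simpa using hd i)
    simpa using h3
  choose K N hK hn using h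
  refine ⟨∏ k, K k, Nat.one_le_iff_ne_zero.2 (Finset.prod_pos fun k _ => hK k).ne', ?_⟩
  intro x hx d hd
  apply dvd_of_pow x hx _ d N
  intro k
  refine (hn k x d hd).trans (mul_dvd_mul ?_ dvd_rfl)
  exact_mod_cast Finset.dvd_prod_of_mem K (Finset.mem_univ k)

/-- common divisors at the rank one locus -/
theorem nst1 {M : Fin 3 → Matrix (Fin 3) (Fin 3) ℤ} (hM : ∀ i, (M i).IsSymm) (hb : Bpf M) :
    ∃ (K : ℕ) (N : Fin 3 → ℕ), 1 ≤ K ∧ ∀ (t s : Fin 3 → ℤ) (d : ℤ),
      (∀ i j, d ∣ (gm M t).adjugate i j) → (∀ i j, d ∣ bm (gm M t) (gm M s) i j) →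
      ∀ k, d ∣ (K : ℤ) * cr t s k ^ N k := by
  have h : ∀ k : Fin 3, ∃ K N : ℕ, 1 ≤ K ∧ ∀ (t s : Fin 3 → ℤ) (d : ℤ),
      (∀ i j, d ∣ (gm M t).adjugate i j) → (∀ i j, d ∣ bm (gm M t) (gm M s) i j) →
      d ∣ (K : ℤ) * cr t s k ^ N := by
    intro k
    set T : Fin 3 → MvPolynomial (Fin 3 ⊕ Fin 3) ℤ := fun i => MvPolynomial.X (Sum.inl i) with hT
    set S' : Fin 3 → MvPolynomial (Fin 3 ⊕ Fin 3) ℤ := fun i => MvPolynomial.X (Sum.inr i)
      with hS
    obtain ⟨K, N, hK, hn⟩ := nst (ι := (Fin 3 × Fin 3) ⊕ (Fin 3 × Fin 3))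
      (Sum.elim (fun p => (gm M T).adjugate p.1 p.2) (fun p => bm (gm M T) (gm M S') p.1 p.2))
      (cr T S' k) (by
        intro x hx
        have h1 : (gm M (fun i => x (Sum.inl i))).adjugate = 0 := by
          ext i j
          have h2 := hx (Sum.inl (i, j))
          have h3 := map_adj
            (MvPolynomial.aeval x : MvPolynomial (Fin 3 ⊕ Fin 3) ℤ →ₐ[ℤ] ℂ).toRingHom M T i j
          simp [hT] at h3
          simp only [Sum.elim_inl, hT] at h2
          rw [← h3]
          exact h2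
        have h2 : bm (gm M (fun i => x (Sum.inl i))) (gm M (fun i => x (Sum.inr i))) = 0 := by
          ext i j
          have h2 := hx (Sum.inr (i, j))
          have h3 := map_bm
            (MvPolynomial.aeval x : MvPolynomial (Fin 3 ⊕ Fin 3) ℤ →ₐ[ℤ] ℂ).toRingHom M T S' i j
          simp [hT, hS] at h3
          simp only [Sum.elim_inr, hT, hS] at h2
          rw [← h3]
          exact h2
        have h3 := congrFun (r1_ hM hb _ _ h1 h2) k
        have h4 := map_cr
          (MvPolynomial.aeval x : MvPolynomial (Fin 3 ⊕ Fin 3) ℤ →ₐ[ℤ] ℂ).toRingHom T S' k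
        simp [hT, hS] at h4
        simp only [hT, hS]
        rw [h4]
        exact h3)
    refine ⟨K, N, hK, fun t s d h1 h2 => ?_⟩
    have h3 := hn (Sum.elim t s) d (by
      rintro (⟨i, j⟩ | ⟨i, j⟩)
      · rw [Sum.elim_inl, map_adj]
        simpa [hT] using h1 i j
      · rw [Sum.elim_inr, map_bm]
        simpa [hT, hS] using h2 i j)
    rw [map_cr] at h3
    simpa [hT, hS] using h3
  choose K N hK hn using h
  refine ⟨∏ k, K k, N, Nat.one_le_iff_ne_zero.2 (Finset.prod_pos fun k _ => hK k).ne', ?_⟩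
  intro t s d h1 h2 k
  refine (hn k t s d h1 h2).trans (mul_dvd_mul ?_ dvd_rfl)
  exact_mod_cast Finset.dvd_prod_of_mem K (Finset.mem_univ k)

/-- the pairs of indices -/
abbrev Pr : Type := {p : Fin 4 × Fin 4 // p.1 < p.2}

/-- common divisors for four points of the rank one locus -/
theorem nst2 {M : Fin 3 → Matrix (Fin 3) (Fin 3) ℤ} (hM : ∀ i, (M i).IsSymm) (hb : Bpf M) :
    ∃ (K : ℕ), 1 ≤ K ∧ ∀ (p : ℕ), p.Prime → ¬ p ∣ K → ∀ t : Fin 4 → Fin 3 → ℤ,
      (∀ a i j, (p : ℤ) ∣ (gm M (t a)).adjugate i j) →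
      ∃ a b, a < b ∧ ∀ k, (p : ℤ) ∣ cr (t a) (t b) k := by
  have h : ∀ κ : Pr → Fin 3, ∃ K N : ℕ, 1 ≤ K ∧ ∀ (t : Fin 4 → Fin 3 → ℤ) (d : ℤ),
      (∀ a i j, d ∣ (gm M (t a)).adjugate i j) →
      d ∣ (K : ℤ) * (∏ q : Pr, cr (t q.1.1) (t q.1.2) (κ q)) ^ N := by
    intro κ
    set T : Fin 4 → Fin 3 → MvPolynomial (Fin 4 × Fin 3) ℤ := fun a i => MvPolynomial.X (a, i)
      with hT
    obtain ⟨K, N, hK, hn⟩ := nst (ι := Fin 4 × Fin 3 × Fin 3)
      (fun p => (gm M (T p.1)).adjugate p.2.1 p.2.2)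
      (∏ q : Pr, cr (T q.1.1) (T q.1.2) (κ q)) (by
        intro x hx
        have h1 : ∀ a, (gm M (fun i => x (a, i))).adjugate = 0 := by
          intro a
          ext i j
          have h2 := hx (a, i, j)
          have h3 := map_adj
            (MvPolynomial.aeval x : MvPolynomial (Fin 4 × Fin 3) ℤ →ₐ[ℤ] ℂ).toRingHom M (T a) i j
          simp [hT] at h3
          simp only [hT] at h2
          rw [← h3]
          exact h2
        obtain ⟨a, b, hab, h2⟩ := r2_ hM hb (fun a i => x (a, i)) h1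
        rw [map_prod]
        apply Finset.prod_eq_zero (Finset.mem_univ (⟨(a, b), hab⟩ : Pr))
        have h4 := map_cr
          (MvPolynomial.aeval x : MvPolynomial (Fin 4 × Fin 3) ℤ →ₐ[ℤ] ℂ).toRingHom (T a) (T b)
          (κ ⟨(a, b), hab⟩)
        simp [hT] at h4
        simp only [hT]
        rw [h4]
        exact congrFun h2 _)
    refine ⟨K, N, hK, fun t d h1 => ?_⟩
    have h3 := hn (fun p => t p.1 p.2) d (by
      rintro ⟨a, i, j⟩
      simp only []
      rw [map_adj]
      simpa [hT] using h1 a i j)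
    rw [map_prod] at h3
    simp only [map_cr] at h3
    simpa [hT] using h3
  choose K N hK hn using h
  refine ⟨∏ κ, K κ, Nat.one_le_iff_ne_zero.2 (Finset.prod_pos fun k _ => hK k).ne', ?_⟩
  intro p hp hpK t ht
  by_contra hcon
  push Not at hcon
  have hch : ∀ q : Pr, ∃ k, ¬ (p : ℤ) ∣ cr (t q.1.1) (t q.1.2) k := fun q =>
    hcon q.1.1 q.1.2 q.2
  choose κ hκ using hch
  have h1 := hn κ t p ht
  have hpZ : Prime (p : ℤ) := Nat.prime_iff_prime_int.1 hp
  rcases hpZ.dvd_or_dvd h1 with h2 | h2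
  · apply hpK
    have h3 : p ∣ K κ := by exact_mod_cast h2
    exact h3.trans (Finset.dvd_prod_of_mem K (Finset.mem_univ κ))
  · have h3 := hpZ.dvd_of_dvd_pow h2
    obtain ⟨q, -, hq⟩ := (Prime.dvd_finsetProd_iff hpZ _).1 h3
    exact hκ q hq

/-- common divisors for a direction that is not on the discriminant curve -/
theorem nst3 {M : Fin 3 → Matrix (Fin 3) (Fin 3) ℤ} (b : Fin 3 → ℤ) (hb : (gm M b).det ≠ 0) :
    ∃ K : ℕ, 1 ≤ K ∧ ∀ t : Fin 3 → ℤ, Prim t → ∀ d : ℤ,
      (∀ i j, d ∣ (gm M t).adjugate i j) → (∀ k, d ∣ cr t b k) → d ∣ (K : ℤ) := by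
  have hz : ∀ t : Fin 3 → ℂ, (gm M t).adjugate = 0 → cr t (fun i => (b i : ℂ)) = 0 → t = 0 := by
    intro t h1 h2
    have hbC : (gm M (fun i => (b i : ℂ))).det ≠ 0 := by
      have h3 := map_dt (Int.castRingHom ℂ) M b
      simp only [eq_intCast] at h3
      rw [← h3]
      exact_mod_cast hb
    have hdt : (gm M t).det = 0 := by
      have h3 := det_adjugate (gm M t)
      rw [h1] at h3
      simp at h3
      exact (pow_eq_zero_iff two_ne_zero).1 h3.symm
    have hb0 : (fun i => (b i : ℂ)) ≠ 0 := by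
      intro h0
      apply hbC
      rw [h0, gm_zero]
      simp
    obtain ⟨k, hk⟩ := Function.ne_iff.1 hb0
    have h4 : (b k : ℂ) • t = t k • (fun i => (b i : ℂ)) := by
      have e0 := congrFun h2 0
      have e1 := congrFun h2 1
      have e2 := congrFun h2 2
      simp [cr] at e0 e1 e2
      funext i
      fin_cases k <;> fin_cases i <;> simp <;>
        first
          | ring1
          | linear_combination e0
          | linear_combination e1
          | linear_combination e2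
          | linear_combination -e0
          | linear_combination -e1
          | linear_combination -e2
    have h5 : (b k : ℂ) ^ 3 * (gm M t).det = (t k) ^ 3 * (gm M (fun i => (b i : ℂ))).det := by
      have h6 := congrArg (fun v => (gm M v).det) h4
      simp only [gm_smul, det_smul, Fintype.card_fin] at h6
      exact h6
    rw [hdt, mul_zero] at h5
    have h6 : t k = 0 := by
      have := (mul_eq_zero.1 h5.symm).resolve_right hbC
      exact (pow_eq_zero_iff three_ne_zero).1 this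
    rw [h6, zero_smul] at h4
    exact (smul_eq_zero.1 h4).resolve_left hk
  have h : ∀ k : Fin 3, ∃ K N : ℕ, 1 ≤ K ∧ ∀ (t : Fin 3 → ℤ) (d : ℤ),
      (∀ i j, d ∣ (gm M t).adjugate i j) → (∀ k, d ∣ cr t b k) → d ∣ (K : ℤ) * t k ^ N := by
    intro k
    set T : Fin 3 → MvPolynomial (Fin 3) ℤ := fun i => MvPolynomial.X i with hT
    set B : Fin 3 → MvPolynomial (Fin 3) ℤ := fun i => MvPolynomial.C (b i) with hB
    obtain ⟨K, N, hK, hn⟩ := nst (ι := (Fin 3 × Fin 3) ⊕ Fin 3)
      (Sum.elim (fun p => (gm M T).adjugate p.1 p.2) (fun p => cr T B p))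
      (MvPolynomial.X k : MvPolynomial (Fin 3) ℤ) (by
        intro x hx
        rw [MvPolynomial.aeval_X]
        have h1 : (gm M x).adjugate = 0 := by
          ext i j
          have h2 := hx (Sum.inl (i, j))
          have h3 := map_adj
            (MvPolynomial.aeval x : MvPolynomial (Fin 3) ℤ →ₐ[ℤ] ℂ).toRingHom M T i j
          simp [hT] at h3
          simp only [Sum.elim_inl, hT] at h2
          rw [← h3]
          exact h2
        have h2 : cr x (fun i => (b i : ℂ)) = 0 := by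
          funext j
          have h2 := hx (Sum.inr j)
          have h3 := map_cr
            (MvPolynomial.aeval x : MvPolynomial (Fin 3) ℤ →ₐ[ℤ] ℂ).toRingHom T B j
          simp [hT, hB] at h3
          simp only [Sum.elim_inr, hT, hB] at h2
          rw [Pi.zero_apply, ← h3]
          simpa using h2
        exact congrFun (hz x h1 h2) k)
    refine ⟨K, N, hK, fun t d h1 h2 => ?_⟩
    have h3 := hn t d (by
      rintro (⟨i, j⟩ | j)
      · rw [Sum.elim_inl, map_adj]
        simpa [hT] using h1 i j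
      · rw [Sum.elim_inr, map_cr]
        simpa [hT, hB] using h2 j)
    simpa using h3
  choose K N hK hn using h
  refine ⟨∏ k, K k, Nat.one_le_iff_ne_zero.2 (Finset.prod_pos fun k _ => hK k).ne', ?_⟩
  intro t ht d h1 h2
  apply dvd_of_pow t ht _ d N
  intro k
  refine (hn k t d h1 h2).trans (mul_dvd_mul ?_ dvd_rfl)
  exact_mod_cast Finset.dvd_prod_of_mem K (Finset.mem_univ k)

end Pool.Agent.K1H88.NC
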