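import Mathlib
import Pool.Agent.K1H88.NC.Poly

/-!
# Nets of conics: the classes of the parameters with a given common divisor of the minors
-/

set_option autoImplicit false

namespace Pool.Agent.K1H88.NC

open Matrix
open Pool.Agent.R38.NC (gm qf cq Smooth Prim)

theorem rep_of_dvd (r t u : Fin 3 → ℤ) (hu : ∑ i, u i * r i = 1) (d : ℤ)
    (h : ∀ k, d ∣ cr r t k) :
    ∃ s : Fin 3 → ℤ, ∀ i, t i = (∑ j, u j * t j) * r i + d * s i := by
  choose c hc using h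
  rw [Fin.sum_univ_three] at hu
  have c0 := hc 0
  have c1 := hc 1
  have c2 := hc 2
  simp [cr] at c0 c1 c2
  refine ⟨![-(u 1 * c 2) + u 2 * c 1, u 0 * c 2 - u 2 * c 0, -(u 0 * c 1) + u 1 * c 0], ?_⟩
  intro i
  rw [Fin.sum_univ_three]
  fin_cases i
  · simp
    linear_combination -(t 0) * hu - u 1 * c2 + u 2 * c1
  · simp
    linear_combination -(t 1) * hu + u 0 * c2 - u 2 * c0
  · simp
    linear_combination -(t 2) * hu - u 0 * c1 + u 1 * c0

theorem cr_dvd {r t t' s s' : Fin 3 → ℤ} {a b d : ℤ} (h : ∀ i, t i = a * r i + d * s i)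
    (h' : ∀ i, t' i = b * r i + d * s' i) (k : Fin 3) : d ∣ cr t t' k := by
  refine Dvd.intro (a * cr r s' k + b * cr s r k + d * cr s s' k) ?_
  fin_cases k <;> simp [cr, h, h'] <;> ring

theorem par_trans {r t t' : Fin 3 → ℤ} (hr : Prim r) {d : ℤ} (h : ∀ k, d ∣ cr r t k)
    (h' : ∀ k, d ∣ cr r t' k) (k : Fin 3) : d ∣ cr t t' k := by
  obtain ⟨u, hu⟩ := bezout r hr
  obtain ⟨s, hs⟩ := rep_of_dvd r t u hu d h
  obtain ⟨s', hs'⟩ := rep_of_dvd r t' u hu d h'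
  exact cr_dvd hs hs' k

/-- the local divisibility -/
theorem loc {M : Fin 3 → Matrix (Fin 3) (Fin 3) ℤ} {K : ℕ} {N : Fin 3 → ℕ}
    (hK : ∀ (t s : Fin 3 → ℤ) (d : ℤ),
      (∀ i j, d ∣ (gm M t).adjugate i j) → (∀ i j, d ∣ bm (gm M t) (gm M s) i j) →
      ∀ k, d ∣ (K : ℤ) * cr t s k ^ N k)
    (p : ℕ) (hp : p.Prime) (c e : ℕ) (hc0 : 1 ≤ c) (hc : ¬ p ^ c ∣ K) (t t' : Fin 3 → ℤ)
    (ht : Prim t) (ht' : Prim t') (h : ∀ i j, ((p ^ e : ℕ) : ℤ) ∣ (gm M t).adjugate i j)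
    (h' : ∀ i j, ((p ^ e : ℕ) : ℤ) ∣ (gm M t').adjugate i j)
    (hcr : ∀ k, ((p ^ c : ℕ) : ℤ) ∣ cr t t' k) (k : Fin 3) :
    ((p ^ e : ℕ) : ℤ) ∣ K * cr t t' k := by
  classical
  by_cases he : ∀ k, ((p ^ e : ℕ) : ℤ) ∣ cr t t' k
  · exact Dvd.dvd.mul_left (he k) _
  have hpZ : Prime (p : ℤ) := Nat.prime_iff_prime_int.1 hp
  set P : ℕ → Prop := fun f => ∀ k, ((p ^ f : ℕ) : ℤ) ∣ cr t t' k with hP
  set f := Nat.findGreatest P e with hf
  have hPf : P f := Nat.findGreatest_spec (P := P) (Nat.zero_le e) (by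
    intro k
    simp)
  have hfe : f < e := by
    have h1 : f ≤ e := Nat.findGreatest_le e
    rcases h1.lt_or_eq with h2 | h2
    · exact h2
    · rw [h2] at hPf
      exact absurd hPf he
  have hce : c < e := by
    by_contra h1
    push Not at h1
    apply he
    intro k
    refine dvd_trans ?_ (hcr k)
    exact_mod_cast pow_dvd_pow p h1
  have hcf : c ≤ f := Nat.le_findGreatest hce.le hcr
  have hmax : ¬ P (f + 1) := Nat.findGreatest_is_greatest (Nat.lt_succ_self f) hfe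
  obtain ⟨u, hu⟩ := bezout t ht
  obtain ⟨s, hs⟩ := rep_of_dvd t t' u hu _ hPf
  set lam : ℤ := ∑ j, u j * t' j with hlam
  have hp0 : (((p ^ f : ℕ) : ℤ)) ≠ 0 := by
    exact_mod_cast (pow_pos hp.pos f).ne'
  have hcrs : ∀ k, cr t t' k = ((p ^ f : ℕ) : ℤ) * cr t s k := by
    intro k
    fin_cases k <;> simp [cr, hs] <;> ring
  have hex : ∃ k0, ¬ (p : ℤ) ∣ cr t s k0 := by
    by_contra hcon
    push Not at hcon
    apply hmax
    intro k
    rw [hcrs k, pow_succ]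
    push_cast
    exact mul_dvd_mul dvd_rfl (hcon k)
  obtain ⟨k0, hk0⟩ := hex
  have hlamp : ¬ (p : ℤ) ∣ lam := by
    intro h1
    have h2 : IsUnit (p : ℤ) := by
      apply ht'
      intro i
      rw [hs i]
      refine dvd_add (Dvd.dvd.mul_right h1 _) (Dvd.dvd.mul_right ?_ _)
      push_cast
      exact dvd_pow_self _ (by omega)
    exact hpZ.not_unit h2
  set m := min (e - f) f with hm
  have hdv : ∀ i j, ((p ^ m : ℕ) : ℤ) ∣ bm (gm M t) (gm M s) i j := by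
    intro i j
    have h1 : t' = lam • t + ((p ^ f : ℕ) : ℤ) • s := by
      funext i
      rw [hs i]
      rfl
    have h2 : (gm M t').adjugate i j = lam ^ 2 * (gm M t).adjugate i j +
        (lam * ((p ^ f : ℕ) : ℤ)) * bm (gm M t) (gm M s) i j +
        ((p ^ f : ℕ) : ℤ) ^ 2 * (gm M s).adjugate i j := by
      rw [h1, gm_add, gm_smul, gm_smul, adj_comb]
      simp only [Matrix.add_apply, Matrix.smul_apply, smul_eq_mul]
    have h3 : ((p ^ f : ℕ) : ℤ) * ((p ^ m : ℕ) : ℤ) ∣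
        ((p ^ f : ℕ) : ℤ) * (lam * bm (gm M t) (gm M s) i j) := by
      have e1 : ((p ^ f : ℕ) : ℤ) * ((p ^ m : ℕ) : ℤ) ∣ ((p ^ e : ℕ) : ℤ) := by
        have : p ^ f * p ^ m ∣ p ^ e := by
          rw [← pow_add]
          exact pow_dvd_pow p (by omega)
        exact_mod_cast this
      have e2 : ((p ^ f : ℕ) : ℤ) * ((p ^ m : ℕ) : ℤ) ∣ ((p ^ f : ℕ) : ℤ) ^ 2 := by
        have : p ^ f * p ^ m ∣ (p ^ f) ^ 2 := by
          rw [← pow_add, ← pow_mul]
          exact pow_dvd_pow p (by omega)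
        exact_mod_cast this
      have e3 : ((p ^ f : ℕ) : ℤ) * (lam * bm (gm M t) (gm M s) i j) =
          (gm M t').adjugate i j - lam ^ 2 * (gm M t).adjugate i j -
          ((p ^ f : ℕ) : ℤ) ^ 2 * (gm M s).adjugate i j := by
        rw [h2]
        ring
      rw [e3]
      exact dvd_sub (dvd_sub (e1.trans (h' i j)) (Dvd.dvd.mul_left (e1.trans (h i j)) _))
        (Dvd.dvd.mul_right e2 _)
    have h4 : ((p ^ m : ℕ) : ℤ) ∣ lam * bm (gm M t) (gm M s) i j :=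
      (mul_dvd_mul_iff_left hp0).1 h3
    have h5 : IsCoprime ((p ^ m : ℕ) : ℤ) lam := by
      push_cast
      exact ((Prime.coprime_iff_not_dvd hpZ).2 hlamp).pow_left
    exact h5.dvd_of_dvd_mul_left h4
  have hadjm : ∀ i j, ((p ^ m : ℕ) : ℤ) ∣ (gm M t).adjugate i j := by
    intro i j
    refine dvd_trans ?_ (h i j)
    exact_mod_cast pow_dvd_pow p (by omega)
  have hKm := hK t s _ hadjm hdv k0
  have hKm2 : ((p ^ m : ℕ) : ℤ) ∣ (K : ℤ) := by
    have h5 : IsCoprime ((p ^ m : ℕ) : ℤ) (cr t s k0 ^ N k0) := by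
      push_cast
      exact (((Prime.coprime_iff_not_dvd hpZ).2 hk0).pow_left).pow_right
    exact h5.dvd_of_dvd_mul_right hKm
  have hmef : m = e - f := by
    by_contra h1
    have h2 : m = f := by omega
    apply hc
    rw [h2] at hKm2
    have h3 : p ^ f ∣ K := by exact_mod_cast hKm2
    exact (pow_dvd_pow p hcf).trans h3
  rw [hcrs k]
  have h6 : ((p ^ e : ℕ) : ℤ) = ((p ^ m : ℕ) : ℤ) * ((p ^ f : ℕ) : ℤ) := by
    rw [hmef]
    have : p ^ e = p ^ (e - f) * p ^ f := by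
      rw [← pow_add]
      congr 1
      omega
    exact_mod_cast this
  rw [h6, ← mul_assoc]
  exact Dvd.dvd.mul_right (mul_dvd_mul hKm2 dvd_rfl) _

/-- the colouring of the points of the rank one locus modulo a prime number -/
theorem color {M : Fin 3 → Matrix (Fin 3) (Fin 3) ℤ} {K : ℕ}
    (hK : ∀ (p : ℕ), p.Prime → ¬ p ∣ K → ∀ t : Fin 4 → Fin 3 → ℤ,
      (∀ a i j, (p : ℤ) ∣ (gm M (t a)).adjugate i j) →
      ∃ a b, a < b ∧ ∀ k, (p : ℤ) ∣ cr (t a) (t b) k)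
    (p : ℕ) (hp : p.Prime) (hpK : ¬ p ∣ K) :
    ∃ c : (Fin 3 → ℤ) → Fin 3, ∀ t t' : Fin 3 → ℤ, Prim t → Prim t' →
      (∀ i j, (p : ℤ) ∣ (gm M t).adjugate i j) → (∀ i j, (p : ℤ) ∣ (gm M t').adjugate i j) →
      c t = c t' → ∀ k, (p : ℤ) ∣ cr t t' k := by
  classical
  set Z : (Fin 3 → ℤ) → Prop := fun t => Prim t ∧ ∀ i j, (p : ℤ) ∣ (gm M t).adjugate i j with hZ
  set par : (Fin 3 → ℤ) → (Fin 3 → ℤ) → Prop := fun t t' => ∀ k, (p : ℤ) ∣ cr t t' k with hpar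
  suffices h : ∃ r0 r1 r2 : Fin 3 → ℤ, ∀ t, Z t →
      (Z r0 ∧ par r0 t) ∨ (Z r1 ∧ par r1 t) ∨ (Z r2 ∧ par r2 t) by
    obtain ⟨r0, r1, r2, hr⟩ := h
    refine ⟨fun t => if Z r0 ∧ par r0 t then 0 else if Z r1 ∧ par r1 t then 1 else 2, ?_⟩
    intro t t' h1 h2 h3 h4 hc k
    have z1 := hr t ⟨h1, h3⟩
    have z2 := hr t' ⟨h2, h4⟩
    simp only [] at hc
    by_cases a0 : Z r0 ∧ par r0 t
    · by_cases b0 : Z r0 ∧ par r0 t'
      · exact par_trans a0.1.1 a0.2 b0.2 k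
      · rw [if_pos a0, if_neg b0] at hc
        split_ifs at hc <;> exact absurd hc (by decide)
    · by_cases b0 : Z r0 ∧ par r0 t'
      · rw [if_neg a0, if_pos b0] at hc
        split_ifs at hc <;> exact absurd hc (by decide)
      · rw [if_neg a0, if_neg b0] at hc
        by_cases a1 : Z r1 ∧ par r1 t
        · by_cases b1 : Z r1 ∧ par r1 t'
          · exact par_trans a1.1.1 a1.2 b1.2 k
          · rw [if_pos a1, if_neg b1] at hc
            exact absurd hc (by decide)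
        · by_cases b1 : Z r1 ∧ par r1 t'
          · rw [if_neg a1, if_pos b1] at hc
            exact absurd hc (by decide)
          · have a2 : Z r2 ∧ par r2 t := by tauto
            have b2 : Z r2 ∧ par r2 t' := by tauto
            exact par_trans a2.1.1 a2.2 b2.2 k
  have hself : ∀ t, par t t := by
    intro t k
    rw [cr_self]
    exact dvd_zero _
  by_cases h0 : ∃ z0, Z z0
  swap
  · exact ⟨0, 0, 0, fun t ht => absurd ⟨t, ht⟩ h0⟩
  obtain ⟨z0, hz0⟩ := h0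
  by_cases h1 : ∃ z1, Z z1 ∧ ¬ par z0 z1
  swap
  · push Not at h1
    exact ⟨z0, z0, z0, fun t ht => Or.inl ⟨hz0, h1 t ht⟩⟩
  obtain ⟨z1, hz1, hz01⟩ := h1
  by_cases h2 : ∃ z2, Z z2 ∧ ¬ par z0 z2 ∧ ¬ par z1 z2
  swap
  · push Not at h2
    refine ⟨z0, z1, z1, fun t ht => ?_⟩
    by_cases h3 : par z0 t
    · exact Or.inl ⟨hz0, h3⟩
    · exact Or.inr (Or.inl ⟨hz1, h2 t ht h3⟩)
  obtain ⟨z2, hz2, hz02, hz12⟩ := h2
  refine ⟨z0, z1, z2, fun t ht => ?_⟩
  obtain ⟨a, b, hab, hcr⟩ := hK p hp hpK ![z0, z1, z2, t] (by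
    intro a
    fin_cases a
    · exact hz0.2
    · exact hz1.2
    · exact hz2.2
    · exact ht.2)
  fin_cases a <;> fin_cases b <;> simp at hab hcr
  · exact absurd hcr hz01
  · exact absurd hcr hz02
  · exact Or.inl ⟨hz0, hcr⟩
  · exact absurd hcr hz12
  · exact Or.inr (Or.inl ⟨hz1, hcr⟩)
  · exact Or.inr (Or.inr ⟨hz2, hcr⟩)

end Pool.Agent.K1H88.NC
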