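import Mathlib
import Pool.Agent.K1H88.NC.Cls

/-!
# Nets of conics: the number of classes
-/

set_option autoImplicit false

namespace Pool.Agent.K1H88.NC

open Matrix
open Pool.Agent.R38.NC (gm qf cq Smooth Prim)

theorem two_pow_le (D : ℕ) (hD : 1 ≤ D) : 2 ^ D.primeFactors.card ≤ D.divisors.card := by
  classical
  rw [← Finset.card_powerset]
  apply Finset.card_le_card_of_injOn (fun s => ∏ p ∈ s, p)
  · intro s hs
    rw [Finset.mem_coe, Finset.mem_powerset] at hs
    rw [Finset.mem_coe, Nat.mem_divisors]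
    refine ⟨?_, by omega⟩
    exact (Finset.prod_dvd_prod_of_subset _ _ _ hs).trans (Nat.prod_primeFactors_dvd D)
  · intro s hs s' hs' h
    rw [Finset.mem_coe, Finset.mem_powerset] at hs hs'
    have h1 : (∏ p ∈ s, p).primeFactors = s :=
      Nat.primeFactors_prod fun p hp => Nat.prime_of_mem_primeFactors (hs hp)
    have h2 : (∏ p ∈ s', p).primeFactors = s' :=
      Nat.primeFactors_prod fun p hp => Nat.prime_of_mem_primeFactors (hs' hp)
    simp only [] at h
    rw [← h1, ← h2, h]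

theorem three_pow_le (D : ℕ) (hD : 1 ≤ D) : 3 ^ D.primeFactors.card ≤ D.divisors.card ^ 2 := by
  calc 3 ^ D.primeFactors.card ≤ 4 ^ D.primeFactors.card := Nat.pow_le_pow_left (by norm_num) _
    _ = (2 ^ D.primeFactors.card) ^ 2 := by
        rw [← pow_mul, mul_comm, pow_mul]
        norm_num
    _ ≤ D.divisors.card ^ 2 := Nat.pow_le_pow_left (two_pow_le D hD) 2

theorem classes {M : Fin 3 → Matrix (Fin 3) (Fin 3) ℤ} (hM : ∀ i, (M i).IsSymm) (hb : Bpf M) :
    ∃ K q : ℕ, 1 ≤ K ∧ 1 ≤ q ∧ ∀ D : ℕ, 1 ≤ D →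
      ∃ c : (Fin 3 → ℤ) → Fin (q ^ 3 * 3 ^ D.primeFactors.card),
      ∀ t t' : Fin 3 → ℤ, Prim t → Prim t' → (∀ i j, (D : ℤ) ∣ (gm M t).adjugate i j) →
        (∀ i j, (D : ℤ) ∣ (gm M t').adjugate i j) → c t = c t' →
        ∀ k, (D : ℤ) ∣ (K : ℤ) * cr t t' k := by
  classical
  obtain ⟨K, N, hK1, hK⟩ := nst1 hM hb
  obtain ⟨K2, hK21, hK2⟩ := nst2 hM hb
  have hcol : ∀ p : ℕ, ∃ c : (Fin 3 → ℤ) → Fin 3, p.Prime → ¬ p ∣ K2 → ∀ t t' : Fin 3 → ℤ,
      Prim t → Prim t' → (∀ i j, (p : ℤ) ∣ (gm M t).adjugate i j) →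
      (∀ i j, (p : ℤ) ∣ (gm M t').adjugate i j) → c t = c t' → ∀ k, (p : ℤ) ∣ cr t t' k := by
    intro p
    by_cases h : p.Prime ∧ ¬ p ∣ K2
    · obtain ⟨c, hc⟩ := color hK2 p h.1 h.2
      exact ⟨c, fun _ _ => hc⟩
    · exact ⟨fun _ => 0, fun h1 h2 => absurd ⟨h1, h2⟩ h⟩
  choose col hcol using hcol
  set q : ℕ := K * (K * K2) with hq
  have hq1 : 1 ≤ q := by
    have := Nat.mul_le_mul hK1 (Nat.mul_le_mul hK1 hK21)
    simpa using this
  have : NeZero q := ⟨by omega⟩
  refine ⟨K, q, hK1, hq1, ?_⟩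
  intro D hD
  have hcard : Fintype.card ((Fin 3 → ZMod q) × (D.primeFactors → Fin 3)) =
      q ^ 3 * 3 ^ D.primeFactors.card := by
    rw [Fintype.card_prod, Fintype.card_fun, Fintype.card_fun, ZMod.card, Fintype.card_fin,
      Fintype.card_coe]
  set E := Fintype.equivFinOfCardEq hcard with hE
  refine ⟨fun t => E (fun i => ((t i : ℤ) : ZMod q), fun p => col p t), ?_⟩
  intro t t' ht ht' h h' hc k
  have hc' := E.injective hc
  obtain ⟨hc1, hc2⟩ := Prod.mk.inj hc'
  have hmod : ∀ i, (q : ℤ) ∣ t' i - t i := by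
    intro i
    exact (ZMod.intCast_eq_intCast_iff_dvd_sub _ _ _).1 (congrFun hc1 i)
  have hcrq : ∀ k, (q : ℤ) ∣ cr t t' k := by
    choose s hs using hmod
    intro k
    refine Dvd.intro (cr t s k) ?_
    have e : ∀ i, t' i = t i + q * s i := fun i => by linear_combination hs i
    fin_cases k <;> simp [cr, e] <;> ring
  have hcolp : ∀ p ∈ D.primeFactors, col p t = col p t' := by
    intro p hp
    exact congrFun hc2 ⟨p, hp⟩
  rw [← Int.dvd_natAbs]
  have hgoal : D ∣ ((K : ℤ) * cr t t' k).natAbs := by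
    rw [Nat.dvd_iff_prime_pow_dvd_dvd]
    intro p e hp he
    rcases Nat.eq_zero_or_pos e with h0 | h0
    · rw [h0, pow_zero]
      exact one_dvd _
    have hpD : p ∣ D := (dvd_pow_self p (by omega)).trans he
    have hpm : p ∈ D.primeFactors := Nat.mem_primeFactors.2 ⟨hp, hpD, by omega⟩
    have ha : ∀ i j, ((p ^ e : ℕ) : ℤ) ∣ (gm M t).adjugate i j := fun i j =>
      (Int.natCast_dvd_natCast.2 he).trans (h i j)
    have ha' : ∀ i j, ((p ^ e : ℕ) : ℤ) ∣ (gm M t').adjugate i j := fun i j =>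
      (Int.natCast_dvd_natCast.2 he).trans (h' i j)
    have hmain : ((p ^ e : ℕ) : ℤ) ∣ (K : ℤ) * cr t t' k := by
      by_cases hpK : p ∣ K * K2
      · have : Fact p.Prime := ⟨hp⟩
        refine loc hK p hp (padicValNat p K + 1) e (by omega)
          (pow_succ_padicValNat_not_dvd (by omega)) t t' ht ht' ha ha' ?_ k
        intro k
        refine dvd_trans ?_ (hcrq k)
        rw [Int.natCast_dvd_natCast, hq, pow_succ]
        exact mul_dvd_mul pow_padicValNat_dvd hpK
      · have hp1 : ¬ p ^ 1 ∣ K := by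
          rw [pow_one]
          exact fun h => hpK (h.mul_right _)
        have hp2 : ¬ p ∣ K2 := fun h => hpK (h.mul_left _)
        refine loc hK p hp 1 e le_rfl hp1 t t' ht ht' ha ha' ?_ k
        intro k
        rw [pow_one]
        refine hcol p hp hp2 t t' ht ht' ?_ ?_ (hcolp p hpm) k
        · exact fun i j => (Int.natCast_dvd_natCast.2 hpD).trans (h i j)
        · exact fun i j => (Int.natCast_dvd_natCast.2 hpD).trans (h' i j)
    exact Int.natCast_dvd.1 hmain
  exact_mod_cast hgoal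

end Pool.Agent.K1H88.NC
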