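import Mathlib
import Pool.Agent.R38.NC.Coni
import Pool.Agent.R38.NC.Tri
import Pool.Agent.K1H88.NC.Cls2

/-!
# Nets of conics: vectors in a plane
-/

set_option autoImplicit false

namespace Pool.Agent.K1H88.NC

open Matrix
open Pool.Agent.R38.NC (gm qf cq Smooth Prim rep_prim rep_neg tri_)
open Pool.Agent.H548.WM (ht bx Rep mem_bx le_ht' exists_ht)

theorem cr_rep_ne {u v : Fin 3 → ℤ} (hu : Rep u) (hv : Rep v) (huv : u ≠ v) : cr u v ≠ 0 := by
  intro h
  obtain ⟨w, hw⟩ := bezout u (rep_prim hu)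
  obtain ⟨s, hs⟩ := rep_of_dvd u v w hw 0 (fun k => by rw [h]; exact dvd_zero _)
  set a := ∑ j, w j * v j with ha
  have h1 : IsUnit a := by
    apply rep_prim hv
    intro i
    rw [hs i, zero_mul, add_zero]
    exact Dvd.intro _ rfl
  rcases Int.isUnit_iff.1 h1 with h2 | h2
  · apply huv
    funext i
    rw [hs i, h2]
    ring
  · apply rep_neg hu hv
    funext i
    rw [hs i, h2, Pi.neg_apply]
    ring

theorem cr_le {u v : Fin 3 → ℤ} {A : ℕ} (hu : ht u ≤ A) (hv : ht v ≤ A) (k : Fin 3) :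
    |cr u v k| ≤ 2 * (A : ℤ) ^ 2 := by
  have h1 : ∀ i, |u i| ≤ (A : ℤ) := fun i => (le_ht' u i).trans (by exact_mod_cast hu)
  have h2 : ∀ i, |v i| ≤ (A : ℤ) := fun i => (le_ht' v i).trans (by exact_mod_cast hv)
  have h3 : ∀ i j, |u i * v j| ≤ (A : ℤ) ^ 2 := by
    intro i j
    rw [abs_mul, sq]
    exact mul_le_mul (h1 i) (h2 j) (abs_nonneg _) (by positivity)
  have h4 : ∀ i j k l, |u i * v j - u k * v l| ≤ 2 * (A : ℤ) ^ 2 := by
    intro i j k l
    have e1 := h3 i j
    have e2 := h3 k l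
    have e3 := abs_sub (u i * v j) (u k * v l)
    linarith
  fin_cases k <;> exact h4 _ _ _ _

/-- the number of normalised primitive vectors in a plane with divisibility conditions -/
theorem plane (ν : Fin 3 → ℤ) (hν : Prim ν) (S : Finset (Fin 3 → ℤ)) (A D K : ℕ) (hD : 1 ≤ D)
    (hK : 1 ≤ K) (hS : ∀ t ∈ S, Rep t ∧ ht t ≤ A ∧ ∑ i, ν i * t i = 0)
    (hdv : ∀ t ∈ S, ∀ t' ∈ S, ∀ k, (D : ℤ) ∣ (K : ℤ) * cr t t' k) :
    (S.card : ℝ) ≤ 8 * K * (A : ℝ) ^ 2 / (D * ht ν) + 2 := by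
  obtain ⟨u, hu⟩ := bezout ν hν
  set N0 : (Fin 3 → ℤ) → (Fin 3 → ℤ) → ℤ := fun t t' => ∑ j, u j * cr t t' j with hN0
  have hN0e : ∀ t ∈ S, ∀ t' ∈ S, ∀ i, cr t t' i = N0 t t' * ν i := by
    intro t h1 t' h2 i
    have e1 := (hS t h1).2.2
    have e2 := (hS t' h2).2.2
    rw [Fin.sum_univ_three] at e1 e2
    obtain ⟨s, hs⟩ := rep_of_dvd ν (cr t t') u hu 0 (by
      intro k
      have : cr ν (cr t t') k = 0 := by
        fin_cases k
        · simp [cr]
          linear_combination t 0 * e2 - t' 0 * e1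
        · simp [cr]
          linear_combination t 1 * e2 - t' 1 * e1
        · simp [cr]
          linear_combination t 2 * e2 - t' 2 * e1
      rw [this])
    rw [hs i, zero_mul, add_zero]
  set g := Nat.gcd D K with hg
  have hg1 : 1 ≤ g := Nat.gcd_pos_of_pos_left _ hD
  set D' := D / g with hD'
  have hgD : g * D' = D := Nat.mul_div_cancel' (Nat.gcd_dvd_left D K)
  have hD'1 : 1 ≤ D' := by
    rw [Nat.one_le_iff_ne_zero]
    intro h
    rw [h, mul_zero] at hgD
    omega
  have hdvN : ∀ t ∈ S, ∀ t' ∈ S, (D' : ℤ) ∣ N0 t t' := by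
    intro t h1 t' h2
    have e1 : (D : ℤ) ∣ (K : ℤ) * N0 t t' := by
      simp only [hN0, Finset.mul_sum]
      apply Finset.dvd_sum
      intro j _
      rw [mul_left_comm]
      exact Dvd.dvd.mul_left (hdv t h1 t' h2 j) _
    obtain ⟨K', hK'⟩ := Nat.gcd_dvd_right D K
    have e2 : ((g : ℕ) : ℤ) * (D' : ℤ) ∣ ((g : ℕ) : ℤ) * ((K' : ℤ) * N0 t t') := by
      have e3 : ((g : ℕ) : ℤ) * (D' : ℤ) = D := by exact_mod_cast hgD
      have e4 : ((g : ℕ) : ℤ) * (K' : ℤ) = K := by exact_mod_cast hK'.symm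
      rw [e3, ← mul_assoc, e4]
      exact e1
    have hg0 : ((g : ℕ) : ℤ) ≠ 0 := by positivity
    have e5 := (mul_dvd_mul_iff_left hg0).1 e2
    have e6 : IsCoprime (D' : ℤ) (K' : ℤ) := by
      rw [Nat.isCoprime_iff_coprime]
      have e7 := Nat.coprime_div_gcd_div_gcd (m := D) (n := K) hg1
      have e8 : K / g = K' := by
        rw [← hg] at hK'
        rw [hK', Nat.mul_div_cancel_left _ hg1]
      rw [← hg, e8] at e7
      exact e7
    exact e6.dvd_of_dvd_mul_left e5
  set N : (Fin 3 → ℤ) → (Fin 3 → ℤ) → ℤ := fun t t' => N0 t t' / D' with hN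
  have hNe : ∀ t ∈ S, ∀ t' ∈ S, (D' : ℤ) * N t t' = N0 t t' := fun t h1 t' h2 =>
    Int.mul_ediv_cancel' (hdvN t h1 t' h2)
  have hD'0 : (D' : ℤ) ≠ 0 := by positivity
  obtain ⟨j0, hj0⟩ := exists_ht (by norm_num : 0 < 3) ν
  have hν0 : 1 ≤ ht ν := by
    rw [Nat.one_le_iff_ne_zero]
    intro h
    rw [h] at hj0
    have h2 : IsUnit (0 : ℤ) := by
      apply hν
      intro i
      have := le_ht' ν i
      rw [h] at this
      have h3 : ν i = 0 := by
        have := abs_nonneg (ν i)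
        rw [← abs_eq_zero]
        push_cast at *
        omega
      rw [h3]
    simp at h2
  have hνj : ν j0 ≠ 0 := by
    intro h
    rw [h, abs_zero] at hj0
    have : ht ν = 0 := by exact_mod_cast hj0.symm
    omega
  set Q : ℕ := 2 * A ^ 2 / (D' * ht ν) with hQ
  have hmain := (tri_ 3 S N (fun v hv => rep_prim (hS v hv).1) (by
      intro v hv w hw hvw h0
      apply cr_rep_ne (hS v hv).1 (hS w hw).1 hvw
      funext i
      rw [hN0e v hv w hw, ← hNe v hv w hw, h0]
      simp) (by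
      intro v hv w hw
      have e1 := hNe v hv w hw
      have e2 := hNe w hw v hv
      have e3 : N0 w v = - N0 v w := by
        simp only [hN0]
        rw [cr_comm]
        simp [Finset.sum_neg_distrib]
      have e4 : (D' : ℤ) * N w v = (D' : ℤ) * (- N v w) := by
        rw [e2, e3, ← e1]
        ring
      exact mul_left_cancel₀ hD'0 e4) (by
      intro v hv w hw x hx i
      have e1 := hNe w hw x hx
      have e2 := hNe x hx v hv
      have e3 := hNe v hv w hw
      have f1 := hN0e w hw x hx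
      have f2 := hN0e x hx v hv
      have f3 := hN0e v hv w hw
      have key : ν j0 * (D' * (N w x * v i + N x v * w i + N v w * x i)) = 0 := by
        have h1 : ν j0 * (D' * (N w x * v i + N x v * w i + N v w * x i)) =
            cr w x j0 * v i + cr x v j0 * w i + cr v w j0 * x i := by
          rw [f1, f2, f3, ← e1, ← e2, ← e3]
          ring
        rw [h1]
        have hdet : v 0 * cr w x 0 + v 1 * cr w x 1 + v 2 * cr w x 2 = 0 := by
          rw [f1, f1, f1]
          have e9 := (hS v hv).2.2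
          rw [Fin.sum_univ_three] at e9
          linear_combination N0 w x * e9
        fin_cases j0 <;> fin_cases i <;> simp [cr] at hdet ⊢ <;>
          first
            | ring1
            | linear_combination hdet
      exact (mul_eq_zero.1 ((mul_eq_zero.1 key).resolve_left hνj)).resolve_left hD'0)).1 Q (by
      intro v hv w hw
      have e1 := hNe v hv w hw
      have f1 := hN0e v hv w hw j0
      have h1 := cr_le (hS v hv).2.1 (hS w hw).2.1 j0
      rw [f1, ← e1, abs_mul, abs_mul, hj0, Nat.abs_cast] at h1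
      have h2 : (N v w).natAbs * (D' * ht ν) ≤ 2 * A ^ 2 := by
        rw [Int.abs_eq_natAbs] at h1
        have h3 : (D' : ℤ) * ((N v w).natAbs : ℤ) * (ht ν : ℤ) ≤ 2 * (A : ℤ) ^ 2 := h1
        have h4 : D' * (N v w).natAbs * ht ν ≤ 2 * A ^ 2 := by exact_mod_cast h3
        calc (N v w).natAbs * (D' * ht ν) = D' * (N v w).natAbs * ht ν := by ring
          _ ≤ _ := h4
      have h5 : (N v w).natAbs ≤ Q := (Nat.le_div_iff_mul_le (by positivity)).2 h2
      rw [Int.abs_eq_natAbs]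
      exact_mod_cast h5)
  have hQr : (Q : ℝ) ≤ 2 * K * (A : ℝ) ^ 2 / (D * ht ν) := by
    have hνr : (1 : ℝ) ≤ ht ν := by exact_mod_cast hν0
    have hDr : (1 : ℝ) ≤ D := by exact_mod_cast hD
    have hD'r : (1 : ℝ) ≤ D' := by exact_mod_cast hD'1
    have h1 : (Q : ℝ) ≤ ((2 * A ^ 2 : ℕ) : ℝ) / ((D' * ht ν : ℕ) : ℝ) := Nat.cast_div_le
    refine h1.trans ?_
    push_cast
    rw [div_le_div_iff₀ (by positivity) (by positivity)]
    have h2 : (D : ℝ) ≤ K * D' := by
      have h3 : D ≤ K * D' := by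
        calc D = g * D' := hgD.symm
          _ ≤ K * D' := Nat.mul_le_mul_right _ (Nat.le_of_dvd hK (Nat.gcd_dvd_right D K))
      exact_mod_cast h3
    calc 2 * (A : ℝ) ^ 2 * (D * ht ν) ≤ 2 * (A : ℝ) ^ 2 * ((K * D') * ht ν) := by gcongr
      _ = 2 * K * (A : ℝ) ^ 2 * (D' * ht ν) := by ring
  have h9 : (S.card : ℝ) ≤ 4 * Q + 2 := by exact_mod_cast hmain
  calc (S.card : ℝ) ≤ 4 * Q + 2 := h9
    _ ≤ 4 * (2 * K * (A : ℝ) ^ 2 / (D * ht ν)) + 2 := by linarith
    _ = _ := by ring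

end Pool.Agent.K1H88.NC
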