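import Mathlib
import Pool.Agent.H548.WM.Core
import Pool.Agent.H548.BL.Main
import Pool.Agent.K1H88.NC.Pln

/-!
# Nets of conics: the parameters of the conics through a given point
-/

set_option autoImplicit false

namespace Pool.Agent.K1H88.NC

open Matrix Finset
open Pool.Agent.R38.NC (gm qf cq Smooth Prim rep_prim rep_neg PP)
open Pool.Agent.H548.WM (ht bx Rep mem_bx le_ht' exists_ht norm_cast exists_gcd card_bx ht_le ht_pos
  card_bx_le)

theorem cq_smul {R : Type*} [CommRing R] (M : Fin 3 → Matrix (Fin 3) (Fin 3) ℤ) (a : R)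
    (x : Fin 3 → R) (k : Fin 3) : cq M (a • x) k = a ^ 2 * cq M x k := by
  simp [cq, qf, dotProduct, mulVec, Fin.sum_univ_three]
  ring

/-- the size of the values of the three quadratic forms -/
theorem size {M : Fin 3 → Matrix (Fin 3) (Fin 3) ℤ} (hb : Bpf M) :
    ∃ c : ℝ, 0 < c ∧ ∀ x : Fin 3 → ℤ, x ≠ 0 → ∃ k, c * (ht x : ℝ) ^ 2 ≤ |((cq M x k : ℤ) : ℝ)| := by
  set S : Set (Fin 3 → ℝ) := Metric.sphere (0 : Fin 3 → ℝ) 1 with hS
  have hne : S.Nonempty := by
    refine ⟨fun _ => 1, ?_⟩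
    simp [hS]
  have hcont : Continuous fun x : Fin 3 → ℝ => ‖cq M x‖ := by
    refine continuous_norm.comp (continuous_pi fun k => ?_)
    simp only [cq, qf, dotProduct, mulVec, Fin.sum_univ_three]
    fun_prop
  obtain ⟨x₀, hx₀, hmin⟩ := (isCompact_sphere (0 : Fin 3 → ℝ) 1).exists_isMinOn hne
    hcont.continuousOn
  have hx0 : x₀ ≠ 0 := by
    intro h
    rw [h] at hx₀
    simp at hx₀
  have hpos : 0 < ‖cq M x₀‖ := by
    rw [norm_pos_iff]
    intro h
    have h1 : (fun i => ((x₀ i : ℝ) : ℂ)) ≠ 0 := by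
      intro h'
      apply hx0
      funext i
      have := congrFun h' i
      simpa using this
    obtain ⟨i, hi⟩ := hb _ h1
    apply hi
    have h2 := map_cq Complex.ofRealHom M x₀ i
    simp only [Complex.ofRealHom_eq_coe] at h2
    rw [← h2, h]
    simp
  refine ⟨‖cq M x₀‖, hpos, ?_⟩
  intro x hx
  have hh : 1 ≤ ht x := ht_pos hx
  have hhr : (1 : ℝ) ≤ ht x := by exact_mod_cast hh
  set xr : Fin 3 → ℝ := fun i => (x i : ℝ) with hxr
  have hnorm : ‖xr‖ = ht x := norm_cast x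
  set y : Fin 3 → ℝ := ((ht x : ℝ)⁻¹) • xr with hy
  have hy1 : y ∈ Metric.sphere (0 : Fin 3 → ℝ) 1 := by
    rw [mem_sphere_iff_norm, sub_zero, hy, norm_smul, hnorm, norm_inv, Real.norm_natCast]
    field_simp
  have h1 : ‖cq M x₀‖ ≤ ‖cq M y‖ := hmin hy1
  have h2 : cq M xr = ((ht x : ℝ) ^ 2) • cq M y := by
    have h3 : xr = (ht x : ℝ) • y := by
      rw [hy, smul_smul, mul_inv_cancel₀ (by positivity), one_smul]
    funext k
    rw [h3, cq_smul, Pi.smul_apply, smul_eq_mul]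
  have h4 : ‖cq M x₀‖ * (ht x : ℝ) ^ 2 ≤ ‖cq M xr‖ := by
    rw [h2, norm_smul, norm_pow, Real.norm_natCast, mul_comm]
    exact mul_le_mul_of_nonneg_left h1 (by positivity)
  by_contra hcon
  push Not at hcon
  have h5 : ‖cq M xr‖ < ‖cq M x₀‖ * (ht x : ℝ) ^ 2 := by
    rw [pi_norm_lt_iff (by positivity)]
    intro k
    have h6 := hcon k
    have h7 := map_cq (Int.castRingHom ℝ) M x k
    simp only [eq_intCast] at h7
    rw [Real.norm_eq_abs, ← h7]
    exact h6
  linarith

/-- the sum of the inverse squares of the heights -/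
theorem sumht (B : ℕ) (hB : 1 ≤ B) :
    ∑ x ∈ (bx 3 B).filter (fun x => x ≠ 0), 1 / (ht x : ℝ) ^ 2 ≤ 26 * (B : ℝ) := by
  classical
  have hmaps : ∀ x ∈ (bx 3 B).filter (fun x => x ≠ 0), ht x ∈ Finset.Icc 1 B := by
    intro x hx
    rw [mem_filter, mem_bx] at hx
    rw [Finset.mem_Icc]
    exact ⟨ht_pos hx.2, hx.1⟩
  rw [← Finset.sum_fiberwise_of_maps_to hmaps]
  calc ∑ k ∈ Finset.Icc 1 B, ∑ x ∈ ((bx 3 B).filter (fun x => x ≠ 0)).filter (fun x => ht x = k),
        1 / (ht x : ℝ) ^ 2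
      ≤ ∑ k ∈ Finset.Icc 1 B, (26 : ℝ) := by
        refine Finset.sum_le_sum fun k hk => ?_
        rw [Finset.mem_Icc] at hk
        have hk1 : (1 : ℝ) ≤ k := by exact_mod_cast hk.1
        have h1 : ∑ x ∈ ((bx 3 B).filter (fun x => x ≠ 0)).filter (fun x => ht x = k),
            1 / (ht x : ℝ) ^ 2 =
            (((bx 3 B).filter (fun x => x ≠ 0)).filter (fun x => ht x = k)).card *
              (1 / (k : ℝ) ^ 2) := by
          rw [← nsmul_eq_mul, ← Finset.sum_const]
          refine Finset.sum_congr rfl fun x hx => ?_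
          rw [(Finset.mem_filter.1 hx).2]
        have h2 : (((bx 3 B).filter (fun x => x ≠ 0)).filter (fun x => ht x = k)).card +
            (bx 3 (k - 1)).card ≤ (bx 3 k).card := by
          rw [← Finset.card_union_of_disjoint]
          · apply Finset.card_le_card
            intro x hx
            rw [Finset.mem_union] at hx
            rw [mem_bx]
            rcases hx with hx | hx
            · exact (Finset.mem_filter.1 hx).2.le
            · rw [mem_bx] at hx
              omega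
          · rw [Finset.disjoint_left]
            intro x hx hx'
            rw [mem_bx] at hx'
            have := (Finset.mem_filter.1 hx).2
            omega
        rw [card_bx, card_bx] at h2
        have h3 : (((bx 3 B).filter (fun x => x ≠ 0)).filter (fun x => ht x = k)).card ≤
            26 * k ^ 2 := by
          obtain ⟨j, rfl⟩ : ∃ j, k = j + 1 := ⟨k - 1, by omega⟩
          rw [Nat.add_sub_cancel] at h2
          nlinarith
        rw [h1, mul_one_div, div_le_iff₀ (by positivity)]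
        exact_mod_cast h3
    _ = 26 * B := by
        rw [Finset.sum_const, Nat.card_Icc, nsmul_eq_mul]
        push_cast
        ring

theorem lat_ {M : Fin 3 → Matrix (Fin 3) (Fin 3) ℤ} (hb : Bpf M) :
    ∃ C : ℝ, 0 ≤ C ∧ ∀ A B : ℕ, 1 ≤ A → 1 ≤ B →
    ((PP M A B).card : ℝ) ≤ C * ((B : ℝ) ^ 3 + (A : ℝ) ^ 2 * B) := by
  classical
  obtain ⟨c, hc, hsize⟩ := size hb
  obtain ⟨K, hK1, hK⟩ := nstC hb
  have hKr : (1 : ℝ) ≤ K := by exact_mod_cast hK1
  refine ⟨8 * K / c * 26 + 54, by positivity, ?_⟩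
  intro A B hA hB
  have hA1 : (1 : ℝ) ≤ A := by exact_mod_cast hA
  have hB1 : (1 : ℝ) ≤ B := by exact_mod_cast hB
  set T := (bx 3 B).filter (fun x => x ≠ 0 ∧ Rep x) with hT
  have hsub : PP M A B ⊆ T.biUnion fun x =>
      ((bx 3 A).filter fun t => Rep t ∧ ∑ i, cq M x i * t i = 0).image fun t => (t, x) := by
    rintro ⟨t, x⟩ hx
    unfold PP at hx
    rw [mem_filter, mem_product] at hx
    obtain ⟨⟨e1, e2⟩, e3, e4, e5, e6⟩ := hx
    rw [mem_biUnion]
    refine ⟨x, ?_, ?_⟩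
    · rw [hT, mem_filter]
      refine ⟨e2, ?_, e4⟩
      exact Pool.Agent.H548.BL.rep_ne e4
    · rw [mem_image]
      refine ⟨t, ?_, rfl⟩
      rw [mem_filter]
      refine ⟨e1, e3, ?_⟩
      rw [qf_gm] at e5
      rw [← e5, dotProduct]
      exact Finset.sum_congr rfl fun i _ => mul_comm _ _
  have hone : ∀ x ∈ T, ((((bx 3 A).filter fun t => Rep t ∧ ∑ i, cq M x i * t i = 0).card : ℕ) : ℝ)
      ≤ 8 * K / c * (A : ℝ) ^ 2 * (1 / (ht x : ℝ) ^ 2) + 2 := by
    intro x hx
    rw [hT, mem_filter] at hx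
    obtain ⟨hx1, hx0, hxr⟩ := hx
    have hh : (1 : ℝ) ≤ ht x := by exact_mod_cast ht_pos hx0
    obtain ⟨k, hk⟩ := hsize x hx0
    have hck : cq M x k ≠ 0 := by
      intro h
      rw [h] at hk
      have : 0 < c * (ht x : ℝ) ^ 2 := by positivity
      simp at hk
      linarith
    obtain ⟨g, u, hg1, hu, hg⟩ := exists_gcd (cq M x) ⟨k, hck⟩
    choose ν hν using hg
    have hg0 : (g : ℤ) ≠ 0 := by positivity
    have hgr : (1 : ℝ) ≤ g := by exact_mod_cast hg1
    have hνp : Prim ν := by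
      intro d hd
      have h1 : (g : ℤ) * d ∣ ∑ k, u k * cq M x k := by
        apply Finset.dvd_sum
        intro i _
        rw [hν i]
        exact Dvd.dvd.mul_left (mul_dvd_mul dvd_rfl (hd i)) _
      rw [hu] at h1
      have h2 : (g : ℤ) * d ∣ (g : ℤ) * 1 := by rw [mul_one]; exact h1
      exact isUnit_of_dvd_one ((mul_dvd_mul_iff_left hg0).1 h2)
    have hgK : (g : ℝ) ≤ K := by
      have h1 := hK x (rep_prim hxr) g (fun i => by rw [hν i]; exact Dvd.intro _ rfl)
      have h2 : g ∣ K := by exact_mod_cast h1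
      exact_mod_cast Nat.le_of_dvd hK1 h2
    have h1 := plane ν hνp ((bx 3 A).filter fun t => Rep t ∧ ∑ i, cq M x i * t i = 0) A 1 1
      le_rfl le_rfl (by
        intro t ht'
        rw [mem_filter, mem_bx] at ht'
        refine ⟨ht'.2.1, ht'.1, ?_⟩
        have h2 := ht'.2.2
        have h3 : (g : ℤ) * ∑ i, ν i * t i = 0 := by
          rw [Finset.mul_sum, ← h2]
          exact Finset.sum_congr rfl fun i _ => by rw [hν i]; ring
        exact (mul_eq_zero.1 h3).resolve_left hg0) (by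
        intro t _ t' _ k
        simp)
    refine h1.trans ?_
    have h2 : c * (ht x : ℝ) ^ 2 ≤ K * ht ν := by
      refine hk.trans ?_
      rw [hν k]
      push_cast
      rw [abs_mul, abs_of_nonneg (by positivity)]
      have h3 : |(ν k : ℝ)| ≤ ht ν := by exact_mod_cast le_ht' ν k
      exact mul_le_mul hgK h3 (abs_nonneg _) (by positivity)
    have h0 : 0 < c * (ht x : ℝ) ^ 2 := by positivity
    have hν0 : (0 : ℝ) < ht ν := by
      by_contra hcon
      push Not at hcon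
      have h3 : (K : ℝ) * ht ν ≤ 0 := mul_nonpos_of_nonneg_of_nonpos (by positivity) hcon
      linarith
    push_cast
    have h4 : 8 * 1 * (A : ℝ) ^ 2 / (1 * ht ν) ≤ 8 * K / c * (A : ℝ) ^ 2 * (1 / (ht x : ℝ) ^ 2) := by
      rw [one_mul, mul_one]
      have h5 : 8 * K / c * (A : ℝ) ^ 2 * (1 / (ht x : ℝ) ^ 2) =
          8 * (A : ℝ) ^ 2 * K / (c * (ht x : ℝ) ^ 2) := by
        field_simp
      rw [h5, div_le_div_iff₀ hν0 h0]
      calc 8 * (A : ℝ) ^ 2 * (c * (ht x : ℝ) ^ 2) ≤ 8 * (A : ℝ) ^ 2 * (K * ht ν) := by gcongr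
        _ = _ := by ring
    linarith
  have hTc : (T.card : ℝ) ≤ 27 * (B : ℝ) ^ 3 := by
    have h4 := card_bx_le 3 hB
    have h5 : (T.card : ℝ) ≤ ((bx 3 B).card : ℝ) := by
      exact_mod_cast Finset.card_le_card (Finset.filter_subset _ _)
    calc (T.card : ℝ) ≤ (3 * (B : ℝ)) ^ 3 := h5.trans h4
      _ = 27 * (B : ℝ) ^ 3 := by ring
  have hTs : ∑ x ∈ T, (1 / (ht x : ℝ) ^ 2) ≤ 26 * (B : ℝ) := by
    refine le_trans ?_ (sumht B hB)
    refine Finset.sum_le_sum_of_subset_of_nonneg ?_ fun t _ _ => by positivity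
    intro t ht'
    rw [hT, mem_filter] at ht'
    rw [mem_filter]
    exact ⟨ht'.1, ht'.2.1⟩
  calc ((PP M A B).card : ℝ)
      ≤ ((T.biUnion fun x => ((bx 3 A).filter fun t => Rep t ∧ ∑ i, cq M x i * t i = 0).image
          fun t => (t, x)).card : ℝ) := by exact_mod_cast Finset.card_le_card hsub
    _ ≤ ∑ x ∈ T, ((((bx 3 A).filter fun t => Rep t ∧ ∑ i, cq M x i * t i = 0).card : ℕ) : ℝ) := by
        have e1 := Finset.card_biUnion_le (s := T) (t := fun x =>
          ((bx 3 A).filter fun t => Rep t ∧ ∑ i, cq M x i * t i = 0).image fun t => (t, x))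
        have e2 := e1.trans (Finset.sum_le_sum fun x _ => Finset.card_image_le)
        exact_mod_cast e2
    _ ≤ ∑ x ∈ T, (8 * K / c * (A : ℝ) ^ 2 * (1 / (ht x : ℝ) ^ 2) + 2) :=
        Finset.sum_le_sum hone
    _ = 8 * K / c * (A : ℝ) ^ 2 * (∑ x ∈ T, (1 / (ht x : ℝ) ^ 2)) + 2 * T.card := by
        rw [Finset.sum_add_distrib, ← Finset.mul_sum, Finset.sum_const, nsmul_eq_mul]
        ring
    _ ≤ 8 * K / c * (A : ℝ) ^ 2 * (26 * B) + 2 * (27 * (B : ℝ) ^ 3) := by gcongr
    _ ≤ (8 * K / c * 26 + 54) * ((B : ℝ) ^ 3 + (A : ℝ) ^ 2 * B) := by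
        have e1 : 0 ≤ 8 * K / c * 26 * (B : ℝ) ^ 3 := by positivity
        have e2 : 0 ≤ 54 * ((A : ℝ) ^ 2 * B) := by positivity
        nlinarith

end Pool.Agent.K1H88.NC
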