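import Mathlib
import Pool.Agent.K1H88.NC.Lat

/-!
# Nets of conics: the number of lines with a given direction
-/

set_option autoImplicit false

namespace Pool.Agent.K1H88.NC

open Matrix Finset
open Pool.Agent.R38.NC (gm qf cq Smooth Prim rep_prim rep_neg PP)
open Pool.Agent.H548.WM (ht bx Rep mem_bx le_ht' exists_ht exists_gcd ht_le ht_pos)

theorem par_eq {R : Type*} [CommRing R] (t b : Fin 3 → R) (h : cr t b = 0) (k : Fin 3) :
    b k • t = t k • b := by
  have e0 := congrFun h 0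
  have e1 := congrFun h 1
  have e2 := congrFun h 2
  simp [cr] at e0 e1 e2
  funext i
  fin_cases k <;> fin_cases i <;> simp <;>
    first
      | ring1
      | linear_combination e0
      | linear_combination e1
      | linear_combination e2
      | linear_combination -e0
      | linear_combination -e1
      | linear_combination -e2

theorem cr_smul_smul {R : Type*} [CommRing R] (a b : R) (t s : Fin 3 → R) :
    cr (a • t) (b • s) = (a * b) • cr t s := by
  funext i
  fin_cases i <;> simp [cr] <;> ring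

/-- the size of a cross product -/
theorem cr_le2 {u v : Fin 3 → ℤ} {A B : ℕ} (hu : ht u ≤ A) (hv : ht v ≤ B) (k : Fin 3) :
    |cr u v k| ≤ 2 * ((A : ℤ) * B) := by
  have h1 : ∀ i, |u i| ≤ (A : ℤ) := fun i => (le_ht' u i).trans (by exact_mod_cast hu)
  have h2 : ∀ i, |v i| ≤ (B : ℤ) := fun i => (le_ht' v i).trans (by exact_mod_cast hv)
  have h3 : ∀ i j, |u i * v j| ≤ (A : ℤ) * B := by
    intro i j
    rw [abs_mul]
    exact mul_le_mul (h1 i) (h2 j) (abs_nonneg _) (by positivity)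
  have h4 : ∀ i j k l, |u i * v j - u k * v l| ≤ 2 * ((A : ℤ) * B) := by
    intro i j k l
    have e1 := h3 i j
    have e2 := h3 k l
    have e3 := abs_sub (u i * v j) (u k * v l)
    linarith
  fin_cases k <;> exact h4 _ _ _ _

/-- a primitive vector in the direction of a given one -/
theorem prim_part (c : Fin 3 → ℤ) (hc : c ≠ 0) :
    ∃ (g : ℤ) (ν : Fin 3 → ℤ), g ≠ 0 ∧ Prim ν ∧ c = g • ν := by
  obtain ⟨k, hk⟩ := Function.ne_iff.1 hc
  obtain ⟨g, u, hg1, hu, hg⟩ := exists_gcd c ⟨k, hk⟩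
  choose ν hν using hg
  have hg0 : (g : ℤ) ≠ 0 := by positivity
  refine ⟨g, ν, hg0, ?_, funext fun i => hν i⟩
  intro d hd
  have h1 : (g : ℤ) * d ∣ ∑ k, u k * c k := by
    apply Finset.dvd_sum
    intro i _
    rw [hν i]
    exact Dvd.dvd.mul_left (mul_dvd_mul dvd_rfl (hd i)) _
  rw [hu] at h1
  have h2 : (g : ℤ) * d ∣ (g : ℤ) * 1 := by rw [mul_one]; exact h1
  exact isUnit_of_dvd_one ((mul_dvd_mul_iff_left hg0).1 h2)

theorem dot_cr (b t t' : Fin 3 → ℤ) : ∑ i, cr t' b i * t i = ∑ i, b i * cr t t' i := by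
  simp [cr, Fin.sum_univ_three]
  ring

theorem br_eq (b v t t' : Fin 3 → ℤ) (hv : ∑ i, v i * b i = 1) :
    ∑ i, v i * cr (cr t b) (cr t' b) i = ∑ i, b i * cr t t' i := by
  have h1 : ∀ i, cr (cr t b) (cr t' b) i = (∑ j, b j * cr t t' j) * b i := by
    intro i
    fin_cases i <;> simp [cr, Fin.sum_univ_three] <;> ring
  simp only [h1]
  calc ∑ i, v i * ((∑ j, b j * cr t t' j) * b i) = (∑ j, b j * cr t t' j) * ∑ i, v i * b i := by
        rw [Finset.mul_sum]
        exact Finset.sum_congr rfl fun i _ => by ring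
    _ = _ := by rw [hv, mul_one]

/-- the number of points of a lattice of rank two in a box, in the form needed here -/
theorem count2 (b v : Fin 3 → ℤ) (hv : ∑ i, v i * b i = 1) (W : Finset (Fin 3 → ℤ)) (A D : ℕ)
    (hD : 1 ≤ D) (hA : 1 ≤ A) (hWb : ∀ w ∈ W, ∑ i, b i * w i = 0)
    (hWA : ∀ w ∈ W, ht w ≤ 2 * A * ht b)
    (hbr : ∀ w ∈ W, ∀ w' ∈ W, (D : ℤ) ∣ ∑ i, v i * cr w w' i)
    (hne : ∃ w ∈ W, ∃ w' ∈ W, ∑ i, v i * cr w w' i ≠ 0) :
    (W.card : ℝ) ≤ 120 * (A : ℝ) ^ 2 * ht b / D := by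
  classical
  set Γ := AddSubgroup.closure (W : Set (Fin 3 → ℤ)) with hΓ
  have hWΓ : ∀ w ∈ W, w ∈ Γ := fun w hw => AddSubgroup.subset_closure hw
  -- bilinearity
  set br : (Fin 3 → ℤ) → (Fin 3 → ℤ) → ℤ := fun x y => ∑ i, v i * cr x y i with hbrd
  have br_add : ∀ x y z, br (x + y) z = br x z + br y z := by
    intro x y z
    simp [hbrd, cr, Fin.sum_univ_three]
    ring
  have br_neg : ∀ x z, br (-x) z = - br x z := by
    intro x z
    simp [hbrd, cr, Fin.sum_univ_three]
    ring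
  have br_sub : ∀ x y z, br (x - y) z = br x z - br y z := by
    intro x y z
    rw [sub_eq_add_neg, br_add, br_neg]
    ring
  have br_anti : ∀ x z, br x z = - br z x := by
    intro x z
    simp [hbrd, cr, Fin.sum_univ_three]
    ring
  have br_zero : ∀ z, br 0 z = 0 := by
    intro z
    simp [hbrd, cr, Fin.sum_univ_three]
  have hΓW : ∀ x ∈ Γ, ∀ w ∈ W, (D : ℤ) ∣ br x w := by
    intro x hx w hw
    induction hx using AddSubgroup.closure_induction with
    | mem y hy => exact hbr y hy w hw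
    | zero => rw [br_zero]; exact dvd_zero _
    | add y z _ _ h1 h2 => rw [br_add]; exact dvd_add h1 h2
    | neg y _ h1 => rw [br_neg]; exact (dvd_neg).2 h1
  have hΓb : ∀ x ∈ Γ, ∑ i, b i * x i = 0 := by
    intro x hx
    induction hx using AddSubgroup.closure_induction with
    | mem y hy => exact hWb y hy
    | zero => simp
    | add y z _ _ h1 h2 =>
      simp only [Pi.add_apply, mul_add, Finset.sum_add_distrib, h1, h2, add_zero]
    | neg y _ h1 => simp only [Pi.neg_apply, mul_neg, Finset.sum_neg_distrib, h1, neg_zero]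
  have hcrb : ∀ x ∈ Γ, ∀ y ∈ Γ, ∀ i, cr x y i = br x y * b i := by
    intro x hx y hy i
    have e1 := hΓb x hx
    have e2 := hΓb y hy
    rw [Fin.sum_univ_three] at e1 e2
    obtain ⟨s, hs⟩ := rep_of_dvd b (cr x y) v hv 0 (by
      intro k
      have : cr b (cr x y) k = 0 := by
        fin_cases k
        · simp [cr]
          linear_combination x 0 * e2 - y 0 * e1
        · simp [cr]
          linear_combination x 1 * e2 - y 1 * e1
        · simp [cr]
          linear_combination x 2 * e2 - y 2 * e1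
      rw [this])
    rw [hs i, zero_mul, add_zero]
  obtain ⟨w1, hw1, w2, hw2, hw12⟩ := hne
  have hw10 : w1 ≠ 0 := by
    intro h
    apply hw12
    rw [h]
    exact br_zero w2
  -- the shortest vector
  have hexm : ∃ n, ∃ x ∈ Γ, x ≠ 0 ∧ ht x = n := ⟨_, w1, hWΓ w1 hw1, hw10, rfl⟩
  obtain ⟨γ, hγ, hγ0, hγn⟩ := Nat.find_spec hexm
  set lam := Nat.find hexm with hlam
  have hmin : ∀ x ∈ Γ, ht x < lam → x = 0 := by
    intro x hx hlt
    by_contra h
    exact Nat.find_min hexm hlt ⟨x, hx, h, rfl⟩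
  have hlam1 : 1 ≤ lam := by rw [← hγn]; exact ht_pos hγ0
  obtain ⟨k, hk⟩ := exists_ht (by norm_num : 0 < 3) γ
  rw [hγn] at hk
  have hγk : γ k ≠ 0 := by
    intro h
    rw [h, abs_zero] at hk
    have : lam = 0 := by exact_mod_cast hk.symm
    omega
  -- some bracket is not zero
  have hex3 : ∃ w3 ∈ W, br w3 γ ≠ 0 := by
    by_contra hcon
    push Not at hcon
    have h1 : ∀ w ∈ W, γ k • w = w k • γ := by
      intro w hw
      apply par_eq
      funext i
      rw [hcrb w (hWΓ w hw) γ hγ i, hcon w hw, zero_mul]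
      rfl
    have h2 : (γ k * γ k) • cr w1 w2 = 0 := by
      rw [← cr_smul_smul, h1 w1 hw1, h1 w2 hw2, cr_smul_smul, cr_self, smul_zero]
    have h3 : cr w1 w2 = 0 := (smul_eq_zero.1 h2).resolve_left (mul_ne_zero hγk hγk)
    apply hw12
    rw [h3]
    simp
  obtain ⟨w3, hw3, hw3γ⟩ := hex3
  -- divisibility of the brackets with the shortest vector
  have hdγ : ∀ w ∈ W, (D : ℤ) ∣ br w γ := by
    intro w hw
    rw [br_anti]
    exact (dvd_neg).2 (hΓW γ hγ w hw)
  have hb0 : 1 ≤ ht b := by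
    apply ht_pos
    intro h
    rw [h] at hv
    simp at hv
  obtain ⟨j, hj⟩ := exists_ht (by norm_num : 0 < 3) b
  have hbrle : ∀ w ∈ W, |br w γ| ≤ 4 * (A : ℤ) * lam := by
    intro w hw
    have h1 := cr_le2 (hWA w hw) (le_of_eq hγn) j
    rw [hcrb w (hWΓ w hw) γ hγ j, abs_mul, hj] at h1
    have h2 : |br w γ| * (ht b : ℤ) ≤ (4 * (A : ℤ) * lam) * (ht b : ℤ) := by
      refine h1.trans (le_of_eq ?_)
      push_cast
      ring
    exact le_of_mul_le_mul_right h2 (by exact_mod_cast hb0)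
  -- the injection
  set W0 : ℕ := 2 * A * ht b with hW0
  set a1 : ℕ := 4 * A * lam / D with ha1
  set a2 : ℕ := W0 / lam + 1 with ha2
  set F : (Fin 3 → ℤ) → ℤ × ℤ := fun w => (br w γ / D, w k / lam) with hF
  have hmaps : ∀ w ∈ W, F w ∈ (Finset.Icc (-(a1 : ℤ)) a1) ×ˢ (Finset.Icc (-(a2 : ℤ)) a2) := by
    intro w hw
    rw [Finset.mem_product, Finset.mem_Icc, Finset.mem_Icc]
    have hDz : (0 : ℤ) < D := by exact_mod_cast hD
    have hlz : (0 : ℤ) < lam := by exact_mod_cast hlam1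
    constructor
    · rw [← abs_le]
      obtain ⟨m, hm⟩ := hdγ w hw
      have h1 : br w γ / D = m := by
        rw [hm, Int.mul_ediv_cancel_left _ hDz.ne']
      simp only [hF]
      rw [h1]
      have h2 := hbrle w hw
      rw [hm, abs_mul, Nat.abs_cast] at h2
      have h3 : |m| = (m.natAbs : ℤ) := Int.abs_eq_natAbs m
      rw [h3] at h2 ⊢
      have h4 : D * m.natAbs ≤ 4 * A * lam := by exact_mod_cast h2
      have h5 : m.natAbs ≤ a1 := by
        rw [ha1, Nat.le_div_iff_mul_le hD]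
        linarith
      exact_mod_cast h5
    · have h1 : |w k| ≤ (W0 : ℤ) := (le_ht' w k).trans (by exact_mod_cast hWA w hw)
      rw [abs_le] at h1
      have h2 : (W0 : ℤ) < lam * a2 := by
        have : W0 < lam * (W0 / lam + 1) := Nat.lt_mul_div_succ W0 hlam1
        rw [ha2]
        exact_mod_cast this
      constructor
      · simp only [hF]
        rw [Int.le_ediv_iff_mul_le hlz]
        nlinarith
      · simp only [hF]
        have h3 : w k / lam < a2 := Int.ediv_lt_of_lt_mul hlz (by nlinarith)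
        exact h3.le
  have hinj : Set.InjOn F (W : Set (Fin 3 → ℤ)) := by
    intro w hw w' hw' h
    rw [Finset.mem_coe] at hw hw'
    obtain ⟨h1, h2⟩ := Prod.mk.inj h
    have hδ : w - w' ∈ Γ := Γ.sub_mem (hWΓ w hw) (hWΓ w' hw')
    have hb1 : br w γ = br w' γ := by
      rw [← Int.ediv_mul_cancel (hdγ w hw), ← Int.ediv_mul_cancel (hdγ w' hw'), h1]
    have hb2 : br (w - w') γ = 0 := by rw [br_sub, hb1, sub_self]
    have hpar : γ k • (w - w') = (w - w') k • γ := by
      apply par_eq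
      funext i
      rw [hcrb _ hδ γ hγ i, hb2, zero_mul]
      rfl
    have hlz : (0 : ℤ) < lam := by exact_mod_cast hlam1
    have hsmall : |(w - w') k| < lam := by
      have e1 := Int.emod_add_mul_ediv (w k) lam
      have e2 := Int.emod_add_mul_ediv (w' k) lam
      have e3 := Int.emod_nonneg (w k) hlz.ne'
      have e4 := Int.emod_nonneg (w' k) hlz.ne'
      have e5 := Int.emod_lt_of_pos (w k) hlz
      have e6 := Int.emod_lt_of_pos (w' k) hlz
      rw [Pi.sub_apply, abs_lt]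
      rw [h2] at e1
      constructor <;> linarith
    have hht : ht (w - w') < lam := by
      obtain ⟨i, hi⟩ := exists_ht (by norm_num : 0 < 3) (w - w')
      have h3 := congrFun hpar i
      simp only [Pi.smul_apply, smul_eq_mul] at h3
      have h4 : (lam : ℤ) * |(w - w') i| = |(w - w') k| * |γ i| := by
        rw [← hk, ← abs_mul, ← abs_mul, h3]
      have h5 : |γ i| ≤ (lam : ℤ) := by
        rw [← hγn]
        exact le_ht' γ i
      have h6 : (lam : ℤ) * |(w - w') i| ≤ (lam : ℤ) * |(w - w') k| := by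
        rw [h4, mul_comm]
        exact mul_le_mul_of_nonneg_right h5 (abs_nonneg _)
      have h7 : |(w - w') i| ≤ |(w - w') k| := le_of_mul_le_mul_left h6 hlz
      rw [hi] at h7
      have : (ht (w - w') : ℤ) < lam := lt_of_le_of_lt h7 hsmall
      exact_mod_cast this
    exact sub_eq_zero.1 (hmin _ hδ hht)
  have hcard : W.card ≤ (2 * a1 + 1) * (2 * a2 + 1) := by
    have h1 := Finset.card_le_card_of_injOn F hmaps hinj
    rw [Finset.card_product, Int.card_Icc, Int.card_Icc] at h1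
    refine h1.trans (le_of_eq ?_)
    congr 1 <;> omega
  -- the final inequality
  have hDr : (1 : ℝ) ≤ D := by exact_mod_cast hD
  have hAr : (1 : ℝ) ≤ A := by exact_mod_cast hA
  have hlr : (1 : ℝ) ≤ lam := by exact_mod_cast hlam1
  have hbr0 : (1 : ℝ) ≤ ht b := by exact_mod_cast hb0
  have hDle : (D : ℝ) ≤ 4 * A * lam := by
    obtain ⟨m, hm⟩ := hdγ w3 hw3
    have h2 := hbrle w3 hw3
    have h3 : (D : ℤ) ≤ |br w3 γ| := by
      rw [hm, abs_mul, Nat.abs_cast]
      have h4 : 1 ≤ |m| := by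
        apply Int.one_le_abs
        intro h
        apply hw3γ
        rw [hm, h, mul_zero]
      nlinarith
    have h5 : (D : ℤ) ≤ 4 * (A : ℤ) * lam := h3.trans h2
    exact_mod_cast h5
  have hlW : (lam : ℝ) ≤ W0 := by
    have h1 : lam ≤ ht w1 := Nat.find_min' hexm ⟨w1, hWΓ w1 hw1, hw10, rfl⟩
    exact_mod_cast h1.trans (hWA w1 hw1)
  have ha1r : (a1 : ℝ) ≤ 4 * A * lam / D := by
    have := Nat.cast_div_le (α := ℝ) (m := 4 * A * lam) (n := D)
    rw [ha1]
    refine this.trans (le_of_eq ?_)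
    push_cast
    ring
  have ha2r : (a2 : ℝ) ≤ W0 / lam + 1 := by
    have := Nat.cast_div_le (α := ℝ) (m := W0) (n := lam)
    rw [ha2]
    push_cast
    linarith
  set X : ℝ := 4 * A * lam / D with hX
  set Y : ℝ := (W0 : ℝ) / lam with hY
  have hX1 : 1 ≤ X := by
    rw [hX, le_div_iff₀ (by linarith)]
    linarith
  have hY1 : 1 ≤ Y := by
    rw [hY, le_div_iff₀ (by linarith)]
    linarith
  have hfin : (W.card : ℝ) ≤ (2 * (a1 : ℝ) + 1) * (2 * (a2 : ℝ) + 1) := by exact_mod_cast hcard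
  calc (W.card : ℝ) ≤ (2 * (a1 : ℝ) + 1) * (2 * (a2 : ℝ) + 1) := hfin
    _ ≤ (2 * X + 1) * (2 * (Y + 1) + 1) := by gcongr
    _ ≤ (3 * X) * (5 * Y) := by
        have h1 : 2 * X + 1 ≤ 3 * X := by linarith
        have h2 : 2 * (Y + 1) + 1 ≤ 5 * Y := by linarith
        gcongr
    _ = 15 * (X * Y) := by ring
    _ = 15 * (8 * (A : ℝ) ^ 2 * ht b / D) := by
        rw [hX, hY, hW0]
        push_cast
        field_simp
        ring
    _ = 120 * (A : ℝ) ^ 2 * ht b / D := by ring

theorem red_dvd (D K : ℕ) (hD : 1 ≤ D) (hK : 1 ≤ K) : ∃ D' : ℕ, 1 ≤ D' ∧ D ≤ K * D' ∧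
    ∀ x : ℤ, (D : ℤ) ∣ (K : ℤ) * x → (D' : ℤ) ∣ x := by
  set g := Nat.gcd D K with hg
  have hg1 : 1 ≤ g := Nat.gcd_pos_of_pos_left _ hD
  have hgD : g * (D / g) = D := Nat.mul_div_cancel' (Nat.gcd_dvd_left D K)
  refine ⟨D / g, ?_, ?_, ?_⟩
  · rw [Nat.one_le_iff_ne_zero]
    intro h
    rw [h, mul_zero] at hgD
    omega
  · calc D = g * (D / g) := hgD.symm
      _ ≤ K * (D / g) := Nat.mul_le_mul_right _ (Nat.le_of_dvd hK (Nat.gcd_dvd_right D K))
  · intro x hx
    obtain ⟨K', hK'⟩ := Nat.gcd_dvd_right D K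
    have e2 : ((g : ℕ) : ℤ) * ((D / g : ℕ) : ℤ) ∣ ((g : ℕ) : ℤ) * ((K' : ℤ) * x) := by
      have e3 : ((g : ℕ) : ℤ) * ((D / g : ℕ) : ℤ) = D := by exact_mod_cast hgD
      have e4 : ((g : ℕ) : ℤ) * (K' : ℤ) = K := by exact_mod_cast hK'.symm
      rw [e3, ← mul_assoc, e4]
      exact hx
    have hg0 : ((g : ℕ) : ℤ) ≠ 0 := by positivity
    have e5 := (mul_dvd_mul_iff_left hg0).1 e2
    have e6 : IsCoprime ((D / g : ℕ) : ℤ) (K' : ℤ) := by
      rw [Nat.isCoprime_iff_coprime]
      have e7 := Nat.coprime_div_gcd_div_gcd (m := D) (n := K) hg1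
      have e8 : K / g = K' := by
        rw [← hg] at hK'
        rw [hK', Nat.mul_div_cancel_left _ hg1]
      rw [← hg, e8] at e7
      exact e7
    exact e6.dvd_of_dvd_mul_left e5

/-- the number of lines with a given direction -/
theorem lines (b : Fin 3 → ℤ) (hb : Prim b) (C : Finset (Fin 3 → ℤ)) (A D K : ℕ) (hA : 1 ≤ A)
    (hD : 1 ≤ D) (hK : 1 ≤ K) (hC : ∀ t ∈ C, Rep t ∧ ht t ≤ A)
    (hdv : ∀ t ∈ C, ∀ t' ∈ C, ∀ k, (D : ℤ) ∣ (K : ℤ) * cr t t' k) :
    ((C.image fun t => cr t b).card : ℝ) ≤ 120 * K * (A : ℝ) ^ 2 * ht b / D + 2 := by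
  classical
  have hDr : (1 : ℝ) ≤ D := by exact_mod_cast hD
  have hKr : (1 : ℝ) ≤ K := by exact_mod_cast hK
  have hnn : 0 ≤ 120 * K * (A : ℝ) ^ 2 * ht b / D := by positivity
  by_cases h0 : ∀ t ∈ C, cr t b = 0
  · have h1 : (C.image fun t => cr t b) ⊆ {0} := by
      intro w hw
      obtain ⟨t, ht, rfl⟩ := Finset.mem_image.1 hw
      rw [Finset.mem_singleton]
      exact h0 t ht
    have h2 := Finset.card_le_card h1
    rw [Finset.card_singleton] at h2
    have h3 : ((C.image fun t => cr t b).card : ℝ) ≤ 1 := by exact_mod_cast h2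
    linarith
  push Not at h0
  obtain ⟨t1, ht1, hw1⟩ := h0
  obtain ⟨v, hv⟩ := bezout b hb
  have hbht : 1 ≤ ht b := by
    apply ht_pos
    intro h
    rw [h] at hv
    simp at hv
  have hbr : (1 : ℝ) ≤ ht b := by exact_mod_cast hbht
  by_cases h1 : ∀ t ∈ C, ∑ i, b i * cr t t1 i = 0
  · -- the vectors are in a plane
    obtain ⟨g, ν, hg, hν, hgν⟩ := prim_part (cr t1 b) hw1
    have h2 := plane ν hν C A D K hD hK (by
      intro t ht'
      refine ⟨(hC t ht').1, (hC t ht').2, ?_⟩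
      have h3 := dot_cr b t t1
      rw [h1 t ht', hgν] at h3
      have h4 : g * ∑ i, ν i * t i = 0 := by
        rw [Finset.mul_sum, ← h3]
        exact Finset.sum_congr rfl fun i _ => by
          rw [Pi.smul_apply, smul_eq_mul]
          ring
      exact (mul_eq_zero.1 h4).resolve_left hg) hdv
    have hν0 : 1 ≤ ht ν := by
      apply ht_pos
      intro h
      apply hw1
      rw [hgν, h, smul_zero]
    have hνr : (1 : ℝ) ≤ ht ν := by exact_mod_cast hν0
    have h3 : ((C.image fun t => cr t b).card : ℝ) ≤ C.card := by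
      exact_mod_cast Finset.card_image_le
    have h4 : 8 * K * (A : ℝ) ^ 2 / (D * ht ν) ≤ 120 * K * (A : ℝ) ^ 2 * ht b / D := by
      rw [div_le_div_iff₀ (by positivity) (by positivity)]
      have h5 : (1 : ℝ) ≤ ht b * ht ν := by nlinarith
      calc 8 * K * (A : ℝ) ^ 2 * D = 8 * (K * (A : ℝ) ^ 2 * D) * 1 := by ring
        _ ≤ 120 * (K * (A : ℝ) ^ 2 * D) * (ht b * ht ν) := by
            have h6 : 0 ≤ K * (A : ℝ) ^ 2 * D := by positivity
            nlinarith
        _ = 120 * K * (A : ℝ) ^ 2 * ht b * (D * ht ν) := by ring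
    linarith
  · push Not at h1
    obtain ⟨t2, ht2, h2⟩ := h1
    obtain ⟨D', hD'1, hD'D, hD'⟩ := red_dvd D K hD hK
    have h3 := count2 b v hv (C.image fun t => cr t b) A D' hD'1 hA (by
      intro w hw
      obtain ⟨t, -, rfl⟩ := Finset.mem_image.1 hw
      simp [cr, Fin.sum_univ_three]
      ring) (by
      intro w hw
      obtain ⟨t, ht', rfl⟩ := Finset.mem_image.1 hw
      apply ht_le
      intro k
      have h4 := cr_le2 (hC t ht').2 (le_refl (ht b)) k
      push_cast
      linarith) (by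
      intro w hw w' hw'
      obtain ⟨t, ht', rfl⟩ := Finset.mem_image.1 hw
      obtain ⟨t', ht'', rfl⟩ := Finset.mem_image.1 hw'
      rw [br_eq b v t t' hv]
      apply hD'
      rw [Finset.mul_sum]
      apply Finset.dvd_sum
      intro i _
      rw [mul_left_comm]
      exact Dvd.dvd.mul_left (hdv t ht' t' ht'' i) _) (by
      refine ⟨_, Finset.mem_image_of_mem _ ht2, _, Finset.mem_image_of_mem _ ht1, ?_⟩
      rw [br_eq b v t2 t1 hv]
      exact h2)
    have hD'r : (1 : ℝ) ≤ D' := by exact_mod_cast hD'1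
    have hDD : (D : ℝ) ≤ K * D' := by exact_mod_cast hD'D
    have h4 : 120 * (A : ℝ) ^ 2 * ht b / D' ≤ 120 * K * (A : ℝ) ^ 2 * ht b / D := by
      rw [div_le_div_iff₀ (by positivity) (by positivity)]
      calc 120 * (A : ℝ) ^ 2 * ht b * D ≤ 120 * (A : ℝ) ^ 2 * ht b * (K * D') := by gcongr
        _ = 120 * K * (A : ℝ) ^ 2 * ht b * D' := by ring
    linarith

end Pool.Agent.K1H88.NC
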