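import Mathlib
import Pool.Agent.K1H88.NC.Wn
import Pool.Agent.K1H88.NC.Lin

/-!
# Nets of conics: the sum over a class
-/

set_option autoImplicit false

namespace Pool.Agent.K1H88.NC

open Matrix Finset
open Pool.Agent.R38.NC (gm qf cq Smooth Prim rep_prim rep_neg PP)
open Pool.Agent.R38.NC.SumAux (lp lp_eval lp_deg)
open Pool.Agent.H548.WM (ht bx Rep mem_bx le_ht' exists_ht exists_gcd ht_le ht_pos)

/-- the discriminant as a polynomial -/
noncomputable def dp (M : Fin 3 → Matrix (Fin 3) (Fin 3) ℤ) : MvPolynomial (Fin 3) ℤ :=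
  (gm M (fun i => (MvPolynomial.X i : MvPolynomial (Fin 3) ℤ))).det

theorem dp_eval (M : Fin 3 → Matrix (Fin 3) (Fin 3) ℤ) (t : Fin 3 → ℤ) :
    MvPolynomial.eval t (dp M) = (gm M t).det := by
  unfold dp
  rw [map_dt]
  simp

theorem dp_hom (M : Fin 3 → Matrix (Fin 3) (Fin 3) ℤ) : (dp M).IsHomogeneous 3 := by
  have h1 : ∀ j k, ((gm M (fun i => (MvPolynomial.X i : MvPolynomial (Fin 3) ℤ))) j k).IsHomogeneous
      1 := by
    intro j k
    unfold gm
    apply MvPolynomial.IsHomogeneous.sum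
    intro i _
    have h2 : ((M i j k : ℤ) : MvPolynomial (Fin 3) ℤ) = MvPolynomial.C (M i j k) := by simp
    rw [h2]
    exact (MvPolynomial.isHomogeneous_X ℤ i).mul (MvPolynomial.isHomogeneous_C (Fin 3) (M i j k))
  have h3 : ∀ a b c d e f, ((gm M (fun i => (MvPolynomial.X i : MvPolynomial (Fin 3) ℤ))) a b *
      (gm M (fun i => (MvPolynomial.X i : MvPolynomial (Fin 3) ℤ))) c d *
      (gm M (fun i => (MvPolynomial.X i : MvPolynomial (Fin 3) ℤ))) e f).IsHomogeneous 3 := by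
    intro a b c d e f
    exact ((h1 a b).mul (h1 c d)).mul (h1 e f)
  unfold dp
  rw [det_fin_three]
  exact (((((h3 _ _ _ _ _ _).sub (h3 _ _ _ _ _ _)).sub (h3 _ _ _ _ _ _)).add
    (h3 _ _ _ _ _ _)).add (h3 _ _ _ _ _ _)).sub (h3 _ _ _ _ _ _)

theorem cube_dvd {X : Matrix (Fin 3) (Fin 3) ℤ} {D : ℤ} (h : ∀ i j, D ∣ X.adjugate i j) :
    D ^ 3 ∣ X.det ^ 2 := by
  choose Y hY using h
  have h1 : X.adjugate = D • (Matrix.of Y) := by
    ext i j
    rw [hY i j]
    rfl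
  have h2 := det_adjugate X
  rw [h1, det_smul, Fintype.card_fin] at h2
  rw [← h2]
  exact Dvd.intro _ rfl

theorem sqrt_cube {D : ℕ} {x : ℤ} (hx : x ≠ 0) (h : (D : ℤ) ^ 3 ∣ x ^ 2) :
    (Real.sqrt D) ^ 3 ≤ (x.natAbs : ℝ) := by
  have h1 : (D : ℤ) ^ 3 ≤ x ^ 2 := Int.le_of_dvd (by positivity) h
  have h2 : (D : ℝ) ^ 3 ≤ ((x.natAbs : ℕ) : ℝ) ^ 2 := by
    have h3 : (x ^ 2 : ℤ) = ((x.natAbs : ℕ) : ℤ) ^ 2 := (Int.natAbs_sq x).symm
    rw [h3] at h1
    exact_mod_cast h1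
  have h3 : (Real.sqrt D ^ 3) ^ 2 = (D : ℝ) ^ 3 := by
    rw [← pow_mul, mul_comm, pow_mul, Real.sq_sqrt (by positivity)]
  rw [← h3] at h2
  exact sq_le_aux h2 (by positivity)
where
  sq_le_aux {a b : ℝ} (h : a ^ 2 ≤ b ^ 2) (hb : 0 ≤ b) : a ≤ b := by
    by_contra hcon
    push Not at hcon
    nlinarith

/-- the gaps on a line -/
theorem gaps {M : Fin 3 → Matrix (Fin 3) (Fin 3) ℤ} {b : Fin 3 → ℤ} {K4 : ℕ}
    (hK4 : ∀ t : Fin 3 → ℤ, Prim t → ∀ d : ℤ,
      (∀ i j, d ∣ (gm M t).adjugate i j) → (∀ k, d ∣ cr t b k) → d ∣ (K4 : ℤ))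
    {D K : ℕ} (hD : 1 ≤ D) {t t' : Fin 3 → ℤ} (ht' : Prim t')
    (hadj : ∀ i j, (D : ℤ) ∣ (gm M t').adjugate i j)
    (hdv : ∀ k, (D : ℤ) ∣ (K : ℤ) * cr t t' k) {m : ℤ} (hm : t = t' + m • b) :
    (D : ℤ) ∣ ((K * K4 : ℕ) : ℤ) * m := by
  obtain ⟨g, u, hg1, hu, hg⟩ := exists_gcd
    (![(D : ℤ), cr t' b 0, cr t' b 1, cr t' b 2] : Fin 4 → ℤ) ⟨0, by
      simp
      omega⟩
  have g0 : (g : ℤ) ∣ D := by simpa using hg 0
  have g1 : (g : ℤ) ∣ cr t' b 0 := by simpa using hg 1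
  have g2 : (g : ℤ) ∣ cr t' b 1 := by simpa using hg 2
  have g3 : (g : ℤ) ∣ cr t' b 2 := by simpa using hg 3
  have hgK := hK4 t' ht' g (fun i j => g0.trans (hadj i j)) (fun k => by
    fin_cases k
    · exact g1
    · exact g2
    · exact g3)
  have hcr : ∀ k, cr t t' k = -(m * cr t' b k) := by
    intro k
    rw [hm]
    fin_cases k <;> simp [cr] <;> ring
  have h1 : (D : ℤ) ∣ ((K : ℤ) * m) * g := by
    rw [← hu, Fin.sum_univ_four]
    have e : ∀ k, (D : ℤ) ∣ (K : ℤ) * m * cr t' b k := by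
      intro k
      have := hdv k
      rw [hcr k] at this
      have h2 : (K : ℤ) * m * cr t' b k = -((K : ℤ) * -(m * cr t' b k)) := by ring
      rw [h2]
      exact (dvd_neg).2 this
    simp only [Matrix.cons_val]
    have e0 := e 0
    have e1 := e 1
    have e2 := e 2
    have e3 : (K : ℤ) * m * (u 0 * (D : ℤ) + u 1 * cr t' b 0 + u 2 * cr t' b 1 + u 3 * cr t' b 2) =
      (K : ℤ) * m * u 0 * D + u 1 * ((K : ℤ) * m * cr t' b 0) + u 2 * ((K : ℤ) * m * cr t' b 1) +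
        u 3 * ((K : ℤ) * m * cr t' b 2) := by ring
    rw [e3]
    exact dvd_add (dvd_add (dvd_add (Dvd.dvd.mul_left dvd_rfl _) (Dvd.dvd.mul_left e0 _))
      (Dvd.dvd.mul_left e1 _)) (Dvd.dvd.mul_left e2 _)
  obtain ⟨r, hr⟩ := hgK
  push_cast
  rw [hr]
  have h2 : (K : ℤ) * ((g : ℤ) * r) * m = ((K : ℤ) * m * g) * r := by ring
  rw [h2]
  exact Dvd.dvd.mul_right h1 _

/-- the sum over a class -/
theorem class_sum {M : Fin 3 → Matrix (Fin 3) (Fin 3) ℤ} (b : Fin 3 → ℤ) (hb : Prim b)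
    (hdet : (gm M b).det ≠ 0) (K4 : ℕ) (hK41 : 1 ≤ K4)
    (hK4 : ∀ t : Fin 3 → ℤ, Prim t → ∀ d : ℤ,
      (∀ i j, d ∣ (gm M t).adjugate i j) → (∀ k, d ∣ cr t b k) → d ∣ (K4 : ℤ))
    (C : Finset (Fin 3 → ℤ)) (A D K : ℕ) (hA : 1 ≤ A) (hD : 1 ≤ D) (hK : 1 ≤ K)
    (hC : ∀ t ∈ C, Rep t ∧ ht t ≤ A ∧ (∀ i j, (D : ℤ) ∣ (gm M t).adjugate i j) ∧
      (gm M t).det ≠ 0)
    (hdv : ∀ t ∈ C, ∀ t' ∈ C, ∀ k, (D : ℤ) ∣ (K : ℤ) * cr t t' k) :
    ∑ t ∈ C, 1 / (((gm M t).det.natAbs : ℝ) ^ ((1 : ℝ) / 3)) ≤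
      (120 * K * (A : ℝ) ^ 2 * ht b / D + 2) *
        (3 * (2 / Real.sqrt D + 6 * (K * K4) / D * (1 + Real.log ((8 * A + 1 : ℕ) : ℝ)))) := by
  classical
  have hDr : (1 : ℝ) ≤ D := by exact_mod_cast hD
  have hKr : (1 : ℝ) ≤ K := by exact_mod_cast hK
  have hK4r : (1 : ℝ) ≤ K4 := by exact_mod_cast hK41
  have hlog0 : 0 ≤ Real.log ((8 * A + 1 : ℕ) : ℝ) := Real.log_natCast_nonneg _
  have hsq : 0 < Real.sqrt D := Real.sqrt_pos.2 (by linarith)
  obtain ⟨v, hv⟩ := bezout b hb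
  have hbht : 1 ≤ ht b := by
    apply ht_pos
    intro h
    rw [h] at hv
    simp at hv
  obtain ⟨D', hD'1, hD'D, hD'⟩ := red_dvd D (K * K4) hD (Nat.mul_pos hK hK41)
  have hD'r : (1 : ℝ) ≤ D' := by exact_mod_cast hD'1
  set L : ℝ := 3 * (2 / Real.sqrt D + 6 * (K * K4) / D * (1 + Real.log ((8 * A + 1 : ℕ) : ℝ)))
    with hL
  have hL0 : 0 ≤ L := by positivity
  set G : (Fin 3 → ℤ) → ℝ := fun t => 1 / (((gm M t).det.natAbs : ℝ) ^ ((1 : ℝ) / 3)) with hG
  have hfib : ∀ w ∈ C.image (fun t => cr t b), ∑ t ∈ C.filter (fun t => cr t b = w), G t ≤ L := by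
    intro w hw
    obtain ⟨t0, ht0, ht0w⟩ := Finset.mem_image.1 hw
    set n : (Fin 3 → ℤ) → ℤ := fun t => ∑ i, v i * (t i - t0 i) with hn
    have hrep : ∀ t ∈ C.filter (fun t => cr t b = w), t = t0 + n t • b := by
      intro t ht
      obtain ⟨ht1, ht2⟩ := Finset.mem_filter.1 ht
      have h1 : ∀ k, (0 : ℤ) ∣ cr b (fun i => t i - t0 i) k := by
        intro k
        have h2 : cr b (fun i => t i - t0 i) k = -(cr t b k - cr t0 b k) := by
          fin_cases k <;> simp [cr] <;> ring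
        have h3 : cr t0 b = w := ht0w
        rw [h2, ht2, h3, sub_self, neg_zero]
      obtain ⟨s, hs⟩ := rep_of_dvd b (fun i => t i - t0 i) v hv 0 h1
      funext i
      have := hs i
      rw [zero_mul, add_zero] at this
      simp only [Pi.add_apply, Pi.smul_apply, smul_eq_mul, hn]
      linarith
    have hinj : Set.InjOn n ((C.filter (fun t => cr t b = w) : Finset (Fin 3 → ℤ)) :
        Set (Fin 3 → ℤ)) := by
      intro t ht t' ht' h
      rw [hrep t ht, hrep t' ht', h]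
    have hev : ∀ t ∈ C.filter (fun t => cr t b = w),
        (lp (dp M) t0 b).eval (n t) = (gm M t).det := by
      intro t ht
      rw [lp_eval, dp_eval]
      congr 2
      exact (hrep t ht).symm
    have hsum : ∑ t ∈ C.filter (fun t => cr t b = w), G t =
        ∑ m ∈ (C.filter (fun t => cr t b = w)).image n,
          1 / ((((lp (dp M) t0 b).eval m).natAbs : ℝ) ^ ((1 : ℝ) / 3)) := by
      rw [Finset.sum_image hinj]
      refine Finset.sum_congr rfl fun t ht => ?_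
      simp only [hG]
      rw [hev t ht]
    rw [hsum]
    have hline := line' (lp (dp M) t0 b) (lp_deg (dp_hom M) t0 b (by rw [dp_eval]; exact hdet))
      (2 * A) D' hD'1 ((C.filter (fun t => cr t b = w)).image n) (by
        intro m hm
        obtain ⟨t, htm, rfl⟩ := Finset.mem_image.1 hm
        obtain ⟨j, hj⟩ := exists_ht (by norm_num : 0 < 3) b
        have h1 := hrep t htm
        obtain ⟨ht1, ht2⟩ := Finset.mem_filter.1 htm
        have h2 : n t * b j = t j - t0 j := by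
          have := congrFun h1 j
          simp only [Pi.add_apply, Pi.smul_apply, smul_eq_mul] at this
          linarith
        have h3 : |t j| ≤ (A : ℤ) := (le_ht' t j).trans (by exact_mod_cast (hC t ht1).2.1)
        have h4 : |t0 j| ≤ (A : ℤ) := (le_ht' t0 j).trans (by exact_mod_cast (hC t0 ht0).2.1)
        have h5 : |n t| * (ht b : ℤ) ≤ 2 * A := by
          have h6 := congrArg abs h2
          rw [abs_mul, hj] at h6
          rw [h6]
          have := abs_sub (t j) (t0 j)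
          linarith
        have h7 : (1 : ℤ) ≤ ht b := by exact_mod_cast hbht
        have h8 : |n t| ≤ |n t| * (ht b : ℤ) := le_mul_of_one_le_right (abs_nonneg _) h7
        push_cast
        linarith) (by
        intro m hm m' hm'
        obtain ⟨t, ht, rfl⟩ := Finset.mem_image.1 hm
        obtain ⟨t', ht', rfl⟩ := Finset.mem_image.1 hm'
        have e1 := hrep t ht
        have e2 := hrep t' ht'
        obtain ⟨ht1, -⟩ := Finset.mem_filter.1 ht
        obtain ⟨ht1', -⟩ := Finset.mem_filter.1 ht'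
        apply hD'
        apply gaps hK4 hD (rep_prim (hC t' ht1').1) (hC t' ht1').2.2.1 (hdv t ht1 t' ht1')
        funext i
        have f1 := congrFun e1 i
        have f2 := congrFun e2 i
        simp only [Pi.add_apply, Pi.smul_apply, smul_eq_mul] at f1 f2 ⊢
        linarith) (Real.sqrt D) hsq (by
        intro m hm
        obtain ⟨t, ht, rfl⟩ := Finset.mem_image.1 hm
        rw [hev t ht]
        obtain ⟨ht1, -⟩ := Finset.mem_filter.1 ht
        exact sqrt_cube (hC t ht1).2.2.2 (cube_dvd (hC t ht1).2.2.1))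
    refine hline.trans ?_
    have e1 : (2 * (2 * (2 * A)) + 1 : ℕ) = 8 * A + 1 := by ring
    rw [e1, hL]
    have e2 : 6 / (D' : ℝ) ≤ 6 * (K * K4) / D := by
      rw [div_le_div_iff₀ (by positivity) (by positivity)]
      have : (D : ℝ) ≤ (K * K4) * D' := by exact_mod_cast hD'D
      nlinarith
    gcongr
  calc ∑ t ∈ C, G t = ∑ w ∈ C.image (fun t => cr t b),
        ∑ t ∈ C.filter (fun t => cr t b = w), G t :=
        (Finset.sum_fiberwise_of_maps_to (fun t ht => Finset.mem_image_of_mem _ ht) G).symm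
    _ ≤ ∑ w ∈ C.image (fun t => cr t b), L := Finset.sum_le_sum hfib
    _ = (C.image (fun t => cr t b)).card * L := by rw [Finset.sum_const, nsmul_eq_mul]
    _ ≤ (120 * K * (A : ℝ) ^ 2 * ht b / D + 2) * L := by
        apply mul_le_mul_of_nonneg_right _ hL0
        exact lines b hb C A D K hA hD hK (fun t ht => ⟨(hC t ht).1, (hC t ht).2.1⟩) hdv

end Pool.Agent.K1H88.NC
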