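import Mathlib
import Pool.Agent.K1H88.NC.Csum
import Pool.Agent.Helper112.Arith

/-!
# Nets of conics: the sum over all parameters
-/

set_option autoImplicit false

namespace Pool.Agent.K1H88.NC

open Matrix Finset
open Pool.Agent.R38.NC (gm qf cq Smooth Prim rep_prim rep_neg PP)
open Pool.Agent.H548.WM (ht bx Rep mem_bx le_ht' exists_ht exists_gcd ht_le ht_pos)

/-- one plus the sum of the absolute values of all entries -/
def mx (M : Fin 3 → Matrix (Fin 3) (Fin 3) ℤ) : ℕ := 1 + ∑ i, ∑ j, ∑ k, (M i j k).natAbs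

theorem gm_le (M : Fin 3 → Matrix (Fin 3) (Fin 3) ℤ) {t : Fin 3 → ℤ} {A : ℕ} (h : ht t ≤ A)
    (j k : Fin 3) : |gm M t j k| ≤ ((mx M * A : ℕ) : ℤ) := by
  have h1 : ∀ i, |t i| ≤ (A : ℤ) := fun i => (le_ht' t i).trans (by exact_mod_cast h)
  unfold gm
  calc |∑ i, t i * ((M i j k : ℤ) : ℤ)| ≤ ∑ i, |t i * ((M i j k : ℤ) : ℤ)| :=
        Finset.abs_sum_le_sum_abs _ _
    _ ≤ ∑ i, (A : ℤ) * ((M i j k).natAbs : ℤ) := by
        refine Finset.sum_le_sum fun i _ => ?_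
        rw [abs_mul, Int.abs_eq_natAbs (M i j k)]
        exact mul_le_mul_of_nonneg_right (h1 i) (by positivity)
    _ = (A : ℤ) * ((∑ i, (M i j k).natAbs : ℕ) : ℤ) := by
        rw [← Finset.mul_sum]
        push_cast
        rfl
    _ ≤ ((mx M * A : ℕ) : ℤ) := by
        have h2 : ∑ i, (M i j k).natAbs ≤ mx M := by
          unfold mx
          have h3 : ∑ i, (M i j k).natAbs ≤ ∑ i, ∑ j, ∑ k, (M i j k).natAbs := by
            refine Finset.sum_le_sum fun i _ => ?_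
            calc (M i j k).natAbs ≤ ∑ k, (M i j k).natAbs :=
                  Finset.single_le_sum (f := fun k => (M i j k).natAbs) (fun _ _ => Nat.zero_le _)
                    (Finset.mem_univ k)
              _ ≤ ∑ j, ∑ k, (M i j k).natAbs :=
                  Finset.single_le_sum (f := fun j => ∑ k, (M i j k).natAbs)
                    (fun _ _ => Nat.zero_le _) (Finset.mem_univ j)
          omega
        rw [mul_comm]
        exact_mod_cast Nat.mul_le_mul_right A h2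

theorem adj_le (M : Fin 3 → Matrix (Fin 3) (Fin 3) ℤ) {t : Fin 3 → ℤ} {A : ℕ} (h : ht t ≤ A)
    (i j : Fin 3) : |(gm M t).adjugate i j| ≤ 2 * ((mx M * A : ℕ) : ℤ) ^ 2 := by
  have h1 := gm_le M h
  set X : ℤ := ((mx M * A : ℕ) : ℤ) with hX
  have hX0 : 0 ≤ X := by positivity
  have h2 : ∀ a b c d, |gm M t a b * gm M t c d| ≤ X ^ 2 := by
    intro a b c d
    rw [abs_mul, sq]
    exact mul_le_mul (h1 a b) (h1 c d) (abs_nonneg _) hX0
  have e1 : ∀ x y : ℤ, |x| ≤ X ^ 2 → |y| ≤ X ^ 2 → |x - y| ≤ 2 * X ^ 2 := by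
    intro x y hx hy
    have := abs_sub x y
    linarith
  rw [adjugate_fin_three]
  fin_cases i <;> fin_cases j <;> simp <;> (try rw [neg_add_eq_sub]) <;>
    exact e1 _ _ (h2 _ _ _ _) (h2 _ _ _ _)

theorem G2_le (M : Fin 3 → Matrix (Fin 3) (Fin 3) ℤ) {t : Fin 3 → ℤ} {A : ℕ} (h : ht t ≤ A)
    (hdet : (gm M t).det ≠ 0) : G2 (gm M t) ≤ 2 * (mx M * A) ^ 2 := by
  have h1 : ∃ i j, (gm M t).adjugate i j ≠ 0 := by
    by_contra hcon
    push Not at hcon
    have h2 : (gm M t).adjugate = 0 := by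
      ext i j
      exact hcon i j
    have h3 := det_adjugate (gm M t)
    rw [h2] at h3
    simp at h3
    exact hdet (pow_eq_zero_iff two_ne_zero |>.1 h3.symm)
  obtain ⟨i, j, hij⟩ := h1
  have h2 := G2_dvd (gm M t) i j
  have h3 : ((G2 (gm M t) : ℕ) : ℤ) ≤ |(gm M t).adjugate i j| :=
    Int.le_of_dvd (abs_pos.2 hij) ((dvd_abs _ _).2 h2)
  have h4 := h3.trans (adj_le M h i j)
  exact_mod_cast h4

theorem det_le (M : Fin 3 → Matrix (Fin 3) (Fin 3) ℤ) {t : Fin 3 → ℤ} {A : ℕ} (h : ht t ≤ A) :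
    (gm M t).det.natAbs ≤ 6 * (mx M * A) ^ 3 := by
  have h1 := Pool.Agent.R38.NC.det_bound (gm M t) ((mx M * A : ℕ) : ℤ) (gm_le M h)
  have h2 : (Matrix.of (gm M t)).det = (gm M t).det := rfl
  rw [h2, Int.abs_eq_natAbs] at h1
  exact_mod_cast h1

theorem log_le_rpow (δ : ℝ) (hδ : 0 < δ) (x : ℝ) (hx : 1 ≤ x) :
    1 + Real.log x ≤ (1 + 1 / δ) * x ^ δ := by
  have h1 : Real.log x ≤ x ^ δ / δ := Real.log_le_rpow_div (by linarith) hδ
  have h2 : (1 : ℝ) ≤ x ^ δ := Real.one_le_rpow hx hδ.le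
  have h3 : (1 + 1 / δ) * x ^ δ = x ^ δ + x ^ δ / δ := by ring
  rw [h3]
  linarith

/-- the sum over all parameters -/
theorem total {M : Fin 3 → Matrix (Fin 3) (Fin 3) ℤ} (hM : ∀ i, (M i).IsSymm) (hb : Bpf M)
    (ε : ℝ) (hε : 0 < ε) : ∃ C : ℝ, 0 ≤ C ∧ ∀ (A : ℕ), 1 ≤ A → ∀ T : Finset (Fin 3 → ℤ),
      (∀ t ∈ T, Rep t ∧ ht t ≤ A ∧ (gm M t).det ≠ 0) →
      ∑ t ∈ T, Real.sqrt (G2 (gm M t)) * (1 / (((gm M t).det.natAbs : ℝ) ^ ((1 : ℝ) / 3))) ≤
        C * (A : ℝ) ^ (2 + ε) := by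
  classical
  -- the direction
  obtain ⟨b, hbp, hbd⟩ : ∃ b : Fin 3 → ℤ, Prim b ∧ (gm M b).det ≠ 0 := by
    obtain ⟨t, ht⟩ := ex_det hM hb
    have ht0 : t ≠ 0 := by
      intro h
      apply ht
      rw [h, gm_zero]
      simp
    obtain ⟨g, ν, hg, hν, hgν⟩ := prim_part t ht0
    refine ⟨ν, hν, ?_⟩
    intro h
    apply ht
    rw [hgν, gm_smul, det_smul, h, mul_zero]
  obtain ⟨K4, hK41, hK4⟩ := nst3 b hbd
  obtain ⟨K, q, hK1, hq1, hcls⟩ := classes hM hb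
  set δ : ℝ := ε / 8 with hδ
  have hδ0 : 0 < δ := by positivity
  obtain ⟨C3, hC3, hdiv⟩ := Pool.Agent.Helper112.divisor_bound δ hδ0
  set m : ℝ := (mx M : ℝ) with hm
  have hm1 : (1 : ℝ) ≤ m := by
    have : 1 ≤ mx M := Nat.le_add_right _ _
    rw [hm]
    exact_mod_cast this
  have hKr : (1 : ℝ) ≤ K := by exact_mod_cast hK1
  have hK4r : (1 : ℝ) ≤ K4 := by exact_mod_cast hK41
  have hqr : (1 : ℝ) ≤ q := by exact_mod_cast hq1
  set C1 : ℝ := 120 * K * ht b with hC1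
  set C2 : ℝ := 3 * (2 + 6 * (K * K4)) with hC2
  have hC10 : 0 ≤ C1 := by positivity
  have hC20 : 0 ≤ C2 := by positivity
  refine ⟨(q : ℝ) ^ 3 * C3 ^ 2 * (C2 * (1 + 1 / δ)) * (C1 * (1 + 1 / δ) + 4 * m ^ 2) *
    (9 * m ^ 2) ^ (4 * δ), by positivity, ?_⟩
  intro A hA T hT
  have hA1 : (1 : ℝ) ≤ A := by exact_mod_cast hA
  set N : ℕ := 2 * (mx M * A) ^ 2 with hN
  set X : ℝ := 9 * m ^ 2 * (A : ℝ) ^ 2 with hX
  have hX1 : 1 ≤ X := by
    have h1 : 1 ≤ m ^ 2 := one_le_pow₀ hm1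
    have h2 : 1 ≤ (A : ℝ) ^ 2 := one_le_pow₀ hA1
    rw [hX]
    nlinarith [mul_le_mul h1 h2 zero_le_one (by positivity)]
  have hNX : (N : ℝ) ≤ X := by
    rw [hN, hX, hm]
    push_cast
    nlinarith [sq_nonneg ((mx M : ℝ) * A)]
  have h8X : ((8 * A + 1 : ℕ) : ℝ) ≤ X := by
    rw [hX]
    push_cast
    have h1 : 1 ≤ m ^ 2 := one_le_pow₀ hm1
    have h2 : (A : ℝ) ≤ (A : ℝ) ^ 2 := by nlinarith
    nlinarith [mul_le_mul h1 h2 (by positivity) (by positivity)]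
  have hXδ : (1 : ℝ) ≤ X ^ δ := Real.one_le_rpow hX1 hδ0.le
  set l : ℝ := 1 + Real.log ((8 * A + 1 : ℕ) : ℝ) with hl
  have hl1 : 1 ≤ l := by
    have := Real.log_natCast_nonneg (8 * A + 1)
    linarith
  have hlX : l ≤ (1 + 1 / δ) * X ^ δ := by
    have h1 : Real.log ((8 * A + 1 : ℕ) : ℝ) ≤ Real.log X :=
      Real.log_le_log (by positivity) h8X
    have h2 := log_le_rpow δ hδ0 X hX1
    linarith
  set Gf : (Fin 3 → ℤ) → ℝ := fun t =>
    Real.sqrt (G2 (gm M t)) * (1 / (((gm M t).det.natAbs : ℝ) ^ ((1 : ℝ) / 3))) with hGf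
  -- the sum for one value of the common divisor
  have hlev : ∀ D ∈ Finset.Icc 1 N, ∑ t ∈ T.filter (fun t => G2 (gm M t) = D), Gf t ≤
      ((q : ℝ) ^ 3 * C3 ^ 2 * (X ^ δ) ^ 2) * ((C1 * (A : ℝ) ^ 2 * (1 / D) + 2) * (C2 * l)) := by
    intro D hD
    rw [Finset.mem_Icc] at hD
    have hDr : (1 : ℝ) ≤ D := by exact_mod_cast hD.1
    have hsq : 0 < Real.sqrt D := Real.sqrt_pos.2 (by linarith)
    have hsq1 : 1 ≤ Real.sqrt D := Real.one_le_sqrt.2 hDr
    obtain ⟨c, hc⟩ := hcls D hD.1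
    set TD := T.filter (fun t => G2 (gm M t) = D) with hTD
    have hTDm : ∀ t ∈ TD, Rep t ∧ ht t ≤ A ∧ (∀ i j, (D : ℤ) ∣ (gm M t).adjugate i j) ∧
        (gm M t).det ≠ 0 := by
      intro t ht'
      rw [hTD, Finset.mem_filter] at ht'
      obtain ⟨h1, h2⟩ := ht'
      obtain ⟨h3, h4, h5⟩ := hT t h1
      refine ⟨h3, h4, ?_, h5⟩
      intro i j
      rw [← h2]
      exact G2_dvd _ i j
    have hcl : ∀ j : Fin (q ^ 3 * 3 ^ D.primeFactors.card),
        ∑ t ∈ TD.filter (fun t => c t = j), Gf t ≤ (C1 * (A : ℝ) ^ 2 * (1 / D) + 2) * (C2 * l) := by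
      intro j
      have h1 : ∑ t ∈ TD.filter (fun t => c t = j), Gf t = Real.sqrt D *
          ∑ t ∈ TD.filter (fun t => c t = j),
            1 / (((gm M t).det.natAbs : ℝ) ^ ((1 : ℝ) / 3)) := by
        rw [Finset.mul_sum]
        refine Finset.sum_congr rfl fun t ht' => ?_
        have h2 : G2 (gm M t) = D := (Finset.mem_filter.1 (Finset.mem_filter.1 ht').1).2
        simp only [hGf]
        rw [h2]
      have h2 := class_sum b hbp hbd K4 hK41 hK4 (TD.filter (fun t => c t = j)) A D K hA hD.1 hK1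
        (fun t ht' => hTDm t (Finset.mem_filter.1 ht').1) (by
          intro t ht' t' ht''
          obtain ⟨e1, e2⟩ := Finset.mem_filter.1 ht'
          obtain ⟨e3, e4⟩ := Finset.mem_filter.1 ht''
          exact hc t t' (rep_prim (hTDm t e1).1) (rep_prim (hTDm t' e3).1) (hTDm t e1).2.2.1
            (hTDm t' e3).2.2.1 (by rw [e2, e4]))
      rw [h1]
      calc Real.sqrt D * ∑ t ∈ TD.filter (fun t => c t = j),
            1 / (((gm M t).det.natAbs : ℝ) ^ ((1 : ℝ) / 3))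
          ≤ Real.sqrt D * ((120 * K * (A : ℝ) ^ 2 * ht b / D + 2) *
            (3 * (2 / Real.sqrt D + 6 * (K * K4) / D * l))) :=
            mul_le_mul_of_nonneg_left h2 hsq.le
        _ = (C1 * (A : ℝ) ^ 2 * (1 / D) + 2) *
            (3 * (2 * (Real.sqrt D / Real.sqrt D) + 6 * (K * K4) * l * (Real.sqrt D / D))) := by
            rw [hC1]
            ring
        _ ≤ (C1 * (A : ℝ) ^ 2 * (1 / D) + 2) * (3 * (2 * l + 6 * (K * K4) * l * 1)) := by
            have e1 : Real.sqrt D / Real.sqrt D ≤ l := by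
              rw [div_self hsq.ne']
              exact hl1
            have e2 : Real.sqrt D / D ≤ 1 := by
              rw [div_le_one (by linarith)]
              calc Real.sqrt D = Real.sqrt D * 1 := (mul_one _).symm
                _ ≤ Real.sqrt D * Real.sqrt D := mul_le_mul_of_nonneg_left hsq1 hsq.le
                _ = D := Real.mul_self_sqrt (by linarith)
            gcongr
        _ = (C1 * (A : ℝ) ^ 2 * (1 / D) + 2) * (C2 * l) := by
            rw [hC2]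
            ring
    have hnD : ((q ^ 3 * 3 ^ D.primeFactors.card : ℕ) : ℝ) ≤
        (q : ℝ) ^ 3 * C3 ^ 2 * (X ^ δ) ^ 2 := by
      have h1 : ((3 ^ D.primeFactors.card : ℕ) : ℝ) ≤ ((D.divisors.card : ℕ) : ℝ) ^ 2 := by
        exact_mod_cast three_pow_le D hD.1
      have h2 : ((D.divisors.card : ℕ) : ℝ) ≤ C3 * X ^ δ := by
        refine (hdiv D hD.1).trans ?_
        have h3 : (D : ℝ) ≤ X := by
          have : (D : ℝ) ≤ N := by exact_mod_cast hD.2
          linarith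
        exact mul_le_mul_of_nonneg_left (Real.rpow_le_rpow (by positivity) h3 hδ0.le) hC3.le
      rw [Nat.cast_mul, Nat.cast_pow]
      calc (q : ℝ) ^ 3 * ((3 ^ D.primeFactors.card : ℕ) : ℝ)
          ≤ (q : ℝ) ^ 3 * (((D.divisors.card : ℕ) : ℝ) ^ 2) := by gcongr
        _ ≤ (q : ℝ) ^ 3 * ((C3 * X ^ δ) ^ 2) := by gcongr
        _ = _ := by ring
    have hnn : 0 ≤ (C1 * (A : ℝ) ^ 2 * (1 / D) + 2) * (C2 * l) := by positivity
    calc ∑ t ∈ TD, Gf t = ∑ j, ∑ t ∈ TD.filter (fun t => c t = j), Gf t :=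
          (Finset.sum_fiberwise TD c Gf).symm
      _ ≤ ∑ j : Fin (q ^ 3 * 3 ^ D.primeFactors.card),
          (C1 * (A : ℝ) ^ 2 * (1 / D) + 2) * (C2 * l) := Finset.sum_le_sum fun j _ => hcl j
      _ = ((q ^ 3 * 3 ^ D.primeFactors.card : ℕ) : ℝ) *
          ((C1 * (A : ℝ) ^ 2 * (1 / D) + 2) * (C2 * l)) := by
          rw [Finset.sum_const, Finset.card_univ, Fintype.card_fin, nsmul_eq_mul]
      _ ≤ _ := mul_le_mul_of_nonneg_right hnD hnn
  have hmaps : ∀ t ∈ T, G2 (gm M t) ∈ Finset.Icc 1 N := by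
    intro t ht'
    obtain ⟨h3, h4, h5⟩ := hT t ht'
    rw [Finset.mem_Icc]
    exact ⟨G2_pos h5, G2_le M h4 h5⟩
  have hharm : ∑ D ∈ Finset.Icc 1 N, (1 / (D : ℝ)) ≤ (1 + 1 / δ) * X ^ δ := by
    have h1 := harmonic_le_one_add_log N
    rw [harmonic_eq_sum_Icc] at h1
    push_cast at h1
    have h2 : ∑ D ∈ Finset.Icc 1 N, (1 / (D : ℝ)) = ∑ D ∈ Finset.Icc 1 N, ((D : ℝ))⁻¹ :=
      Finset.sum_congr rfl fun D _ => one_div _
    rw [h2]
    have hN1 : 1 ≤ N := by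
      have h3 : 1 ≤ mx M := Nat.le_add_right _ _
      have h4 : 1 ≤ mx M * A := Nat.mul_pos h3 hA
      have h5 : 1 ≤ (mx M * A) ^ 2 := Nat.one_le_pow _ _ h4
      omega
    have h3 : Real.log N ≤ Real.log X :=
      Real.log_le_log (by exact_mod_cast hN1) hNX
    have h4 := log_le_rpow δ hδ0 X hX1
    linarith
  have hN2 : (N : ℝ) ≤ 2 * m ^ 2 * (A : ℝ) ^ 2 := by
    rw [hN, hm]
    push_cast
    nlinarith
  set E : ℝ := (q : ℝ) ^ 3 * C3 ^ 2 * (X ^ δ) ^ 2 with hE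
  have hE0 : 0 ≤ E := by positivity
  calc ∑ t ∈ T, Gf t = ∑ D ∈ Finset.Icc 1 N, ∑ t ∈ T.filter (fun t => G2 (gm M t) = D), Gf t :=
        (Finset.sum_fiberwise_of_maps_to hmaps Gf).symm
    _ ≤ ∑ D ∈ Finset.Icc 1 N, E * ((C1 * (A : ℝ) ^ 2 * (1 / D) + 2) * (C2 * l)) :=
        Finset.sum_le_sum hlev
    _ = E * (C2 * l) * (C1 * (A : ℝ) ^ 2 * (∑ D ∈ Finset.Icc 1 N, (1 / (D : ℝ))) + 2 * N) := by
        have e1 : ∀ D ∈ Finset.Icc 1 N, E * ((C1 * (A : ℝ) ^ 2 * (1 / (D : ℝ)) + 2) * (C2 * l)) =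
            (E * (C2 * l) * (C1 * (A : ℝ) ^ 2)) * (1 / (D : ℝ)) + E * (C2 * l) * 2 := by
          intro D _
          ring
        rw [Finset.sum_congr rfl e1, Finset.sum_add_distrib, ← Finset.mul_sum, Finset.sum_const,
          Nat.card_Icc, nsmul_eq_mul]
        push_cast
        ring
    _ ≤ E * (C2 * ((1 + 1 / δ) * X ^ δ)) * (C1 * (A : ℝ) ^ 2 * ((1 + 1 / δ) * X ^ δ) +
          2 * (2 * m ^ 2 * (A : ℝ) ^ 2) * X ^ δ) := by
        have h1 : 2 * (N : ℝ) ≤ 2 * (2 * m ^ 2 * (A : ℝ) ^ 2) * X ^ δ := by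
          calc 2 * (N : ℝ) ≤ 2 * (2 * m ^ 2 * (A : ℝ) ^ 2) := by linarith
            _ = 2 * (2 * m ^ 2 * (A : ℝ) ^ 2) * 1 := (mul_one _).symm
            _ ≤ _ := mul_le_mul_of_nonneg_left hXδ (by positivity)
        gcongr
    _ = (q : ℝ) ^ 3 * C3 ^ 2 * (C2 * (1 + 1 / δ)) * (C1 * (1 + 1 / δ) + 4 * m ^ 2) *
          (A : ℝ) ^ 2 * (X ^ δ) ^ 4 := by
        rw [hE]
        ring
    _ = _ := by
        have h1 : (X ^ δ) ^ 4 = (9 * m ^ 2) ^ (4 * δ) * (A : ℝ) ^ ε := by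
          rw [← Real.rpow_natCast (X ^ δ) 4, ← Real.rpow_mul (by positivity), hX,
            Real.mul_rpow (by positivity) (by positivity), ← Real.rpow_natCast (A : ℝ) 2,
            ← Real.rpow_mul (by positivity)]
          congr 2
          · push_cast
            ring
          · rw [hδ]
            push_cast
            ring
        have h2 : (A : ℝ) ^ (2 + ε) = (A : ℝ) ^ 2 * (A : ℝ) ^ ε := by
          rw [Real.rpow_add (by positivity)]
          congr 1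
          exact_mod_cast Real.rpow_natCast (A : ℝ) 2
        rw [h1, h2]
        ring

end Pool.Agent.K1H88.NC
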