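import Mathlib
import Pool.Agent.K1H88.NC.Tot
import Pool.Agent.R38.QP.Conic
import Pool.Agent.R38.NC.Bas2
import Pool.Agent.R38.NC.Par
import Pool.Agent.R38.NC.Dvd

/-!
# Nets of conics: the number of points in a box
-/

set_option autoImplicit false

namespace Pool.Agent.K1H88.NC

open Matrix Finset
open Pool.Agent.R38.NC (gm qf cq Smooth Prim rep_prim rep_neg PP tri_ bas2_ par_ dvd_ det_bound)
open Pool.Agent.R38.QP (con2_)
open Pool.Agent.H548.WM (ht bx Rep mem_bx le_ht' exists_ht exists_gcd ht_le ht_pos card_bx_le)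

theorem cube_root (B G Δ : ℝ) (hB : 0 ≤ B) (hG : 0 ≤ G) (hΔ : 0 < Δ) :
    (B ^ 3 * G ^ ((3 : ℝ) / 2) / Δ) ^ ((1 : ℝ) / 3) =
      B * (Real.sqrt G * (1 / Δ ^ ((1 : ℝ) / 3))) := by
  rw [Real.div_rpow (by positivity) hΔ.le, Real.mul_rpow (by positivity) (by positivity),
    ← Real.rpow_natCast B 3, ← Real.rpow_mul hB, ← Real.rpow_mul hG, Real.sqrt_eq_rpow]
  norm_num
  ring

/-- the points of bounded height on one conic -/
theorem conic (X : Matrix (Fin 3) (Fin 3) ℤ) (hX : X.IsSymm) (hdet : X.det ≠ 0) (B : ℕ)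
    (S : Finset (Fin 3 → ℤ)) (hS : ∀ x ∈ S, Rep x ∧ ht x ≤ B ∧ qf X x = 0) :
    (S.card : ℝ) ≤ 1 + ((Nat.divisors (2 * X.det.natAbs)).card : ℝ) ^ 2 *
      (10 + 40 * (B * (Real.sqrt (G2 X) * (1 / ((X.det.natAbs : ℝ) ^ ((1 : ℝ) / 3)))))) := by
  have h1 := con3 (con2_ tri_ bas2_ par_ dvd_) _ X le_rfl hX hdet ((B : ℝ) ^ 3) S (by positivity)
    (fun x hx => ⟨rep_prim (hS x hx).1, (hS x hx).2.2⟩)
    (fun x hx y hy h => rep_neg (hS x hx).1 (hS y hy).1 h) (by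
      intro x hx y hy z hz
      have h2 := det_bound ![x, y, z] (B : ℤ) (by
        intro i j
        fin_cases i
        · exact (le_ht' x j).trans (by exact_mod_cast (hS x hx).2.1)
        · exact (le_ht' y j).trans (by exact_mod_cast (hS y hy).2.1)
        · exact (le_ht' z j).trans (by exact_mod_cast (hS z hz).2.1))
      exact_mod_cast h2)
  have hpos : (0 : ℝ) < (X.det.natAbs : ℝ) := by
    exact_mod_cast Int.natAbs_pos.2 hdet
  rw [cube_root B (G2 X) (X.det.natAbs) (by positivity) (by positivity) hpos] at h1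
  exact h1

/-- the case `A ≤ B` -/
theorem box_le {M : Fin 3 → Matrix (Fin 3) (Fin 3) ℤ} (hM : ∀ i, (M i).IsSymm) (hb : Bpf M)
    (ε : ℝ) (hε : 0 < ε) : ∃ C : ℝ, 0 ≤ C ∧ ∀ A B : ℕ, 1 ≤ A → 1 ≤ B → A ≤ B →
    ((PP M A B).card : ℝ) ≤ C * ((A : ℝ) ^ 2 * B) * ((A : ℝ) * B) ^ ε := by
  classical
  obtain ⟨C3, hC3, hsum⟩ := total hM hb (ε / 2) (by positivity)
  -- the divisor bound
  obtain ⟨C1, hC1, hdiv⟩ := Pool.Agent.Helper112.divisor_bound (ε / 12) (by positivity)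
  set m : ℝ := 12 * (mx M : ℝ) ^ 3 with hm
  set D : ℝ := max C1 1 * m ^ (ε / 12) with hD
  have hmx : (1 : ℝ) ≤ mx M := by
    have : 1 ≤ mx M := Nat.le_add_right _ _
    exact_mod_cast this
  have hm1 : (1 : ℝ) ≤ m := by
    have : (1 : ℝ) ≤ (mx M : ℝ) ^ 3 := one_le_pow₀ hmx
    rw [hm]
    linarith
  have hD1 : 1 ≤ D := by
    have h1 : (1 : ℝ) ≤ m ^ (ε / 12) := Real.one_le_rpow hm1 (by positivity)
    have h2 : (1 : ℝ) ≤ max C1 1 := le_max_right _ _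
    rw [hD]
    nlinarith
  refine ⟨D ^ 2 * (297 + 40 * C3), by positivity, ?_⟩
  intro A B hA hB hAB
  have hA1 : (1 : ℝ) ≤ A := by exact_mod_cast hA
  have hB1 : (1 : ℝ) ≤ B := by exact_mod_cast hB
  have hAB' : (A : ℝ) ≤ B := by exact_mod_cast hAB
  set τ : ℝ := D * (A : ℝ) ^ (ε / 4) with hτ
  have hA4 : (1 : ℝ) ≤ (A : ℝ) ^ (ε / 4) := Real.one_le_rpow hA1 (by positivity)
  have hτ1 : 1 ≤ τ := by
    rw [hτ]
    nlinarith
  have hτd : ∀ t : Fin 3 → ℤ, ht t ≤ A → (gm M t).det ≠ 0 →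
      ((Nat.divisors (2 * (gm M t).det.natAbs)).card : ℝ) ≤ τ := by
    intro t htA hdet
    have hpos : 1 ≤ (gm M t).det.natAbs := Nat.one_le_iff_ne_zero.2 (Int.natAbs_ne_zero.2 hdet)
    refine (hdiv _ (by omega)).trans ?_
    have h4 := det_le M htA
    have h5 : ((2 * (gm M t).det.natAbs : ℕ) : ℝ) ≤ m * (A : ℝ) ^ 3 := by
      have h6 : 2 * (gm M t).det.natAbs ≤ 12 * mx M ^ 3 * A ^ 3 := by
        calc 2 * (gm M t).det.natAbs ≤ 2 * (6 * (mx M * A) ^ 3) := Nat.mul_le_mul_left _ h4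
          _ = 12 * mx M ^ 3 * A ^ 3 := by ring
      rw [hm]
      exact_mod_cast h6
    calc C1 * ((2 * (gm M t).det.natAbs : ℕ) : ℝ) ^ (ε / 12)
        ≤ max C1 1 * (m * (A : ℝ) ^ 3) ^ (ε / 12) := by
          have h7 : ((2 * (gm M t).det.natAbs : ℕ) : ℝ) ^ (ε / 12) ≤
              (m * (A : ℝ) ^ 3) ^ (ε / 12) :=
            Real.rpow_le_rpow (Nat.cast_nonneg _) h5 (by positivity)
          exact mul_le_mul (le_max_left _ _) h7 (by positivity) (by positivity)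
      _ = τ := by
          rw [Real.mul_rpow (by positivity) (by positivity), ← Real.rpow_natCast (A : ℝ) 3,
            ← Real.rpow_mul (by positivity), hτ, hD, mul_assoc]
          congr 3
          push_cast
          ring
  -- the parameters
  set T := (bx 3 A).filter fun t => Rep t ∧ (gm M t).det ≠ 0 with hTd
  have hsub : PP M A B ⊆ T.biUnion fun t =>
      ((bx 3 B).filter fun x => Rep x ∧ qf (gm M t) x = 0).image fun x => (t, x) := by
    rintro ⟨t, x⟩ hx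
    unfold PP at hx
    rw [mem_filter, mem_product] at hx
    obtain ⟨⟨e1, e2⟩, e3, e4, e5, e6⟩ := hx
    rw [mem_biUnion]
    refine ⟨t, ?_, ?_⟩
    · rw [hTd, mem_filter]
      exact ⟨e1, e3, e6⟩
    · rw [mem_image]
      refine ⟨x, ?_, rfl⟩
      rw [mem_filter]
      exact ⟨e2, e4, e5⟩
  set g : (Fin 3 → ℤ) → ℝ := fun t =>
    Real.sqrt (G2 (gm M t)) * (1 / (((gm M t).det.natAbs : ℝ) ^ ((1 : ℝ) / 3))) with hg
  have hone : ∀ t ∈ T,
      ((((bx 3 B).filter fun x => Rep x ∧ qf (gm M t) x = 0).card : ℕ) : ℝ) ≤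
      τ ^ 2 * (11 + 40 * B * g t) := by
    intro t ht'
    rw [hTd, mem_filter, mem_bx] at ht'
    obtain ⟨e1, e2, e3⟩ := ht'
    have h4 := conic (gm M t) (gm_symm hM t) e3 B
      ((bx 3 B).filter fun x => Rep x ∧ qf (gm M t) x = 0) (fun x hx => by
        rw [mem_filter, mem_bx] at hx
        exact ⟨hx.2.1, hx.1, hx.2.2⟩)
    refine h4.trans ?_
    have h5 := hτd t e1 e3
    have hg0 : 0 ≤ g t := by
      simp only [hg]
      positivity
    have h7 : ((Nat.divisors (2 * (gm M t).det.natAbs)).card : ℝ) ^ 2 ≤ τ ^ 2 := by gcongr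
    have h8 : 1 ≤ τ ^ 2 := one_le_pow₀ hτ1
    calc (1 : ℝ) + ((Nat.divisors (2 * (gm M t).det.natAbs)).card : ℝ) ^ 2 *
          (10 + 40 * (B * g t))
        ≤ τ ^ 2 * 1 + τ ^ 2 * (10 + 40 * (B * g t)) := by
          have h9 := mul_le_mul_of_nonneg_right h7
            (by positivity : (0 : ℝ) ≤ 10 + 40 * (B * g t))
          linarith
      _ = τ ^ 2 * (11 + 40 * B * g t) := by ring
  have hTc : (T.card : ℝ) ≤ 27 * (A : ℝ) ^ 3 := by
    have h4 := card_bx_le 3 hA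
    have h5 : (T.card : ℝ) ≤ ((bx 3 A).card : ℝ) := by
      exact_mod_cast Finset.card_le_card (Finset.filter_subset _ _)
    calc (T.card : ℝ) ≤ (3 * (A : ℝ)) ^ 3 := h5.trans h4
      _ = 27 * (A : ℝ) ^ 3 := by ring
  have hTs : ∑ t ∈ T, g t ≤ C3 * (A : ℝ) ^ (2 + ε / 2) := by
    refine hsum A hA T ?_
    intro t ht'
    rw [hTd, mem_filter, mem_bx] at ht'
    exact ⟨ht'.2.1, ht'.1, ht'.2.2⟩
  have hA2 : (1 : ℝ) ≤ (A : ℝ) ^ (ε / 2) := Real.one_le_rpow hA1 (by positivity)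
  have hexp : (A : ℝ) ^ (2 + ε / 2) = (A : ℝ) ^ 2 * (A : ℝ) ^ (ε / 2) := by
    rw [Real.rpow_add (by positivity)]
    congr 1
    exact_mod_cast Real.rpow_natCast (A : ℝ) 2
  have hτsq : τ ^ 2 = D ^ 2 * (A : ℝ) ^ (ε / 2) := by
    rw [hτ, mul_pow, ← Real.rpow_natCast ((A : ℝ) ^ (ε / 4)) 2, ← Real.rpow_mul (by positivity)]
    congr 2
    push_cast
    ring
  calc ((PP M A B).card : ℝ)
      ≤ ((T.biUnion fun t => ((bx 3 B).filter fun x => Rep x ∧ qf (gm M t) x = 0).image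
          fun x => (t, x)).card : ℝ) := by exact_mod_cast Finset.card_le_card hsub
    _ ≤ ∑ t ∈ T, ((((bx 3 B).filter fun x => Rep x ∧ qf (gm M t) x = 0).card : ℕ) : ℝ) := by
        have e1 := Finset.card_biUnion_le (s := T) (t := fun t =>
          ((bx 3 B).filter fun x => Rep x ∧ qf (gm M t) x = 0).image fun x => (t, x))
        have e2 := e1.trans (Finset.sum_le_sum fun x _ => Finset.card_image_le)
        exact_mod_cast e2
    _ ≤ ∑ t ∈ T, τ ^ 2 * (11 + 40 * B * g t) := Finset.sum_le_sum hone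
    _ = τ ^ 2 * (11 * T.card + 40 * B * ∑ t ∈ T, g t) := by
        rw [← Finset.mul_sum, Finset.sum_add_distrib, Finset.sum_const, ← Finset.mul_sum,
          nsmul_eq_mul]
        ring
    _ ≤ τ ^ 2 * (11 * (27 * (A : ℝ) ^ 3) + 40 * B * (C3 * ((A : ℝ) ^ 2 * (A : ℝ) ^ (ε / 2)))) := by
        rw [hexp] at hTs
        gcongr
    _ ≤ τ ^ 2 * (297 * ((A : ℝ) ^ 2 * B) * (A : ℝ) ^ (ε / 2) +
          40 * B * (C3 * ((A : ℝ) ^ 2 * (A : ℝ) ^ (ε / 2)))) := by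
        have e1 : 11 * (27 * (A : ℝ) ^ 3) ≤ 297 * ((A : ℝ) ^ 2 * B) * (A : ℝ) ^ (ε / 2) := by
          have e2 : (A : ℝ) ^ 3 ≤ (A : ℝ) ^ 2 * B := by
            calc (A : ℝ) ^ 3 = (A : ℝ) ^ 2 * A := by ring
              _ ≤ (A : ℝ) ^ 2 * B := mul_le_mul_of_nonneg_left hAB' (by positivity)
          have e3 : (A : ℝ) ^ 2 * B ≤ (A : ℝ) ^ 2 * B * (A : ℝ) ^ (ε / 2) :=
            le_mul_of_one_le_right (by positivity) hA2
          nlinarith
        gcongr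
    _ = D ^ 2 * (297 + 40 * C3) * ((A : ℝ) ^ 2 * B) *
          ((A : ℝ) ^ (ε / 2) * (A : ℝ) ^ (ε / 2)) := by
        rw [hτsq]
        ring
    _ = D ^ 2 * (297 + 40 * C3) * ((A : ℝ) ^ 2 * B) * (A : ℝ) ^ ε := by
        rw [← Real.rpow_add (by positivity)]
        congr 2
        ring
    _ ≤ D ^ 2 * (297 + 40 * C3) * ((A : ℝ) ^ 2 * B) * ((A : ℝ) * B) ^ ε := by
        have e1 : (A : ℝ) ^ ε ≤ ((A : ℝ) * B) ^ ε :=
          Real.rpow_le_rpow (by positivity) (le_mul_of_one_le_right (by positivity) hB1) hε.le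
        exact mul_le_mul_of_nonneg_left e1 (by positivity)

/-- the number of points in a box -/
theorem box_ {M : Fin 3 → Matrix (Fin 3) (Fin 3) ℤ} (hM : ∀ i, (M i).IsSymm) (hb : Bpf M)
    (ε : ℝ) (hε : 0 < ε) : ∃ C : ℝ, 0 ≤ C ∧ ∀ A B : ℕ, 1 ≤ A → 1 ≤ B →
    ((PP M A B).card : ℝ) ≤ C * ((A : ℝ) ^ 2 * B) * ((A : ℝ) * B) ^ ε := by
  obtain ⟨C, hC, hle⟩ := box_le hM hb ε hε
  obtain ⟨C', hC', hge⟩ := lat_ hb
  refine ⟨C + 2 * C', by positivity, fun A B hA hB => ?_⟩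
  have hA1 : (1 : ℝ) ≤ A := by exact_mod_cast hA
  have hB1 : (1 : ℝ) ≤ B := by exact_mod_cast hB
  have hX : 0 ≤ ((A : ℝ) ^ 2 * B) * ((A : ℝ) * B) ^ ε := by positivity
  rcases le_total A B with hAB | hAB
  · refine (hle A B hA hB hAB).trans ?_
    calc C * ((A : ℝ) ^ 2 * B) * ((A : ℝ) * B) ^ ε
        = C * (((A : ℝ) ^ 2 * B) * ((A : ℝ) * B) ^ ε) := by ring
      _ ≤ (C + 2 * C') * (((A : ℝ) ^ 2 * B) * ((A : ℝ) * B) ^ ε) :=
          mul_le_mul_of_nonneg_right (by linarith) hX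
      _ = _ := by ring
  · refine (hge A B hA hB).trans ?_
    have hAB' : (B : ℝ) ≤ A := by exact_mod_cast hAB
    have h1 : (B : ℝ) ^ 3 ≤ (A : ℝ) ^ 2 * B := by
      calc (B : ℝ) ^ 3 = (B : ℝ) ^ 2 * B := by ring
        _ ≤ (A : ℝ) ^ 2 * B := by gcongr
    have h2 : (1 : ℝ) ≤ ((A : ℝ) * B) ^ ε :=
      Real.one_le_rpow (by nlinarith) hε.le
    calc C' * ((B : ℝ) ^ 3 + (A : ℝ) ^ 2 * B) ≤ C' * ((A : ℝ) ^ 2 * B + (A : ℝ) ^ 2 * B) := by
          gcongr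
      _ = 2 * C' * ((A : ℝ) ^ 2 * B) * 1 := by ring
      _ ≤ 2 * C' * ((A : ℝ) ^ 2 * B) * ((A : ℝ) * B) ^ ε :=
          mul_le_mul_of_nonneg_left h2 (by positivity)
      _ = 2 * C' * (((A : ℝ) ^ 2 * B) * ((A : ℝ) * B) ^ ε) := by ring
      _ ≤ (C + 2 * C') * (((A : ℝ) ^ 2 * B) * ((A : ℝ) * B) ^ ε) :=
          mul_le_mul_of_nonneg_right (by linarith) hX
      _ = _ := by ring

end Pool.Agent.K1H88.NC
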